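import Pool.Agent.Lib.MP_ebfc19_pr.Ex

/-!
# MP_ebfc19_pr: the lower limit of the averages is `0` along every play
-/

open MeasureTheory Filter Topology

namespace Pool.Agent.MP_ebfc19_pr

open St

/-- Total payoff of the first `T` stages. -/
noncomputable def Gs (s : St) (α : ℕ → ℕ) (T : ℕ) : ℝ := ∑ t ∈ Finset.range T, py (rst s α t)

lemma Gs_zero (s : St) (α : ℕ → ℕ) : Gs s α 0 = 0 := by simp [Gs]

lemma Gs_succ (s : St) (α : ℕ → ℕ) (T : ℕ) : Gs s α (T + 1) = Gs s α T + py (rst s α T) := by
  unfold Gs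
  rw [Finset.sum_range_succ]

lemma Gs_nonneg {s : St} (hs : s.Valid) (α : ℕ → ℕ) (T : ℕ) : 0 ≤ Gs s α T :=
  Finset.sum_nonneg fun t _ => py_nonneg (rst_valid hs α t)

lemma Gs_le {s : St} (hs : s.Valid) (α : ℕ → ℕ) (T : ℕ) : Gs s α T ≤ T := by
  calc Gs s α T ≤ ∑ t ∈ Finset.range T, (1 : ℝ) :=
        Finset.sum_le_sum fun t _ => py_le_one (rst_valid hs α t)
    _ = T := by simp

/-- The charge. -/
def chg : St → ℕ
  | ch _ c => c
  | fl _ _ _ => 0

/-- The (virtual) landing time, shifted. -/
def Xf (K : ℕ) : St → ℕ → ℝ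
  | ch _ c, t => (t : ℝ) + K - c
  | fl _ _ r, t => (t : ℝ) + r + K

/-- Remaining payoff of the current flight. -/
def rem : St → ℝ
  | ch _ _ => 0
  | fl p _ r => p * r

lemma rem_nonneg {s : St} (hs : s.Valid) : 0 ≤ rem s := by
  cases s with
  | ch p c => exact le_refl _
  | fl p j r => exact mul_nonneg hs.1.1 (Nat.cast_nonneg r)

lemma inv_chg {s : St} (hs : s.Valid) (α : ℕ → ℕ) (t : ℕ) :
    Gs s α t + chg (rst s α t) ≤ t + chg s := by
  induction t with
  | zero => simp [Gs_zero, rst]
  | succ t ih =>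
    rw [Gs_succ]
    have h1 : rst s α (t + 1) = nx (rst s α t) (α t) := rfl
    rw [h1]
    have hv := rst_valid hs α t
    rcases hS : rst s α t with ⟨p, c⟩ | ⟨p, j, r⟩
    · rw [hS] at ih
      simp only [nx]
      split_ifs with h
      · simp only [chg, py] at ih ⊢
        push_cast
        have : (0 : ℝ) ≤ c := Nat.cast_nonneg c
        linarith
      · simp only [chg, py] at ih ⊢
        push_cast
        linarith
    · rw [hS] at ih hv
      have hp : p ≤ 1 := hv.1.2
      simp only [nx]
      split_ifs with h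
      · simp only [chg, py] at ih ⊢
        push_cast at ih ⊢
        linarith
      · simp only [chg, py] at ih ⊢
        push_cast at ih ⊢
        linarith

lemma Gs_le_Xf {s : St} (hs : s.Valid) (α : ℕ → ℕ) (t : ℕ) :
    Gs s α t ≤ Xf (chg s) (rst s α t) t := by
  have h := inv_chg hs α t
  rcases hS : rst s α t with ⟨p, c⟩ | ⟨p, j, r⟩
  · rw [hS] at h
    simp only [chg, Xf] at h ⊢
    linarith
  · rw [hS] at h
    simp only [chg, Xf] at h ⊢
    push_cast at h
    have : (0 : ℝ) ≤ r := Nat.cast_nonneg r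
    linarith

/-- Once the asymptotic value is `0`, the total payoff stays bounded. -/
lemma zero_bound {s : St} (hs : s.Valid) (α : ℕ → ℕ) {t : ℕ} (h0 : vv (rst s α t) = 0) (n : ℕ) :
    vv (rst s α (t + n)) = 0 ∧
      Gs s α (t + n) + rem (rst s α (t + n)) ≤ Gs s α t + rem (rst s α t) := by
  induction n with
  | zero => exact ⟨h0, le_refl _⟩
  | succ n ih =>
    obtain ⟨ih1, ih2⟩ := ih
    have h1 : rst s α (t + (n + 1)) = nx (rst s α (t + n)) (α (t + n)) := rfl
    have h2 : Gs s α (t + (n + 1)) = Gs s α (t + n) + py (rst s α (t + n)) := Gs_succ s α (t + n)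
    rw [h1, h2]
    have hv := rst_valid hs α (t + n)
    rcases hS : rst s α (t + n) with ⟨p, c⟩ | ⟨p, j, r⟩
    · rw [hS] at ih1 ih2
      have hp : p = 0 := ih1
      subst hp
      simp only [nx]
      split_ifs with h
      · refine ⟨?_, ?_⟩
        · simp only [vv, dn]
          apply max_eq_right
          have : (0 : ℝ) ≤ 1 / (α (t + n) : ℝ) := by positivity
          linarith
        · simp only [rem, py] at ih2 ⊢
          linarith
      · refine ⟨rfl, ?_⟩
        simp only [rem, py] at ih2 ⊢
        linarith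
    · rw [hS] at ih1 ih2 hv
      simp only [nx]
      split_ifs with h
      · have hr : r = 1 := le_antisymm h hv.2.2.1
        subst hr
        refine ⟨ih1, ?_⟩
        simp only [rem, py] at ih2 ⊢
        push_cast at ih2
        linarith
      · obtain ⟨k, rfl⟩ : ∃ k, r = k + 1 := ⟨r - 1, by omega⟩
        refine ⟨ih1, ?_⟩
        simp only [rem, py, Nat.add_sub_cancel] at ih2 ⊢
        push_cast at ih2
        linarith

/-- The triple logarithm. -/
noncomputable def Phi (x : ℝ) : ℝ := Real.log (Real.log (Real.log x))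

/-- The core inequality. -/
lemma Phi_step {a X X' T : ℝ} {j : ℕ} (ha : 0 < a) (hj : 1 ≤ j) (hT : (2 : ℝ) ^ j ≤ T)
    (hTX : T ≤ (2 / a) * X) (hX' : X' ≤ (1 + j) * T) (hX0 : 0 < X) (hXX : X ≤ X')
    (hL4 : 4 ≤ Real.log X) (hLa : 2 / a ≤ Real.log X) : Phi X' ≤ Phi X + 9 / j := by
  have hj0 : (0 : ℝ) < j := by exact_mod_cast hj
  have hTpos : 0 < T := lt_of_lt_of_le (by positivity) hT
  have ha2 : 0 < 2 / a := by positivity
  set L := Real.log X with hL
  have hLpos : 0 < L := by linarith
  have hlogT : Real.log T ≤ Real.log (2 / a) + L := by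
    rw [hL, ← Real.log_mul ha2.ne' hX0.ne']
    exact Real.log_le_log hTpos hTX
  have hloga : Real.log (2 / a) ≤ Real.log L := Real.log_le_log ha2 hLa
  have hlogL : Real.log L ≤ L := by
    have := Real.log_le_sub_one_of_pos hLpos
    linarith
  have hj3 : (j : ℝ) ≤ 3 * L := by
    have h1 : (j : ℝ) * Real.log 2 ≤ Real.log T := by
      rw [← Real.log_pow]
      exact Real.log_le_log (by positivity) hT
    have h2 := Real.log_two_gt_d9
    have h3 : (j : ℝ) * (2 / 3) ≤ j * Real.log 2 := by
      apply mul_le_mul_of_nonneg_left _ hj0.le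
      linarith
    linarith
  have hL' : Real.log X' ≤ L + 3 * Real.log L := by
    have h1 : Real.log X' ≤ Real.log ((1 + j) * T) := Real.log_le_log (by linarith) hX'
    rw [Real.log_mul (by positivity) hTpos.ne'] at h1
    have h2 : Real.log (1 + j) ≤ Real.log (L ^ 2) := by
      apply Real.log_le_log (by positivity)
      nlinarith
    rw [Real.log_pow] at h2
    push_cast at h2
    linarith
  have hL'ge : L ≤ Real.log X' := Real.log_le_log hX0 hXX
  have hlogL1 : 1 ≤ Real.log L := by
    have h1 : Real.log 4 ≤ Real.log L := Real.log_le_log (by norm_num) hL4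
    have h2 : Real.log 4 = 2 * Real.log 2 := by
      rw [show (4 : ℝ) = 2 ^ 2 by norm_num, Real.log_pow]
      norm_num
    have h3 := Real.log_two_gt_d9
    linarith
  have h5 : Real.log (Real.log X') ≤ Real.log L * (1 + 3 / L) := by
    have h1 : Real.log (Real.log X') ≤ Real.log (L + 3 * Real.log L) :=
      Real.log_le_log (by linarith) hL'
    have h2 : L + 3 * Real.log L = L * (1 + 3 * Real.log L / L) := by
      field_simp
    rw [h2, Real.log_mul hLpos.ne' (by positivity)] at h1
    have h3 : Real.log (1 + 3 * Real.log L / L) ≤ 3 * Real.log L / L := by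
      have := Real.log_le_sub_one_of_pos (show 0 < 1 + 3 * Real.log L / L by positivity)
      linarith
    have h4 : Real.log L * (1 + 3 / L) = Real.log L + 3 * Real.log L / L := by ring
    rw [h4]
    linarith
  have h6 : 1 ≤ Real.log (Real.log X') :=
    hlogL1.trans (Real.log_le_log hLpos hL'ge)
  have h7 : Phi X' ≤ Real.log (Real.log L) + 3 / L := by
    have h1 : Phi X' ≤ Real.log (Real.log L * (1 + 3 / L)) := Real.log_le_log (by linarith) h5
    rw [Real.log_mul (by linarith) (by positivity)] at h1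
    have h3 : Real.log (1 + 3 / L) ≤ 3 / L := by
      have := Real.log_le_sub_one_of_pos (show 0 < 1 + 3 / L by positivity)
      linarith
    linarith
  have h8 : 3 / L ≤ 9 / j := by
    rw [div_le_div_iff₀ hLpos hj0]
    linarith
  have h9 : Phi X = Real.log (Real.log L) := rfl
  rw [h9]
  linarith

/-- The potential decreases along plays. -/
lemma pot_step {s : St} (hs : s.Valid) (α : ℕ → ℕ) {a : ℝ} (ha : 0 < a) {t : ℕ}
    (hG : a * t ≤ Gs s α t) (hK : chg s + 1 ≤ t) (h4 : 4 ≤ Real.log (a * t))
    (h5 : 2 / a ≤ Real.log (a * t)) (hpos : 0 < vv (rst s α (t + 1))) :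
    9 * vv (rst s α (t + 1)) + Phi (Xf (chg s) (rst s α (t + 1)) (t + 1)) ≤
      9 * vv (rst s α t) + Phi (Xf (chg s) (rst s α t) t) := by
  have h1 : rst s α (t + 1) = nx (rst s α t) (α t) := rfl
  rw [h1] at hpos ⊢
  have hv := rst_valid hs α t
  have hinv := inv_chg hs α t
  have hX := Gs_le_Xf hs α t
  have hG0 := Gs_nonneg hs α t
  have ht0 : (0 : ℝ) < t := by
    have : 0 < t := by omega
    exact_mod_cast this
  rcases hS : rst s α t with ⟨p, c⟩ | ⟨p, j, r⟩
  · rw [hS] at hpos hinv hv hX
    simp only [nx] at hpos ⊢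
    split_ifs at hpos ⊢ with h
    · obtain ⟨hj, hjc⟩ := h
      simp only [vv] at hpos ⊢
      have hdn : dn p (α t) = p - 1 / (α t : ℝ) := by
        rcases max_choice (p - 1 / (α t : ℝ)) 0 with h | h
        · exact h
        · exfalso
          have : dn p (α t) = 0 := h
          linarith
      rw [hdn]
      simp only [chg] at hinv
      have hc : (2 : ℝ) ^ (α t) ≤ c := by exact_mod_cast hjc
      have hK' : ((chg s : ℝ)) + 1 ≤ t := by exact_mod_cast hK
      have hX2 : a * t ≤ (t : ℝ) + chg s - c := by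
        simp only [Xf] at hX
        linarith
      have hstep : Phi (Xf (chg s) (fl p (α t) (α t * 2 ^ α t)) (t + 1)) ≤
          Phi (Xf (chg s) (ch p c) t) + 9 / (α t : ℝ) := by
        have hat : 0 < a * t := by positivity
        apply Phi_step (a := a) (T := (t : ℝ) + chg s + 1) ha hj
        · linarith
        · simp only [Xf]
          have h6 : (t : ℝ) ≤ (1 / a) * ((t : ℝ) + chg s - c) := by
            rw [one_div, ← div_eq_inv_mul, le_div_iff₀ ha]
            linarith
          have h7 : (2 / a) * ((t : ℝ) + chg s - c) = 2 * ((1 / a) * ((t : ℝ) + chg s - c)) := by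
            ring
          rw [h7]
          linarith
        · simp only [Xf]
          push_cast
          have h8 : (α t : ℝ) * 2 ^ α t ≤ (α t : ℝ) * ((t : ℝ) + chg s + 1) := by
            apply mul_le_mul_of_nonneg_left _ (Nat.cast_nonneg _)
            linarith
          linarith
        · simp only [Xf]
          linarith
        · simp only [Xf]
          push_cast
          have h8 : (0 : ℝ) ≤ (α t : ℝ) * 2 ^ α t := by positivity
          have h9 : (0 : ℝ) ≤ c := Nat.cast_nonneg c
          linarith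
        · simp only [Xf]
          exact h4.trans (Real.log_le_log hat hX2)
        · simp only [Xf]
          exact h5.trans (Real.log_le_log hat hX2)
      have : 9 / (α t : ℝ) = 9 * (1 / (α t : ℝ)) := by ring
      linarith
    · simp only [vv, Xf]
      push_cast
      have : (t : ℝ) + 1 + (chg s : ℝ) - (c + 1) = t + chg s - c := by ring
      rw [this]
  · rw [hS] at hpos hinv hv hX
    simp only [nx] at hpos ⊢
    split_ifs at hpos ⊢ with h
    · have hr : r = 1 := le_antisymm h hv.2.2.1
      subst hr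
      simp only [vv, Xf]
      push_cast
      have : (t : ℝ) + 1 + (chg s : ℝ) - 0 = t + 1 + chg s := by ring
      rw [this]
    · obtain ⟨k, rfl⟩ : ∃ k, r = k + 1 := ⟨r - 1, by omega⟩
      simp only [vv, Xf, Nat.add_sub_cancel]
      push_cast
      have : (t : ℝ) + 1 + (k : ℝ) + (chg s : ℝ) = t + (k + 1) + chg s := by ring
      rw [this]

lemma tendsto_Phi : Tendsto Phi atTop atTop :=
  Real.tendsto_log_atTop.comp (Real.tendsto_log_atTop.comp Real.tendsto_log_atTop)

/-- No play has averages eventually bounded below by a positive constant. -/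
lemma no_linear {s : St} (hs : s.Valid) (α : ℕ → ℕ) {a : ℝ} (ha : 0 < a) (t0 : ℕ) :
    ¬ ∀ t : ℕ, t0 ≤ t → a * t ≤ Gs s α t := by
  intro hG
  have hat : Tendsto (fun t : ℕ => a * (t : ℝ)) atTop atTop :=
    tendsto_natCast_atTop_atTop.const_mul_atTop ha
  by_cases hz : ∃ t, vv (rst s α t) = 0
  · obtain ⟨t, ht⟩ := hz
    obtain ⟨n, hn⟩ := ((hat.eventually_gt_atTop (Gs s α t + rem (rst s α t))).and
      (eventually_ge_atTop (max t0 t))).exists
    obtain ⟨m, rfl⟩ : ∃ m, n = t + m := ⟨n - t, by have := le_max_right t0 t; omega⟩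
    have h1 := (zero_bound hs α ht m).2
    have h2 := hG (t + m) ((le_max_left t0 t).trans hn.2)
    have h3 : 0 ≤ rem (rst s α (t + m)) := rem_nonneg (rst_valid hs α (t + m))
    have h4 := hn.1
    linarith
  · push Not at hz
    have hpos : ∀ t, 0 < vv (rst s α t) := fun t =>
      lt_of_le_of_ne (vv_nonneg (rst_valid hs α t)) (Ne.symm (hz t))
    have hlog : Tendsto (fun t : ℕ => Real.log (a * (t : ℝ))) atTop atTop :=
      Real.tendsto_log_atTop.comp hat
    obtain ⟨t1, ht1⟩ := eventually_atTop.1 ((hlog.eventually_ge_atTop 4).and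
      ((hlog.eventually_ge_atTop (2 / a)).and (eventually_ge_atTop (max t0 (chg s + 1)))))
    have hmono : ∀ n : ℕ, 9 * vv (rst s α (t1 + n)) + Phi (Xf (chg s) (rst s α (t1 + n)) (t1 + n))
        ≤ 9 * vv (rst s α t1) + Phi (Xf (chg s) (rst s α t1) t1) := by
      intro n
      induction n with
      | zero => exact le_refl _
      | succ n ih =>
        obtain ⟨h1, h2, h3⟩ := ht1 (t1 + n) (by omega)
        exact (pot_step hs α ha (hG _ ((le_max_left _ _).trans h3))
          ((le_max_right _ _).trans h3) h1 h2 (hpos _)).trans ih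
    set M := 9 * vv (rst s α t1) + Phi (Xf (chg s) (rst s α t1) t1)
    obtain ⟨n, hn⟩ := (((tendsto_Phi.comp hat).eventually_gt_atTop M).and
      (eventually_ge_atTop t1)).exists
    obtain ⟨m, rfl⟩ : ∃ m, n = t1 + m := ⟨n - t1, by omega⟩
    obtain ⟨h1, h2, h3⟩ := ht1 (t1 + m) (by omega)
    have h4 := hmono m
    have h5 := Gs_le_Xf hs α (t1 + m)
    have h6 := hG (t1 + m) ((le_max_left _ _).trans h3)
    have h7 := vv_nonneg (rst_valid hs α (t1 + m))
    have hpos1 : 0 < t1 + m := by
      have := le_max_right t0 (chg s + 1)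
      omega
    have hpos2 : 0 < a * ((t1 + m : ℕ) : ℝ) := mul_pos ha (by exact_mod_cast hpos1)
    have h8 : Phi (a * ((t1 + m : ℕ) : ℝ)) ≤ Phi (Xf (chg s) (rst s α (t1 + m)) (t1 + m)) := by
      have h9 : Real.log (a * ((t1 + m : ℕ) : ℝ)) ≤
          Real.log (Xf (chg s) (rst s α (t1 + m)) (t1 + m)) :=
        Real.log_le_log hpos2 (h6.trans h5)
      have h10 : 0 < Real.log (Real.log (a * ((t1 + m : ℕ) : ℝ))) := Real.log_pos (by linarith)
      exact Real.log_le_log h10 (Real.log_le_log (by linarith) h9)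
    have h11 : M < Phi (a * ((t1 + m : ℕ) : ℝ)) := hn.1
    linarith

end Pool.Agent.MP_ebfc19_pr
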