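import Pool.Agent.Lib.MP_ebfc19_pr.Low
import Pool.Agent.Lib.MP_ebfc19_pr.Lim

/-!
# MP_ebfc19_pr: plays with large averages at arbitrarily large times, and the value
-/

open MeasureTheory Filter Topology

namespace Pool.Agent.MP_ebfc19_pr

open St

/-- Total payoff of the constant play. -/
noncomputable def Hs (j : ℕ) (s : St) (T : ℕ) : ℝ := Gs s (fun _ => j) T

lemma Hs_succ (j : ℕ) (s : St) (T : ℕ) : Hs j s (T + 1) = py s + Hs j (nx s j) T := by
  unfold Hs Gs
  rw [Finset.sum_range_succ']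
  simp_rw [rst_succ']
  rw [add_comm]
  rfl

lemma Hs_fl (j : ℕ) (p : ℝ) (k T : ℕ) : ∀ r, 1 ≤ r →
    Hs j (fl p k r) (r + T) = r * p + Hs j (ch (dn p k) 0) T := by
  intro r hr
  induction r, hr using Nat.le_induction with
  | base =>
    rw [add_comm 1 T, Hs_succ]
    simp [nx, py]
  | succ r hr ih =>
    rw [show r + 1 + T = (r + T) + 1 by ring, Hs_succ]
    have h2 : nx (fl p k (r + 1)) j = fl p k r := by
      simp only [nx]
      rw [if_neg (by omega)]
      rfl
    rw [h2, ih]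
    simp only [py]
    push_cast
    ring

lemma Hs_fl_full (j : ℕ) (p : ℝ) (k r : ℕ) (hr : 1 ≤ r) : Hs j (fl p k r) r = r * p := by
  have := Hs_fl j p k 0 r hr
  simpa [Hs, Gs_zero] using this

lemma Hs_ch (j : ℕ) (hj : 1 ≤ j) (p : ℝ) (T : ℕ) : ∀ m c, c + m = 2 ^ j →
    Hs j (ch p c) (m + 1 + T) = Hs j (fl p j (j * 2 ^ j)) T := by
  intro m
  induction m with
  | zero =>
    intro c hc
    rw [show 0 + 1 + T = T + 1 by ring, Hs_succ]
    have h2 : nx (ch p c) j = fl p j (j * 2 ^ j) := by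
      simp only [nx]
      rw [if_pos ⟨hj, by omega⟩]
    rw [h2]
    simp [py]
  | succ m ih =>
    intro c hc
    rw [show m + 1 + 1 + T = (m + 1 + T) + 1 by ring, Hs_succ]
    have h2 : nx (ch p c) j = ch p (c + 1) := by
      simp only [nx]
      rw [if_neg (by omega)]
    rw [h2, ih (c + 1) (by omega)]
    simp [py]

/-- From every state there are plays with averages close to `vv` at arbitrarily large times. -/
lemma exists_big {s : St} (hs : s.Valid) {ε : ℝ} (hε : 0 < ε) (T0 : ℕ) :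
    ∃ T, T0 ≤ T ∧ 0 < T ∧ ∃ α, (vv s - ε) * T ≤ Gs s α T := by
  -- a common computation
  have main : ∀ (j m : ℕ), (1 : ℝ) ≤ j → (m : ℝ) ≤ 3 * 2 ^ j → 3 / ε ≤ (j : ℝ) → ∀ x : ℝ, 0 ≤ x →
      x ≤ 1 → (x - ε) * ((m + j * 2 ^ j : ℕ) : ℝ) ≤ ((j * 2 ^ j : ℕ) : ℝ) * x := by
    intro j m hj hm hjε x hx0 hx1
    push_cast
    rw [div_le_iff₀ hε] at hjε
    have h1 : (0 : ℝ) < 2 ^ j := by positivity
    have h2 : x * m ≤ 1 * (3 * 2 ^ j) := mul_le_mul hx1 hm (Nat.cast_nonneg m) zero_le_one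
    have h3 : (3 : ℝ) * 2 ^ j ≤ (j * ε) * 2 ^ j := mul_le_mul_of_nonneg_right hjε h1.le
    have h4 : 0 ≤ ε * m := mul_nonneg hε.le (Nat.cast_nonneg m)
    nlinarith
  have hpow : Tendsto (fun j : ℕ => 2 ^ j) atTop atTop := tendsto_pow_atTop_atTop_of_one_lt one_lt_two
  cases s with
  | ch p c =>
    obtain ⟨j, h1, h2, h3, h4⟩ := ((eventually_ge_atTop 1).and
      ((hpow.eventually_ge_atTop (c + T0)).and ((tendsto_natCast_atTop_atTop
        (R := ℝ)).eventually_ge_atTop (3 / ε) |>.and (eventually_ge_atTop 1)))).exists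
    have h2' : c + T0 ≤ 2 ^ j := h2
    refine ⟨(2 ^ j - c) + 1 + j * 2 ^ j, ?_, by omega, fun _ => j, ?_⟩
    · have : 1 * 2 ^ j ≤ j * 2 ^ j := Nat.mul_le_mul_right _ h1
      omega
    · have h5 : Gs (ch p c) (fun _ => j) ((2 ^ j - c) + 1 + j * 2 ^ j) =
          ((j * 2 ^ j : ℕ) : ℝ) * p := by
        have h6 := Hs_ch j h1 p (j * 2 ^ j) (2 ^ j - c) c (by omega)
        have h7 : 1 ≤ j * 2 ^ j := by
          have : 1 * 1 ≤ j * 2 ^ j := Nat.mul_le_mul h1 Nat.one_le_two_pow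
          omega
        rw [Hs_fl_full j p j _ h7] at h6
        exact h6
      rw [h5]
      simp only [vv]
      apply main j ((2 ^ j - c) + 1) (by exact_mod_cast h1) _ h3 p hs.1 hs.2
      have h8 : (2 ^ j - c) + 1 ≤ 3 * 2 ^ j := by
        have := Nat.one_le_two_pow (n := j)
        omega
      exact_mod_cast h8
  | fl p k r =>
    obtain ⟨hp, hk, hr, -⟩ := hs
    obtain ⟨j, h1, h2, h3, h4⟩ := ((eventually_ge_atTop 1).and
      ((hpow.eventually_ge_atTop (r + T0)).and ((tendsto_natCast_atTop_atTop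
        (R := ℝ)).eventually_ge_atTop (3 / ε) |>.and (eventually_ge_atTop 1)))).exists
    have h2' : r + T0 ≤ 2 ^ j := h2
    refine ⟨(r + (2 ^ j + 1)) + j * 2 ^ j, ?_, by omega, fun _ => j, ?_⟩
    · have : 1 * 2 ^ j ≤ j * 2 ^ j := Nat.mul_le_mul_right _ h1
      omega
    · have h5 : Gs (fl p k r) (fun _ => j) ((r + (2 ^ j + 1)) + j * 2 ^ j) =
          r * p + ((j * 2 ^ j : ℕ) : ℝ) * dn p k := by
        have h6 := Hs_fl j p k ((2 ^ j + 1) + j * 2 ^ j) r hr
        have h7 : 1 ≤ j * 2 ^ j := by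
          have : 1 * 1 ≤ j * 2 ^ j := Nat.mul_le_mul h1 Nat.one_le_two_pow
          omega
        have h8 := Hs_ch j h1 (dn p k) (j * 2 ^ j) (2 ^ j) 0 (by omega)
        rw [Hs_fl_full j _ j _ h7] at h8
        rw [h8, ← add_assoc] at h6
        exact h6
      rw [h5]
      simp only [vv]
      have h9 := main j (r + (2 ^ j + 1)) (by exact_mod_cast h1) (by
        have h8 : r + (2 ^ j + 1) ≤ 3 * 2 ^ j := by
          have := Nat.one_le_two_pow (n := j)
          omega
        exact_mod_cast h8) h3 (dn p k) (dn_nonneg _ _) ((dn_le hp.1 k).trans hp.2)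
      have h10 : 0 ≤ (r : ℝ) * p := mul_nonneg (Nat.cast_nonneg r) hp.1
      linarith

lemma avg_eq (ω : ex.Ω) (T : ℕ) (α : ℕ → ℕ) : ex.avg ω T α = Gs ω.1 α T / T := by
  unfold Game.avg Gs
  simp_rw [g_eq]

lemma avg_nonneg (ω : ex.Ω) (T : ℕ) (α : ℕ → ℕ) : 0 ≤ ex.avg ω T α := by
  rw [avg_eq]
  exact div_nonneg (Gs_nonneg ω.2 α T) (Nat.cast_nonneg T)

lemma avg_le_one (ω : ex.Ω) (T : ℕ) (α : ℕ → ℕ) : ex.avg ω T α ≤ 1 := by
  rw [avg_eq]
  exact div_le_one_of_le₀ (Gs_le ω.2 α T) (Nat.cast_nonneg T)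

lemma bddAbove (ω : ex.Ω) (α : ℕ → ℕ) :
    IsBoundedUnder (· ≤ ·) atTop (fun T => ex.avg ω T α) :=
  isBoundedUnder_of ⟨1, fun T => avg_le_one ω T α⟩

lemma bddBelow (ω : ex.Ω) (α : ℕ → ℕ) :
    IsBoundedUnder (· ≥ ·) atTop (fun T => ex.avg ω T α) :=
  isBoundedUnder_of ⟨0, fun T => avg_nonneg ω T α⟩

/-- Along every play the lower limit of the averages is `0`. -/
lemma liminf_eq (ω : ex.Ω) (α : ℕ → ℕ) : liminf (fun T => ex.avg ω T α) atTop = 0 := by
  apply le_antisymm
  · by_contra hc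
    push Not at hc
    set x := liminf (fun T => ex.avg ω T α) atTop with hx
    have h1 : ∀ᶠ T in atTop, x / 2 < ex.avg ω T α :=
      eventually_lt_of_lt_liminf (by rw [← hx]; linarith) (bddBelow ω α)
    obtain ⟨t0, ht0⟩ := eventually_atTop.1 (h1.and (eventually_gt_atTop 0))
    apply no_linear ω.2 α (show 0 < x / 2 by linarith) t0
    intro t ht
    obtain ⟨h2, h3⟩ := ht0 t ht
    rw [avg_eq, lt_div_iff₀ (by exact_mod_cast h3)] at h2
    exact h2.le
  · exact le_liminf_of_le (bddAbove ω α).isCoboundedUnder_ge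
      (Eventually.of_forall fun T => avg_nonneg ω T α)

/-- The asymptotic discounted value, as a function on the states of the game. -/
noncomputable def vex (ω : ex.Ω) : ℝ := vv ω.1

lemma exists_big' (ω : ex.Ω) {ε : ℝ} (hε : 0 < ε) (T0 : ℕ) :
    ∃ T, T0 ≤ T ∧ ∃ α, vex ω - ε ≤ ex.avg ω T α := by
  obtain ⟨T, h1, h2, α, h3⟩ := exists_big ω.2 hε T0
  refine ⟨T, h1, α, ?_⟩
  rw [avg_eq, le_div_iff₀ (by exact_mod_cast h2)]
  exact h3

/-- If the asymptotic discounted value is `0`, the game has the value `0`. -/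
lemma hasValue_zero (ω : ex.Ω) (h : vex ω = 0) : ex.HasValue ω 0 := by
  intro ε hε
  have hb : ∀ α T, Gs ω.1 α T ≤ rem ω.1 := by
    intro α T
    have h1 := (zero_bound ω.2 α (t := 0) h T).2
    have h2 : (0 : ℕ) + T = T := Nat.zero_add T
    rw [h2] at h1
    have h3 := rem_nonneg (rst_valid ω.2 α T)
    have h4 : rst ω.1 α 0 = ω.1 := rfl
    rw [Gs_zero, h4] at h1
    linarith
  constructor
  · refine ⟨⟨Measure.dirac (fun _ => 0), inferInstance⟩, 0, ?_, ?_⟩
    · intro T _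
      have : 0 ≤ ∫ α, ex.avg ω T α ∂(Measure.dirac (fun _ => 0)) :=
        integral_nonneg fun α => avg_nonneg ω T α
      exact le_trans (by linarith) this
    · simp_rw [liminf_eq]
      simp only [integral_zero]
      linarith
  · obtain ⟨N, hN⟩ := exists_nat_ge (rem ω.1 / ε)
    refine ⟨N + 1, fun μ => ⟨?_, ?_⟩⟩
    · intro T hT
      have h1 : ∀ α, ex.avg ω T α ≤ ε := by
        intro α
        have hT0 : (0 : ℝ) < T := by
          have : 0 < T := by omega
          exact_mod_cast this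
        rw [avg_eq, div_le_iff₀ hT0]
        rw [div_le_iff₀ hε] at hN
        have h2 : (N : ℝ) ≤ T := by
          have : N ≤ T := by omega
          exact_mod_cast this
        have h3 : (N : ℝ) * ε ≤ T * ε := mul_le_mul_of_nonneg_right h2 hε.le
        have := hb α T
        linarith
      rw [zero_add]
      by_cases hi : Integrable (fun α => ex.avg ω T α) (μ : Measure (ℕ → ℕ))
      · calc ∫ α, ex.avg ω T α ∂(μ : Measure (ℕ → ℕ)) ≤ ∫ _, ε ∂(μ : Measure (ℕ → ℕ)) :=
              integral_mono hi (integrable_const ε) h1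
          _ = ε := by simp
      · rw [integral_undef hi]
        exact hε.le
    · have h1 : ∀ α, limsup (fun T => ex.avg ω T α) atTop = 0 := by
        intro α
        apply Tendsto.limsup_eq
        have h2 : Tendsto (fun T : ℕ => rem ω.1 / (T : ℝ)) atTop (𝓝 0) :=
          tendsto_const_nhds.div_atTop tendsto_natCast_atTop_atTop
        refine squeeze_zero (fun T => avg_nonneg ω T α) (fun T => ?_) h2
        rw [avg_eq]
        exact div_le_div_of_nonneg_right (hb α T) (Nat.cast_nonneg T)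
      simp_rw [h1]
      simp only [integral_zero]
      linarith

/-- If the asymptotic discounted value is positive, the game has no value. -/
lemma no_value (ω : ex.Ω) (h : 0 < vex ω) (x : ℝ) : ¬ ex.HasValue ω x := by
  intro hx
  obtain ⟨⟨μ, T1, -, h1⟩, -⟩ := hx (vex ω / 4) (by linarith)
  obtain ⟨-, T0, h2⟩ := hx (vex ω / 4) (by linarith)
  simp_rw [liminf_eq] at h1
  simp only [integral_zero] at h1
  obtain ⟨T, hT, α, h3⟩ := exists_big' ω (show 0 < vex ω / 4 by linarith) T0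
  have h4 := (h2 ⟨Measure.dirac α, inferInstance⟩).1 T hT
  have h5 : ∫ β, ex.avg ω T β ∂(Measure.dirac α) = ex.avg ω T α := integral_dirac _ _
  have h6 : ex.avg ω T α ≤ x + vex ω / 4 := by
    rw [← h5]
    exact h4
  linarith

/-- The discounted values converge uniformly at the rate `34 / log (1/l)`. -/
lemma vdisc_bound (ω : ex.Ω) {l : ℝ} (h0 : 0 < l) (h1 : l ≤ 1 / 2) :
    |ex.vdisc l ω - vex ω| ≤ 34 / Real.log (1 / l) := by
  have hL : 0 < Real.log (1 / l) := Real.log_pos (by rw [lt_div_iff₀ h0]; linarith)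
  have hupper : ∀ μ : ProbabilityMeasure (ℕ → ℕ),
      ∫ α, ex.disc l ω α ∂(μ : Measure (ℕ → ℕ)) ≤ vex ω + 2 / Real.log (1 / l) := by
    intro μ
    have h2 : ∀ α, ex.disc l ω α ≤ vex ω + 2 / Real.log (1 / l) := by
      intro α
      rw [disc_eq]
      exact rdisc_upper h0 (by linarith) ω.2 α
    by_cases hi : Integrable (fun α => ex.disc l ω α) (μ : Measure (ℕ → ℕ))
    · calc ∫ α, ex.disc l ω α ∂(μ : Measure (ℕ → ℕ))
          ≤ ∫ _, (vex ω + 2 / Real.log (1 / l)) ∂(μ : Measure (ℕ → ℕ)) :=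
            integral_mono hi (integrable_const _) h2
        _ = _ := by simp
    · rw [integral_undef hi]
      have h3 : 0 ≤ vex ω := vv_nonneg ω.2
      have h4 : 0 ≤ 2 / Real.log (1 / l) := by positivity
      linarith
  obtain ⟨j, hj⟩ := exists_good h0 h1
  have hlower : vex ω - 34 / Real.log (1 / l) ≤ ex.vdisc l ω := by
    have h2 := hj ω.1 ω.2
    rw [← disc_eq] at h2
    refine h2.trans ?_
    have h3 : ∫ β, ex.disc l ω β ∂(Measure.dirac (fun _ => j)) = ex.disc l ω (fun _ => j) :=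
      integral_dirac _ _
    rw [← h3]
    exact le_ciSup (f := fun μ : ProbabilityMeasure (ℕ → ℕ) =>
      ∫ α, ex.disc l ω α ∂(μ : Measure (ℕ → ℕ))) ⟨_, by rintro _ ⟨μ, rfl⟩; exact hupper μ⟩
      ⟨Measure.dirac (fun _ => j), inferInstance⟩
  have hup : ex.vdisc l ω ≤ vex ω + 2 / Real.log (1 / l) := by
    haveI : Nonempty (ProbabilityMeasure (ℕ → ℕ)) :=
      ⟨⟨Measure.dirac (fun _ => 0), inferInstance⟩⟩
    exact ciSup_le hupper
  have h5 : 2 / Real.log (1 / l) ≤ 34 / Real.log (1 / l) :=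
    div_le_div_of_nonneg_right (by norm_num) hL.le
  rw [abs_le]
  constructor <;> linarith

end Pool.Agent.MP_ebfc19_pr
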