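import Pool.Agent.Lib.MP_ebfc19_pr.DDefs

/-!
# MP_ebfc19_pr: basic lemmas on deterministic one-player games
-/

open Filter Topology

namespace Pool.Agent.MP_ebfc19_pr

namespace DGame

variable {G : DGame}

/-- Payoffs in `[0, 1]`. -/
def Bdd (G : DGame) : Prop := ∀ ω a, 0 ≤ G.pay ω a ∧ G.pay ω a ≤ 1

lemma st_add (ω : G.Ω) (α : ℕ → G.Act) (n t : ℕ) :
    G.st ω α (n + t) = G.st (G.st ω α n) (fun i => α (n + i)) t := by
  induction t with
  | zero => rfl
  | succ t ih =>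
    show G.next (G.st ω α (n + t)) (α (n + t)) = _
    rw [ih]
    rfl

lemma g_add (ω : G.Ω) (α : ℕ → G.Act) (n t : ℕ) :
    G.g ω α (n + t) = G.g (G.st ω α n) (fun i => α (n + i)) t := by
  unfold g
  rw [st_add]

/-- Concatenation of plays. -/
def cat (n : ℕ) (α β : ℕ → G.Act) : ℕ → G.Act := fun t => if t < n then α t else β (t - n)

lemma st_congr (ω : G.Ω) {α β : ℕ → G.Act} {n : ℕ} (h : ∀ t, t < n → α t = β t) :
    ∀ t, t ≤ n → G.st ω α t = G.st ω β t := by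
  intro t ht
  induction t with
  | zero => rfl
  | succ t ih =>
    show G.next (G.st ω α t) (α t) = G.next (G.st ω β t) (β t)
    rw [ih (by omega), h t (by omega)]

lemma g_congr (ω : G.Ω) {α β : ℕ → G.Act} {n : ℕ} (h : ∀ t, t < n → α t = β t) :
    ∀ t, t < n → G.g ω α t = G.g ω β t := by
  intro t ht
  unfold g
  rw [st_congr ω h t ht.le, h t ht]

lemma cat_lt (n : ℕ) (α β : ℕ → G.Act) {t : ℕ} (h : t < n) : cat n α β t = α t := if_pos h

lemma cat_add (n : ℕ) (α β : ℕ → G.Act) (t : ℕ) : cat n α β (n + t) = β t := by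
  unfold cat
  rw [if_neg (by omega), Nat.add_sub_cancel_left]

lemma st_cat (ω : G.Ω) (n : ℕ) (α β : ℕ → G.Act) (t : ℕ) :
    G.st ω (cat n α β) (n + t) = G.st (G.st ω α n) β t := by
  rw [st_add, st_congr ω (fun t ht => cat_lt n α β ht) n le_rfl]
  simp_rw [cat_add]

lemma g_cat (ω : G.Ω) (n : ℕ) (α β : ℕ → G.Act) (t : ℕ) :
    G.g ω (cat n α β) (n + t) = G.g (G.st ω α n) β t := by
  unfold g
  rw [st_cat, cat_add]

/-- Total payoff. -/
noncomputable def tot (G : DGame) (ω : G.Ω) (α : ℕ → G.Act) (n : ℕ) : ℝ :=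
  ∑ t ∈ Finset.range n, G.g ω α t

/-- Truncated discounted payoff. -/
noncomputable def dis (G : DGame) (l : ℝ) (ω : G.Ω) (α : ℕ → G.Act) (n : ℕ) : ℝ :=
  ∑ t ∈ Finset.range n, l * (1 - l) ^ t * G.g ω α t

lemma tot_congr (ω : G.Ω) {α β : ℕ → G.Act} {n : ℕ} (h : ∀ t, t < n → α t = β t) :
    ∀ T, T ≤ n → G.tot ω α T = G.tot ω β T := by
  intro T hT
  apply Finset.sum_congr rfl
  intro t ht
  exact g_congr ω h t (by have := Finset.mem_range.1 ht; omega)

lemma tot_add (ω : G.Ω) (α : ℕ → G.Act) (n t : ℕ) :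
    G.tot ω α (n + t) = G.tot ω α n + G.tot (G.st ω α n) (fun i => α (n + i)) t := by
  unfold tot
  rw [Finset.sum_range_add]
  simp_rw [g_add]

lemma tot_cat (ω : G.Ω) (n : ℕ) (α β : ℕ → G.Act) (t : ℕ) :
    G.tot ω (cat n α β) (n + t) = G.tot ω α n + G.tot (G.st ω α n) β t := by
  rw [tot_add, tot_congr ω (fun t ht => cat_lt n α β ht) n le_rfl,
    st_congr ω (fun t ht => cat_lt n α β ht) n le_rfl]
  simp_rw [cat_add]

lemma dis_cat (l : ℝ) (ω : G.Ω) (n : ℕ) (α β : ℕ → G.Act) :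
    G.dis l ω (cat n α β) n = G.dis l ω α n := by
  apply Finset.sum_congr rfl
  intro t ht
  rw [g_congr ω (fun t ht => cat_lt n α β ht) t (Finset.mem_range.1 ht)]

variable (hb : G.Bdd)

include hb

lemma g_nonneg (ω : G.Ω) (α : ℕ → G.Act) (t : ℕ) : 0 ≤ G.g ω α t := (hb _ _).1

lemma g_le_one (ω : G.Ω) (α : ℕ → G.Act) (t : ℕ) : G.g ω α t ≤ 1 := (hb _ _).2

lemma tot_nonneg (ω : G.Ω) (α : ℕ → G.Act) (n : ℕ) : 0 ≤ G.tot ω α n :=
  Finset.sum_nonneg fun t _ => g_nonneg hb ω α t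

lemma tot_le (ω : G.Ω) (α : ℕ → G.Act) (n : ℕ) : G.tot ω α n ≤ n := by
  calc G.tot ω α n ≤ ∑ t ∈ Finset.range n, (1 : ℝ) :=
        Finset.sum_le_sum fun t _ => g_le_one hb ω α t
    _ = n := by simp

variable {l : ℝ} (h0 : 0 < l) (h1 : l ≤ 1)

include h0 h1

lemma term_nonneg (ω : G.Ω) (α : ℕ → G.Act) (t : ℕ) : 0 ≤ l * (1 - l) ^ t * G.g ω α t := by
  have : 0 ≤ (1 - l) ^ t := pow_nonneg (by linarith) _
  have := g_nonneg hb ω α t
  positivity

lemma summ (ω : G.Ω) (α : ℕ → G.Act) : Summable fun t : ℕ => l * (1 - l) ^ t * G.g ω α t := by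
  refine Summable.of_nonneg_of_le (term_nonneg hb h0 h1 ω α) (f := fun t => l * (1 - l) ^ t) ?_ ?_
  · intro t
    have h2 : 0 ≤ l * (1 - l) ^ t := mul_nonneg h0.le (pow_nonneg (by linarith) _)
    calc l * (1 - l) ^ t * G.g ω α t ≤ l * (1 - l) ^ t * 1 :=
          mul_le_mul_of_nonneg_left (g_le_one hb ω α t) h2
      _ = _ := mul_one _
  · exact (summable_geometric_of_lt_one (by linarith) (by linarith)).mul_left l

lemma disc_nonneg (ω : G.Ω) (α : ℕ → G.Act) : 0 ≤ G.disc l ω α :=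
  tsum_nonneg (term_nonneg hb h0 h1 ω α)

lemma disc_le_one (ω : G.Ω) (α : ℕ → G.Act) : G.disc l ω α ≤ 1 := by
  have h2 : ∑' t : ℕ, l * (1 - l) ^ t = 1 := by
    rw [tsum_mul_left, tsum_geometric_of_lt_one (by linarith) (by linarith)]
    have : 1 - (1 - l) = l := by ring
    rw [this, mul_inv_cancel₀ h0.ne']
  rw [← h2]
  refine (summ hb h0 h1 ω α).tsum_le_tsum ?_
    ((summable_geometric_of_lt_one (by linarith) (by linarith)).mul_left l)
  intro t
  have h2 : 0 ≤ l * (1 - l) ^ t := mul_nonneg h0.le (pow_nonneg (by linarith) _)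
  calc l * (1 - l) ^ t * G.g ω α t ≤ l * (1 - l) ^ t * 1 :=
        mul_le_mul_of_nonneg_left (g_le_one hb ω α t) h2
    _ = _ := mul_one _

lemma disc_split (ω : G.Ω) (α : ℕ → G.Act) (n : ℕ) :
    G.disc l ω α = G.dis l ω α n + (1 - l) ^ n * G.disc l (G.st ω α n) (fun i => α (n + i)) := by
  unfold disc dis
  rw [← (summ hb h0 h1 ω α).sum_add_tsum_nat_add n, ← tsum_mul_left]
  congr 1
  apply tsum_congr
  intro t
  rw [add_comm t n, g_add, pow_add]
  ring

lemma disc_cat (ω : G.Ω) (n : ℕ) (α β : ℕ → G.Act) :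
    G.disc l ω (cat n α β) = G.dis l ω α n + (1 - l) ^ n * G.disc l (G.st ω α n) β := by
  rw [disc_split hb h0 h1 ω (cat n α β) n, dis_cat,
    st_congr ω (fun t ht => cat_lt n α β ht) n le_rfl]
  simp_rw [cat_add]

lemma bdd_disc (ω : G.Ω) : BddAbove (Set.range fun α : ℕ → G.Act => G.disc l ω α) :=
  ⟨1, by rintro _ ⟨α, rfl⟩; exact disc_le_one hb h0 h1 ω α⟩

lemma disc_le_vdisc (ω : G.Ω) (α : ℕ → G.Act) : G.disc l ω α ≤ G.vdisc l ω :=
  le_ciSup (bdd_disc hb h0 h1 ω) α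

variable [Nonempty G.Act]

lemma vdisc_le_one (ω : G.Ω) : G.vdisc l ω ≤ 1 := ciSup_le fun α => disc_le_one hb h0 h1 ω α

lemma vdisc_nonneg (ω : G.Ω) : 0 ≤ G.vdisc l ω := by
  obtain ⟨a⟩ := (inferInstance : Nonempty G.Act)
  exact (disc_nonneg hb h0 h1 ω (fun _ => a)).trans (disc_le_vdisc hb h0 h1 ω _)

lemma exists_near (ω : G.Ω) {τ : ℝ} (hτ : 0 < τ) : ∃ α, G.vdisc l ω - τ ≤ G.disc l ω α := by
  obtain ⟨α, hα⟩ := exists_lt_of_lt_ciSup (f := fun α : ℕ → G.Act => G.disc l ω α)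
    (show G.vdisc l ω - τ < ⨆ α, G.disc l ω α by unfold vdisc; linarith)
  exact ⟨α, hα.le⟩

/-- The dynamic programming inequality. -/
lemma dp (ω : G.Ω) (α : ℕ → G.Act) (n : ℕ) (h1' : l < 1) :
    G.dis l ω α n + (1 - l) ^ n * G.vdisc l (G.st ω α n) ≤ G.vdisc l ω := by
  have hpos : 0 < (1 - l) ^ n := pow_pos (by linarith) _
  have h2 : G.vdisc l (G.st ω α n) ≤ (G.vdisc l ω - G.dis l ω α n) / (1 - l) ^ n := by
    apply ciSup_le
    intro β
    rw [le_div_iff₀ hpos]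
    have h3 := disc_le_vdisc hb h0 h1 ω (cat n α β)
    rw [disc_cat hb h0 h1] at h3
    linarith
  rw [le_div_iff₀ hpos] at h2
  linarith

omit [Nonempty G.Act] in
lemma dis_nonneg (ω : G.Ω) (α : ℕ → G.Act) (n : ℕ) : 0 ≤ G.dis l ω α n :=
  Finset.sum_nonneg fun t _ => term_nonneg hb h0 h1 ω α t

end DGame

/-- Summation by parts: partial sums bounded below, weights decreasing. -/
lemma abel_ge (a w : ℕ → ℝ) (κ : ℝ) (hw0 : ∀ n, 0 ≤ w n) (hw : ∀ n, w (n + 1) ≤ w n) :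
    ∀ n, (∀ u, u ≤ n → -κ ≤ ∑ x ∈ Finset.range u, a x) →
      -κ * w 0 ≤ ∑ x ∈ Finset.range n, w x * a x := by
  have main : ∀ n, (∀ u, u ≤ n + 1 → -κ ≤ ∑ x ∈ Finset.range u, a x) →
      w n * (∑ x ∈ Finset.range (n + 1), a x) - κ * (w 0 - w n) ≤
        ∑ x ∈ Finset.range (n + 1), w x * a x := by
    intro n
    induction n with
    | zero => intro _; simp
    | succ n ih =>
      intro h
      have h1 := ih (fun u hu => h u (by omega))
      have h2 := h (n + 1) (by omega)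
      rw [Finset.sum_range_succ (fun x => w x * a x) (n + 1),
        Finset.sum_range_succ a (n + 1)]
      have h3 := mul_le_mul_of_nonneg_left h2 (show 0 ≤ w n - w (n + 1) by linarith [hw n])
      linarith
  intro n h
  have hκ : 0 ≤ κ := by
    have := h 0 (Nat.zero_le _)
    simp at this
    exact this
  rcases n with _ | n
  · simp only [Finset.range_zero, Finset.sum_empty]
    have := mul_nonneg hκ (hw0 0)
    linarith
  · have h1 := main n h
    have h2 := h (n + 1) le_rfl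
    have h3 := mul_le_mul_of_nonneg_left h2 (hw0 n)
    linarith

/-- Summation by parts: partial sums bounded above, weights decreasing. -/
lemma abel_le (a w : ℕ → ℝ) (κ : ℝ) (hw0 : ∀ n, 0 ≤ w n) (hw : ∀ n, w (n + 1) ≤ w n) (n : ℕ)
    (h : ∀ u, u ≤ n → ∑ x ∈ Finset.range u, a x ≤ κ) :
    ∑ x ∈ Finset.range n, w x * a x ≤ κ * w 0 := by
  have h1 := abel_ge (fun x => -a x) w κ hw0 hw n (fun u hu => by
    rw [Finset.sum_neg_distrib]
    have := h u hu
    linarith)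
  simp only [mul_neg, Finset.sum_neg_distrib] at h1
  linarith

/-- Summation by parts: partial sums in `[-κ, κ']`, weights increasing. -/
lemma abel_inc (a w : ℕ → ℝ) (κ κ' : ℝ) (hw0 : ∀ n, 0 ≤ w n) (hw : ∀ n, w n ≤ w (n + 1)) :
    ∀ n, (∀ u, u ≤ n + 1 → -κ ≤ ∑ x ∈ Finset.range u, a x) →
      (∀ u, u ≤ n + 1 → ∑ x ∈ Finset.range u, a x ≤ κ') →
      -(κ + κ') * w n ≤ ∑ x ∈ Finset.range (n + 1), w x * a x := by
  have main : ∀ n, (∀ u, u ≤ n + 1 → ∑ x ∈ Finset.range u, a x ≤ κ') →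
      w n * (∑ x ∈ Finset.range (n + 1), a x) - κ' * (w n - w 0) ≤
        ∑ x ∈ Finset.range (n + 1), w x * a x := by
    intro n
    induction n with
    | zero => intro _; simp
    | succ n ih =>
      intro h
      have h1 := ih (fun u hu => h u (by omega))
      have h2 := h (n + 1) (by omega)
      rw [Finset.sum_range_succ (fun x => w x * a x) (n + 1),
        Finset.sum_range_succ a (n + 1)]
      have h3 := mul_le_mul_of_nonneg_left h2 (show 0 ≤ w (n + 1) - w n by linarith [hw n])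
      linarith
  intro n h h'
  have hκ' : 0 ≤ κ' := by
    have := h' 0 (Nat.zero_le _)
    simpa using this
  have h1 := main n h'
  have h2 := mul_le_mul_of_nonneg_left (h (n + 1) le_rfl) (hw0 n)
  have h3 := mul_nonneg hκ' (hw0 0)
  linarith

end Pool.Agent.MP_ebfc19_pr
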