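import Pool.Agent.Lib.MP_ebfc19_pr.DBasic

/-!
# MP_ebfc19_pr: the block lemma

If the discounted values converge uniformly at the rate `f`, then for all large `n` there is, from
every state `ω`, a play for `n` stages whose partial sums are at least `t v(ω) - 96 f(k) n` for all
`t ≤ n` and such that `v` drops by at most `89 f(k)`; here `2^k ≤ n f(k)^3`.
-/

set_option linter.unusedSectionVars false

open Filter Topology

namespace Pool.Agent.MP_ebfc19_pr

namespace DGame

/-- The discounted values converge uniformly to `v` at the rate `f`. -/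
structure Rate (G : DGame) (v : G.Ω → ℝ) (f : ℕ → ℝ) : Prop where
  anti : Antitone f
  pos : ∀ k, 0 < f k
  lim : Tendsto f atTop (𝓝 0)
  bd : ∀ (k : ℕ) (l : ℝ), 0 < l → l ≤ (1 / 2) ^ k → ∀ ω, |G.vdisc l ω - v ω| ≤ f k

variable {G : DGame} {v : G.Ω → ℝ} {f : ℕ → ℝ} [Nonempty G.Act] (hb : G.Bdd) (hR : G.Rate v f)

lemma half_pow_le (k : ℕ) : ((1 : ℝ) / 2) ^ k ≤ 1 := pow_le_one₀ (by norm_num) (by norm_num)

lemma half_pow_pos (k : ℕ) : 0 < ((1 : ℝ) / 2) ^ k := pow_pos (by norm_num) _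

lemma tendsto_half_pow : Tendsto (fun k : ℕ => ((1 : ℝ) / 2) ^ k) atTop (𝓝 0) :=
  tendsto_pow_atTop_nhds_zero_of_lt_one (by norm_num) (by norm_num)

include hb hR

lemma v_nonneg (ω : G.Ω) : 0 ≤ v ω := by
  have h : ∀ k, 0 ≤ v ω + f k := by
    intro k
    have h1 := hR.bd k _ (half_pow_pos k) le_rfl ω
    have h2 := vdisc_nonneg hb (half_pow_pos k) (half_pow_le k) ω
    have := (abs_le.1 h1).2
    linarith
  have hlim : Tendsto (fun k => v ω + f k) atTop (𝓝 (v ω + 0)) := tendsto_const_nhds.add hR.lim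
  rw [add_zero] at hlim
  exact ge_of_tendsto' hlim h

lemma v_le_one (ω : G.Ω) : v ω ≤ 1 := by
  have h : ∀ k, v ω - f k ≤ 1 := by
    intro k
    have h1 := hR.bd k _ (half_pow_pos k) le_rfl ω
    have h2 := vdisc_le_one hb (half_pow_pos k) (half_pow_le k) ω
    have := (abs_le.1 h1).1
    linarith
  have hlim : Tendsto (fun k => v ω - f k) atTop (𝓝 (v ω - 0)) := tendsto_const_nhds.sub hR.lim
  rw [sub_zero] at hlim
  exact le_of_tendsto' hlim h

/-- `v` decreases along plays. -/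
lemma v_anti (ω : G.Ω) (α : ℕ → G.Act) (n : ℕ) : v (G.st ω α n) ≤ v ω := by
  have h : ∀ k, v (G.st ω α n) ≤ v ω + 2 * f (k + 1) + n * (1 / 2) ^ (k + 1) := by
    intro k
    have hl0 := half_pow_pos (k + 1)
    have hl1 : ((1 : ℝ) / 2) ^ (k + 1) < 1 := by
      have := half_pow_le k
      rw [pow_succ]
      linarith
    have h1 := (abs_le.1 (hR.bd (k + 1) _ hl0 le_rfl ω)).2
    have h2 := (abs_le.1 (hR.bd (k + 1) _ hl0 le_rfl (G.st ω α n))).1
    have h3 := dp hb hl0 hl1.le ω α n hl1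
    have h4 := dis_nonneg hb hl0 hl1.le ω α n
    have h5 := vdisc_le_one hb hl0 hl1.le (G.st ω α n)
    have h5' := vdisc_nonneg hb hl0 hl1.le (G.st ω α n)
    have h6 : 1 - n * ((1 : ℝ) / 2) ^ (k + 1) ≤ (1 - (1 / 2) ^ (k + 1)) ^ n := by
      have h := one_add_mul_le_pow (a := -((1 : ℝ) / 2) ^ (k + 1)) (by linarith) n
      have e : (1 + -((1 : ℝ) / 2) ^ (k + 1)) = 1 - (1 / 2) ^ (k + 1) := by ring
      rw [e] at h
      linarith
    set V := G.vdisc ((1 / 2) ^ (k + 1)) (G.st ω α n)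
    set x := ((1 : ℝ) / 2) ^ (k + 1)
    have h7 : (1 - n * x) * V ≤ (1 - x) ^ n * V := mul_le_mul_of_nonneg_right h6 h5'
    have h8 : n * x * V ≤ n * x * 1 :=
      mul_le_mul_of_nonneg_left h5 (mul_nonneg (Nat.cast_nonneg n) hl0.le)
    linarith
  have hlim : Tendsto (fun k : ℕ => v ω + 2 * f (k + 1) + n * ((1 : ℝ) / 2) ^ (k + 1)) atTop
      (𝓝 (v ω + 2 * 0 + n * 0)) := by
    refine Tendsto.add (tendsto_const_nhds.add ?_) ?_
    · exact (hR.lim.comp (tendsto_add_atTop_nat 1)).const_mul 2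
    · exact (tendsto_half_pow.comp (tendsto_add_atTop_nat 1)).const_mul _
  have e : v ω + 2 * 0 + (n : ℝ) * 0 = v ω := by ring
  rw [e] at hlim
  exact ge_of_tendsto' hlim h

/-- Upper bound for the total payoffs. -/
lemma tot_upper (k n : ℕ) (hf : f k ≤ 1 / 8) (hn : 2 ^ k ≤ n * f k ^ 2) (ω : G.Ω)
    (α : ℕ → G.Act) : G.tot ω α n ≤ n * (v ω + 8 * f k) := by
  by_contra hc
  push Not at hc
  have hfpos := hR.pos k
  have hv0 := v_nonneg hb hR ω
  have hv1 := v_le_one hb hR ω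
  set c := v ω + 4 * f k with hcdef
  obtain ⟨u0, hu0, hmin⟩ := Finset.exists_min_image (Finset.range (n + 1))
    (fun u => G.tot ω α u - u * c) ⟨0, by simp⟩
  have hu0n : u0 ≤ n := by
    have := Finset.mem_range.1 hu0
    omega
  obtain ⟨m, hm⟩ : ∃ m, n = u0 + m := ⟨n - u0, by omega⟩
  have hmin0 : G.tot ω α u0 - u0 * c ≤ 0 := by
    have := hmin 0 (by simp)
    simpa [tot] using this
  set s := G.st ω α u0 with hs
  set β : ℕ → G.Act := fun i => α (u0 + i) with hβ
  have htail : ∀ u, u ≤ m → 0 ≤ ∑ x ∈ Finset.range u, (G.g s β x - c) := by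
    intro u hu
    have h1 := hmin (u0 + u) (Finset.mem_range.2 (by omega))
    rw [tot_add] at h1
    have h2 : ∑ x ∈ Finset.range u, (G.g s β x - c) = G.tot s β u - u * c := by
      rw [Finset.sum_sub_distrib]
      simp [tot]
    rw [h2]
    push_cast at h1
    linarith
  -- length of the tail
  have hlen : (n : ℝ) * (4 * f k) ≤ m := by
    have h1 : G.tot ω α n = G.tot ω α u0 + G.tot s β m := by
      rw [hm, tot_add]
    have h2 := tot_le hb s β m
    have h3 : (n : ℝ) = u0 + m := by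
      rw [hm]; push_cast; ring
    have h4 : 0 ≤ c := by linarith
    have h5 : 0 ≤ (m : ℝ) * c := mul_nonneg (Nat.cast_nonneg m) h4
    have h6 : (n : ℝ) * (v ω + 8 * f k) = n * c + n * (4 * f k) := by rw [hcdef]; ring
    have h7 : (n : ℝ) * c = u0 * c + m * c := by rw [h3]; ring
    linarith
  set μ : ℝ := (1 / 2) ^ k with hμ
  have hμ0 : 0 < μ := half_pow_pos k
  have hμ1 : μ ≤ 1 := half_pow_le k
  -- the discounted payoff of the tail
  have hdis : c * (1 - (1 - μ) ^ m) ≤ G.dis μ s β m := by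
    have h1 := abel_ge (fun x => G.g s β x - c) (fun x => μ * (1 - μ) ^ x) 0
      (fun x => mul_nonneg hμ0.le (pow_nonneg (by linarith) _))
      (fun x => by
        have h2 : (1 - μ) ^ (x + 1) ≤ (1 - μ) ^ x :=
          pow_le_pow_of_le_one (by linarith) (by linarith) (Nat.le_succ x)
        exact mul_le_mul_of_nonneg_left h2 hμ0.le) m
      (fun u hu => by
        have := htail u hu
        linarith)
    have h2 : ∑ x ∈ Finset.range m, μ * (1 - μ) ^ x * (G.g s β x - c) =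
        G.dis μ s β m - c * (∑ x ∈ Finset.range m, μ * (1 - μ) ^ x) := by
      unfold dis
      rw [Finset.mul_sum, ← Finset.sum_sub_distrib]
      apply Finset.sum_congr rfl
      intro x _
      ring
    have h3 : ∑ x ∈ Finset.range m, μ * (1 - μ) ^ x = 1 - (1 - μ) ^ m := by
      rw [← Finset.mul_sum]
      have h4 := mul_geom_sum (1 - μ) m
      linarith
    rw [h2, h3] at h1
    linarith
  have hvd : G.dis μ s β m ≤ v ω + f k := by
    have h1 := disc_split hb hμ0 hμ1 s β m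
    have h2 := disc_nonneg hb hμ0 hμ1 (G.st s β m) (fun i => β (m + i))
    have h3 : 0 ≤ (1 - μ) ^ m := pow_nonneg (by linarith) _
    have h4 := mul_nonneg h3 h2
    have h5 := disc_le_vdisc hb hμ0 hμ1 s β
    have h6 := (abs_le.1 (hR.bd k μ hμ0 le_rfl s)).2
    have h7 := v_anti hb hR ω α u0
    linarith
  have hexp : (1 - μ) ^ m ≤ f k / 4 := by
    have h1 : 1 - μ ≤ Real.exp (-μ) := Real.one_sub_le_exp_neg μ
    have h2 : (1 - μ) ^ m ≤ Real.exp (-(μ * m)) := by
      calc (1 - μ) ^ m ≤ (Real.exp (-μ)) ^ m := pow_le_pow_left₀ (by linarith) h1 _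
        _ = Real.exp (-(μ * m)) := by
            rw [← Real.exp_nat_mul]
            congr 1
            ring
    have h3 : 4 / f k ≤ μ * m := by
      rw [div_le_iff₀ hfpos]
      have h4 : μ * (2 ^ k) = 1 := by
        rw [hμ, ← mul_pow]
        norm_num
      have h5 : μ * 2 ^ k ≤ μ * (n * f k ^ 2) := mul_le_mul_of_nonneg_left hn hμ0.le
      have h6 : μ * (n * (4 * f k)) ≤ μ * m := mul_le_mul_of_nonneg_left hlen hμ0.le
      have h7 : μ * (n * (4 * f k)) * f k ≤ μ * m * f k := mul_le_mul_of_nonneg_right h6 hfpos.le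
      have h8 : μ * (n * (4 * f k)) * f k = 4 * (μ * (n * f k ^ 2)) := by ring
      linarith
    have h4 : Real.exp (-(μ * m)) ≤ Real.exp (-(4 / f k)) := Real.exp_le_exp.2 (by linarith)
    have h5 : Real.exp (-(4 / f k)) ≤ f k / 4 := by
      have h6 : 4 / f k ≤ Real.exp (4 / f k) := by
        have := Real.add_one_le_exp (4 / f k)
        linarith
      rw [Real.exp_neg]
      have h7 : f k / 4 = (4 / f k)⁻¹ := by rw [inv_div]
      rw [h7]
      exact inv_anti₀ (by positivity) h6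
    linarith
  have h1 : c * (1 - μ) ^ m ≤ (3 / 2) * (f k / 4) := by
    apply mul_le_mul _ hexp (pow_nonneg (by linarith) _) (by norm_num)
    rw [hcdef]
    linarith
  have h2 : c * (1 - (1 - μ) ^ m) = c - c * (1 - μ) ^ m := by ring
  rw [h2] at hdis
  linarith

lemma tot_upper' (k n : ℕ) (hf : f k ≤ 1 / 8) (hn : 2 ^ k ≤ n * f k ^ 3) (ω : G.Ω)
    (α : ℕ → G.Act) (u : ℕ) (hu : u ≤ n) : G.tot ω α u ≤ u * v ω + 9 * f k * n := by
  have hfpos := hR.pos k
  have hv0 := v_nonneg hb hR ω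
  have hun : (u : ℝ) ≤ n := by exact_mod_cast hu
  by_cases h : 2 ^ k ≤ u * f k ^ 2
  · have h1 := tot_upper hb hR k u hf h ω α
    have h2 : 8 * f k * u ≤ 8 * f k * n := mul_le_mul_of_nonneg_left hun (by positivity)
    have h3 : 0 ≤ f k * n := mul_nonneg hfpos.le (Nat.cast_nonneg n)
    have h4 : (u : ℝ) * (v ω + 8 * f k) = u * v ω + 8 * f k * u := by ring
    linarith
  · push Not at h
    have h1 := tot_le hb ω α u
    have h2 : (u : ℝ) * f k ^ 2 ≤ (f k * n) * f k ^ 2 := by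
      have : (n : ℝ) * f k ^ 3 = (f k * n) * f k ^ 2 := by ring
      linarith
    have h3 : (u : ℝ) ≤ f k * n := le_of_mul_le_mul_right h2 (by positivity)
    have h4 : 0 ≤ (u : ℝ) * v ω := mul_nonneg (Nat.cast_nonneg u) hv0
    have h5 : 0 ≤ f k * n := mul_nonneg hfpos.le (Nat.cast_nonneg n)
    linarith

omit hb hR in
lemma pow_ge_eighth {n : ℕ} (hn : 2 ≤ n) : (1 : ℝ) / 8 ≤ (1 - 1 / n) ^ n := by
  have hn' : (2 : ℝ) ≤ n := by exact_mod_cast hn
  have hn0 : (0 : ℝ) < n := by linarith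
  have hn1 : (0 : ℝ) < n - 1 := by linarith
  have h1 : Real.exp (-(1 / (n - 1))) ≤ 1 - 1 / n := by
    have h2 := Real.add_one_le_exp (1 / ((n : ℝ) - 1))
    have h3 : 1 - 1 / (n : ℝ) = (1 / ((n : ℝ) - 1) + 1)⁻¹ := by
      field_simp
      ring
    rw [h3, Real.exp_neg]
    exact inv_anti₀ (by positivity) h2
  have h2 : (Real.exp (-(1 / ((n : ℝ) - 1)))) ^ n ≤ (1 - 1 / n) ^ n :=
    pow_le_pow_left₀ (Real.exp_pos _).le h1 n
  have h3 : Real.exp (-2) ≤ (Real.exp (-(1 / ((n : ℝ) - 1)))) ^ n := by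
    rw [← Real.exp_nat_mul]
    apply Real.exp_le_exp.2
    have h4 : (n : ℝ) * (1 / (n - 1)) ≤ 2 := by
      rw [mul_one_div, div_le_iff₀ hn1]
      linarith
    linarith
  have h4 : (1 : ℝ) / 8 ≤ Real.exp (-2) := by
    have h5 : Real.exp 1 < 2.7182818286 := Real.exp_one_lt_d9
    have h6 : Real.exp 2 = Real.exp 1 * Real.exp 1 := by rw [← Real.exp_add]; norm_num
    have h7 : Real.exp 2 ≤ 8 := by
      rw [h6]
      have := Real.exp_pos 1
      nlinarith
    rw [Real.exp_neg, one_div]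
    exact inv_anti₀ (Real.exp_pos 2) h7
  linarith

/-- The block lemma. -/
lemma block (k n : ℕ) (hf : f k ≤ 1 / 8) (hn : 2 ^ k ≤ n * f k ^ 3) (ω : G.Ω) :
    ∃ α : ℕ → G.Act, (∀ t, t ≤ n → t * v ω - 96 * f k * n ≤ G.tot ω α t) ∧
      v ω - 89 * f k ≤ v (G.st ω α n) := by
  have hfpos := hR.pos k
  have hv0 := v_nonneg hb hR ω
  have hv1 := v_le_one hb hR ω
  have hf3 : f k ^ 3 ≤ 1 / 512 := by
    calc f k ^ 3 ≤ (1 / 8) ^ 3 := pow_le_pow_left₀ hfpos.le hf 3
      _ = 1 / 512 := by norm_num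
  have h2k : (1 : ℝ) ≤ 2 ^ k := one_le_pow₀ (by norm_num)
  have hn512 : 2 ^ k * 512 ≤ (n : ℝ) := by
    have h1 : (n : ℝ) * f k ^ 3 ≤ n * (1 / 512) :=
      mul_le_mul_of_nonneg_left hf3 (Nat.cast_nonneg n)
    linarith
  have hn2 : 2 ≤ n := by
    have : (2 : ℝ) ≤ n := by linarith
    exact_mod_cast this
  have hn0 : (0 : ℝ) < n := by linarith
  set l : ℝ := 1 / n with hl
  have hl0 : 0 < l := by positivity
  have hlk : l ≤ (1 / 2) ^ k := by
    rw [hl, one_div_pow]
    apply one_div_le_one_div_of_le (by positivity)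
    linarith
  have hl1 : l < 1 := by
    rw [hl, div_lt_one hn0]
    linarith
  set ρ : ℝ := 1 - l with hρ
  have hρ0 : 0 < ρ := by rw [hρ]; linarith
  have hρ1 : ρ ≤ 1 := by rw [hρ]; linarith
  have hρn : 1 / 8 ≤ ρ ^ n := pow_ge_eighth hn2
  obtain ⟨α, hα⟩ := exists_near hb hl0 hl1.le ω hfpos
  have hval : v ω - 2 * f k ≤ G.disc l ω α := by
    have := (abs_le.1 (hR.bd k l hl0 hlk ω)).1
    linarith
  have hlow : ∀ t, (1 - ρ ^ t) * v ω - 3 * f k ≤ G.dis l ω α t := by
    intro t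
    have h1 := disc_split hb hl0 hl1.le ω α t
    have h2 := disc_le_vdisc hb hl0 hl1.le (G.st ω α t) (fun i => α (t + i))
    have h3 := (abs_le.1 (hR.bd k l hl0 hlk (G.st ω α t))).2
    have h4 := v_anti hb hR ω α t
    have h5 : 0 ≤ ρ ^ t := pow_nonneg hρ0.le t
    have h6 : ρ ^ t ≤ 1 := pow_le_one₀ hρ0.le hρ1
    have h7 : ρ ^ t * G.disc l (G.st ω α t) (fun i => α (t + i)) ≤ ρ ^ t * (v ω + f k) :=
      mul_le_mul_of_nonneg_left (by linarith) h5
    have h8 : ρ ^ t * f k ≤ 1 * f k := mul_le_mul_of_nonneg_right h6 hfpos.le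
    linarith
  have hgeo : ∀ t, ∑ x ∈ Finset.range t, l * ρ ^ x = 1 - ρ ^ t := by
    intro t
    rw [← Finset.mul_sum]
    have h4 := mul_geom_sum ρ t
    have h5 : l = 1 - ρ := by rw [hρ]; ring
    rw [h5]
    linarith
  have hsum : ∀ t, ∑ x ∈ Finset.range t, l * ρ ^ x * (G.g ω α x - v ω) =
      G.dis l ω α t - (1 - ρ ^ t) * v ω := by
    intro t
    rw [← hgeo t, Finset.sum_mul]
    unfold dis
    rw [← Finset.sum_sub_distrib]
    apply Finset.sum_congr rfl
    intro x _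
    ring
  have hup : ∀ t, t ≤ n → ∑ x ∈ Finset.range t, l * ρ ^ x * (G.g ω α x - v ω) ≤ 9 * f k := by
    intro t ht
    have h1 := abel_le (fun x => G.g ω α x - v ω) (fun x => l * ρ ^ x) (9 * f k * n)
      (fun x => mul_nonneg hl0.le (pow_nonneg hρ0.le _))
      (fun x => mul_le_mul_of_nonneg_left
        (pow_le_pow_of_le_one hρ0.le hρ1 (Nat.le_succ x)) hl0.le) t
      (fun u hu => by
        have h2 := tot_upper' hb hR k n hf hn ω α u (hu.trans ht)
        have h3 : ∑ x ∈ Finset.range u, (G.g ω α x - v ω) = G.tot ω α u - u * v ω := by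
          rw [Finset.sum_sub_distrib]
          simp [tot]
        rw [h3]
        linarith)
    have h2 : 9 * f k * n * (l * ρ ^ 0) = 9 * f k := by
      rw [hl]
      field_simp
    rw [h2] at h1
    exact h1
  refine ⟨α, ?_, ?_⟩
  · intro t ht
    rcases t with _ | t
    · simp only [tot, Finset.range_zero, Finset.sum_empty, Nat.cast_zero, zero_mul, zero_sub]
      have : 0 ≤ f k * n := mul_nonneg hfpos.le hn0.le
      linarith
    · have h1 := abel_inc (fun x => l * ρ ^ x * (G.g ω α x - v ω)) (fun x => (ρ ^ x)⁻¹ * n)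
        (3 * f k) (9 * f k) (fun x => by positivity)
        (fun x => by
          apply mul_le_mul_of_nonneg_right _ hn0.le
          exact inv_anti₀ (by positivity) (pow_le_pow_of_le_one hρ0.le hρ1 (Nat.le_succ x))) t
        (fun u _ => by
          rw [hsum u]
          have := hlow u
          linarith)
        (fun u hu => hup u (hu.trans ht))
      have h2 : ∑ x ∈ Finset.range (t + 1), (ρ ^ x)⁻¹ * n * (l * ρ ^ x * (G.g ω α x - v ω)) =
          G.tot ω α (t + 1) - (t + 1 : ℕ) * v ω := by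
        have h3 : ∀ x, (ρ ^ x)⁻¹ * n * (l * ρ ^ x * (G.g ω α x - v ω)) = G.g ω α x - v ω := by
          intro x
          have h4 : (n : ℝ) * l = 1 := by rw [hl]; field_simp
          have h5 : (ρ ^ x)⁻¹ * ρ ^ x = 1 := inv_mul_cancel₀ (by positivity)
          calc (ρ ^ x)⁻¹ * n * (l * ρ ^ x * (G.g ω α x - v ω))
              = ((ρ ^ x)⁻¹ * ρ ^ x) * (n * l) * (G.g ω α x - v ω) := by ring
            _ = _ := by rw [h4, h5]; ring
        simp_rw [h3]
        rw [Finset.sum_sub_distrib]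
        simp [tot]
      rw [h2] at h1
      have h6 : (ρ ^ t)⁻¹ ≤ 8 := by
        have h7 : ρ ^ n ≤ ρ ^ t := pow_le_pow_of_le_one hρ0.le hρ1 (by omega)
        have h8 : (1 : ℝ) / 8 ≤ ρ ^ t := hρn.trans h7
        calc (ρ ^ t)⁻¹ ≤ (1 / 8)⁻¹ := inv_anti₀ (by norm_num) h8
          _ = 8 := by norm_num
      have h9 : (3 * f k + 9 * f k) * ((ρ ^ t)⁻¹ * n) ≤ (3 * f k + 9 * f k) * (8 * n) := by
        apply mul_le_mul_of_nonneg_left _ (by positivity)
        exact mul_le_mul_of_nonneg_right h6 hn0.le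
      linarith
  · have h1 := disc_split hb hl0 hl1.le ω α n
    have h2 := disc_le_vdisc hb hl0 hl1.le (G.st ω α n) (fun i => α (n + i))
    have h3 := (abs_le.1 (hR.bd k l hl0 hlk (G.st ω α n))).2
    have h4 := hup n le_rfl
    rw [hsum n] at h4
    have h5 : 0 < ρ ^ n := pow_pos hρ0 n
    set V := G.vdisc l (G.st ω α n) with hV
    have h6 : ρ ^ n * G.disc l (G.st ω α n) (fun i => α (n + i)) ≤ ρ ^ n * V :=
      mul_le_mul_of_nonneg_left h2 h5.le
    have h7 : ρ ^ n * v ω - 11 * f k ≤ ρ ^ n * V := by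
      have e : 1 - l = ρ := rfl
      rw [e] at h1
      linarith
    have h8 : v ω - 88 * f k ≤ V := by
      by_contra hc
      push Not at hc
      have h9 : ρ ^ n * V < ρ ^ n * (v ω - 88 * f k) := mul_lt_mul_of_pos_left hc h5
      have h10 : (1 / 8) * (88 * f k) ≤ ρ ^ n * (88 * f k) :=
        mul_le_mul_of_nonneg_right hρn (by positivity)
      linarith
    linarith

end DGame

end Pool.Agent.MP_ebfc19_pr
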