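import Pool.Agent.Lib.MP_ebfc19_pr.DBlock

/-!
# MP_ebfc19_pr: concatenation of blocks
-/

open Filter Topology

namespace Pool.Agent.MP_ebfc19_pr

namespace DGame

variable {G : DGame} {v : G.Ω → ℝ} [Nonempty G.Act]

/-- Concatenation of blocks. -/
lemma concat (m : ℕ → ℕ) (e : ℕ → ℝ) (hm : ∀ j, 1 ≤ m j) (he : ∀ j, 0 ≤ e j)
    (hblock : ∀ j (s : G.Ω), ∃ α : ℕ → G.Act,
      (∀ t, t ≤ m j → t * v s - e j * m j ≤ G.tot s α t) ∧ v s - e j ≤ v (G.st s α (m j)))
    {δ : ℝ} (hδ : 0 ≤ δ) (hE : ∀ J, ∑ j ∈ Finset.range J, e j ≤ δ)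
    (hratio : ∀ j, e (j + 1) * m (j + 1) ≤ δ * m j) (ω : G.Ω) :
    ∃ α : ℕ → G.Act, ∀ T : ℕ, T * (v ω - 2 * δ) - e 0 * m 0 ≤ G.tot ω α T := by
  classical
  choose B hB1 hB2 using hblock
  obtain ⟨a0⟩ := (inferInstance : Nonempty G.Act)
  set N : ℕ → ℕ := fun j => ∑ k ∈ Finset.range j, m k with hN
  have hNsucc : ∀ j, N (j + 1) = N j + m j := fun j => Finset.sum_range_succ _ _
  have hNge : ∀ j, j ≤ N j := by
    intro j
    induction j with
    | zero => exact Nat.zero_le _
    | succ j ih =>
      rw [hNsucc]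
      have := hm j
      omega
  have hNmono : Monotone N := monotone_nat_of_le_succ fun j => by rw [hNsucc]; omega
  let P : ℕ → (ℕ → G.Act) := fun j => Nat.rec (fun _ => a0)
    (fun j Pj => cat (N j) Pj (B j (G.st ω Pj (N j)))) j
  have hP : ∀ j, P (j + 1) = cat (N j) (P j) (B j (G.st ω (P j) (N j))) := fun j => rfl
  set E : ℕ → ℝ := fun j => ∑ k ∈ Finset.range j, e k with hEdef
  have hEsucc : ∀ j, E (j + 1) = E j + e j := fun j => Finset.sum_range_succ _ _
  set F : ℕ → ℝ := fun j => ∑ k ∈ Finset.range j, e k * m k with hFdef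
  have hFsucc : ∀ j, F (j + 1) = F j + e j * m j := fun j => Finset.sum_range_succ _ _
  have hF : ∀ j, F (j + 1) ≤ e 0 * m 0 + δ * N j := by
    intro j
    induction j with
    | zero => simp [hFdef, hN]
    | succ j ih =>
      rw [hFsucc (j + 1), hNsucc]
      have := hratio j
      push_cast
      linarith
  have hC : ∀ j, (v ω - E j ≤ v (G.st ω (P j) (N j))) ∧
      ((N j : ℝ) * (v ω - E j) - F j ≤ G.tot ω (P j) (N j)) ∧
      (∀ T : ℕ, T ≤ N j → (T : ℝ) * (v ω - E j) - (e 0 * m 0 + δ * T) ≤ G.tot ω (P j) T) := by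
    intro j
    induction j with
    | zero =>
      refine ⟨?_, ?_, ?_⟩
      · simp [hEdef, hN, st]
      · simp [hFdef, hN, tot]
      · intro T hT
        have hT0 : T = 0 := by simpa [hN] using hT
        subst hT0
        simp only [Nat.cast_zero, zero_mul, mul_zero, add_zero, zero_sub, tot,
          Finset.range_zero, Finset.sum_empty]
        have := mul_nonneg (he 0) (Nat.cast_nonneg (α := ℝ) (m 0))
        linarith
    | succ j ih =>
      obtain ⟨ih1, ih2, ih3⟩ := ih
      set s := G.st ω (P j) (N j) with hs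
      have hadd : ∀ t : ℕ, t ≤ m j →
          ((N j + t : ℕ) : ℝ) * (v ω - E j) - F (j + 1) ≤ G.tot ω (P (j + 1)) (N j + t) := by
        intro t ht
        rw [hP, tot_cat, hFsucc]
        have h1 := hB1 j s t ht
        have h2 : (t : ℝ) * (v ω - E j) ≤ t * v s :=
          mul_le_mul_of_nonneg_left ih1 (Nat.cast_nonneg t)
        push_cast
        linarith
      have hEle : E j ≤ E (j + 1) := by
        rw [hEsucc]
        linarith [he j]
      refine ⟨?_, ?_, ?_⟩
      · rw [hNsucc, hP, st_cat, hEsucc]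
        have h1 := hB2 j s
        linarith
      · rw [hNsucc]
        have h1 := hadd (m j) le_rfl
        have h2 : ((N j + m j : ℕ) : ℝ) * (v ω - E (j + 1)) ≤
            ((N j + m j : ℕ) : ℝ) * (v ω - E j) :=
          mul_le_mul_of_nonneg_left (by linarith) (Nat.cast_nonneg _)
        linarith
      · intro T hT
        have h2 : (T : ℝ) * (v ω - E (j + 1)) ≤ (T : ℝ) * (v ω - E j) :=
          mul_le_mul_of_nonneg_left (by linarith) (Nat.cast_nonneg _)
        rcases Nat.lt_or_ge T (N j) with h | h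
        · have h3 := ih3 T h.le
          have h4 : G.tot ω (P (j + 1)) T = G.tot ω (P j) T := by
            rw [hP]
            exact tot_congr ω (fun t ht => cat_lt _ _ _ ht) T h.le
          rw [h4]
          linarith
        · obtain ⟨t, rfl⟩ : ∃ t, T = N j + t := ⟨T - N j, by omega⟩
          have h3 := hadd t (by rw [hNsucc] at hT; omega)
          have h4 := hF j
          have h5 : δ * (N j : ℝ) ≤ δ * ((N j + t : ℕ) : ℝ) := by
            apply mul_le_mul_of_nonneg_left _ hδ
            push_cast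
            have : (0 : ℝ) ≤ t := Nat.cast_nonneg t
            linarith
          linarith
  have hagree : ∀ i j, j ≤ i → ∀ t, t < N j → P i t = P j t := by
    intro i j hij
    induction i, hij using Nat.le_induction with
    | base => exact fun t _ => rfl
    | succ i hi ih =>
      intro t ht
      rw [hP, cat_lt _ _ _ (lt_of_lt_of_le ht (hNmono hi))]
      exact ih t ht
  refine ⟨fun t => P (t + 1) t, fun T => ?_⟩
  have h1 : G.tot ω (fun t => P (t + 1) t) T = G.tot ω (P T) T := by
    apply tot_congr ω (n := T) _ T le_rfl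
    intro t ht
    exact (hagree T (t + 1) (by omega) t (lt_of_lt_of_le (Nat.lt_succ_self t) (hNge (t + 1)))).symm
  rw [h1]
  have h2 := (hC T).2.2 T (hNge T)
  have h3 : (T : ℝ) * (v ω - δ) ≤ T * (v ω - E T) :=
    mul_le_mul_of_nonneg_left (by linarith [hE T]) (Nat.cast_nonneg T)
  linarith

end DGame

end Pool.Agent.MP_ebfc19_pr
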