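import Mathlib

/-!
# MP_ebfc19_pr: the summability criterion

From an antitone sequence `h` with `∑ h / log (1/h) < ∞` we construct a regularization `H ≥ h`
with `H (k+1) ≥ H k / 2`, and indices `κ i` with `∑ H (κ i) < ∞` and controlled gaps.
-/

set_option linter.unusedSectionVars false

open Filter Topology

namespace Pool.Agent.MP_ebfc19_pr

/-- `x / log (1/x)`. -/
noncomputable def aa (x : ℝ) : ℝ := x / (-Real.log x)

lemma aa_mono {x y : ℝ} (hx : 0 < x) (hxy : x ≤ y) (hy : y < 1) : aa x ≤ aa y := by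
  have h1 : 0 < -Real.log y := by
    have := Real.log_neg (hx.trans_le hxy) hy
    linarith
  have h2 : -Real.log y ≤ -Real.log x := by
    have := Real.log_le_log hx hxy
    linarith
  unfold aa
  calc x / (-Real.log x) ≤ x / (-Real.log y) := div_le_div_of_nonneg_left hx.le h1 h2
    _ ≤ y / (-Real.log y) := div_le_div_of_nonneg_right hxy h1.le

lemma aa_pos {x : ℝ} (hx : 0 < x) (hx1 : x < 1) : 0 < aa x := by
  have := Real.log_neg hx hx1
  exact div_pos hx (by linarith)

lemma aa_half {x : ℝ} (hx : 0 < x) (hx1 : x < 1) : aa (x / 2) ≤ aa x / 2 := by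
  have h1 : 0 < -Real.log x := by
    have := Real.log_neg hx hx1
    linarith
  have h2 : -Real.log x ≤ -Real.log (x / 2) := by
    have := Real.log_le_log (show 0 < x / 2 by linarith) (show x / 2 ≤ x by linarith)
    linarith
  unfold aa
  calc x / 2 / (-Real.log (x / 2)) ≤ x / 2 / (-Real.log x) :=
        div_le_div_of_nonneg_left (by linarith) h1 h2
    _ = x / (-Real.log x) / 2 := by ring

/-- The regularization. -/
noncomputable def reg (h : ℕ → ℝ) : ℕ → ℝ
  | 0 => h 0
  | k + 1 => max (h (k + 1)) (reg h k / 2)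

section

variable {h : ℕ → ℝ} (hanti : Antitone h) (hpos : ∀ k, 0 < h k)

lemma le_reg (h : ℕ → ℝ) (k : ℕ) : h k ≤ reg h k := by
  cases k with
  | zero => exact le_rfl
  | succ k => exact le_max_left _ _

lemma reg_half (h : ℕ → ℝ) (k : ℕ) : reg h k / 2 ≤ reg h (k + 1) := le_max_right _ _

include hpos in
lemma reg_pos (k : ℕ) : 0 < reg h k := (hpos k).trans_le (le_reg h k)

include hanti hpos in
lemma reg_anti : Antitone (reg h) := by
  apply antitone_nat_of_succ_le
  intro k
  apply max_le
  · exact (hanti (Nat.le_succ k)).trans (le_reg h k)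
  · have := reg_pos hpos k
    linarith

lemma reg_half_pow (h : ℕ → ℝ) (j d : ℕ) : reg h j / 2 ^ d ≤ reg h (j + d) := by
  induction d with
  | zero => simp
  | succ d ih =>
    have h1 := reg_half h (j + d)
    rw [pow_succ, ← div_div]
    have h2 : reg h j / 2 ^ d / 2 ≤ reg h (j + d) / 2 := by linarith
    exact h2.trans h1

include hanti hpos in
lemma reg_le_zero (k : ℕ) : reg h k ≤ h 0 := reg_anti hanti hpos (Nat.zero_le k)

include hanti hpos in
lemma summable_reg (h1 : h 0 < 1) (hs : Summable fun k => aa (h k)) :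
    Summable fun k => aa (reg h k) := by
  have hlt : ∀ k, reg h k < 1 := fun k => (reg_le_zero hanti hpos k).trans_lt h1
  have hhlt : ∀ k, h k < 1 := fun k => (hanti (Nat.zero_le k)).trans_lt h1
  have hnn : ∀ k, 0 ≤ aa (reg h k) := fun k => (aa_pos (reg_pos hpos k) (hlt k)).le
  have hnn' : ∀ k, 0 ≤ aa (h k) := fun k => (aa_pos (hpos k) (hhlt k)).le
  have hstep : ∀ k, aa (reg h (k + 1)) ≤ aa (h (k + 1)) + aa (reg h k) / 2 := by
    intro k
    have h2 : reg h (k + 1) = max (h (k + 1)) (reg h k / 2) := rfl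
    rcases max_choice (h (k + 1)) (reg h k / 2) with hc | hc
    · rw [h2, hc]
      linarith [hnn k]
    · rw [h2, hc]
      have := aa_half (reg_pos hpos k) (hlt k)
      linarith [hnn' (k + 1)]
  have hbound : ∀ n, ∑ k ∈ Finset.range n, aa (reg h k) ≤
      2 * ∑ k ∈ Finset.range n, aa (h k) := by
    intro n
    induction n with
    | zero => simp
    | succ n ih =>
      -- use the shifted form
      have h3 : ∀ m, ∑ k ∈ Finset.range (m + 1), aa (reg h k) ≤
          ∑ k ∈ Finset.range (m + 1), aa (h k) + (∑ k ∈ Finset.range m, aa (reg h k)) / 2 := by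
        intro m
        induction m with
        | zero => simp [reg]
        | succ m ihm =>
          rw [Finset.sum_range_succ _ (m + 1), Finset.sum_range_succ (fun k => aa (h k)) (m + 1),
            Finset.sum_range_succ (fun k => aa (reg h k)) m]
          have := hstep m
          rw [Finset.sum_range_succ (fun k => aa (reg h k)) m] at ihm
          linarith
      have h4 := h3 n
      have h5 : ∑ k ∈ Finset.range n, aa (h k) ≤ ∑ k ∈ Finset.range (n + 1), aa (h k) := by
        rw [Finset.sum_range_succ]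
        linarith [hnn' n]
      linarith
  refine summable_of_sum_range_le hnn (c := 2 * ∑' k, aa (h k)) fun n => ?_
  refine (hbound n).trans ?_
  have := hs.sum_le_tsum (Finset.range n) (fun k _ => hnn' k)
  linarith

end

/-- The gap after index `j`. -/
noncomputable def gap (H : ℕ → ℝ) (j : ℕ) : ℕ := ⌈-Real.log (H j) / 10⌉₊

/-- The indices. -/
noncomputable def kap (H : ℕ → ℝ) : ℕ → ℕ
  | 0 => 0
  | i + 1 => kap H i + gap H (kap H i)

section

variable {H : ℕ → ℝ} (hanti : Antitone H) (hpos : ∀ k, 0 < H k)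
  (hsmall : ∀ k, H k ≤ Real.exp (-20)) (hhalf : ∀ j d, H j / 2 ^ d ≤ H (j + d))

include hpos hsmall

lemma log_ge (k : ℕ) : 20 ≤ -Real.log (H k) := by
  have h1 := Real.log_le_log (hpos k) (hsmall k)
  rw [Real.log_exp] at h1
  linarith

lemma H_lt_one (k : ℕ) : H k < 1 := by
  have h1 : Real.exp (-20) < 1 := by
    rw [Real.exp_lt_one_iff]
    norm_num
  exact (hsmall k).trans_lt h1

lemma gap_ge (j : ℕ) : -Real.log (H j) / 10 ≤ gap H j := Nat.le_ceil _

lemma gap_le (j : ℕ) : (gap H j : ℝ) ≤ 3 / 20 * (-Real.log (H j)) := by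
  have h1 := log_ge hpos hsmall j
  have h2 : (gap H j : ℝ) < -Real.log (H j) / 10 + 1 := Nat.ceil_lt_add_one (by linarith)
  linarith

lemma gap_pos (j : ℕ) : 1 ≤ gap H j := by
  have h1 := log_ge hpos hsmall j
  have h2 := gap_ge hpos hsmall j
  have h3 : (1 : ℝ) ≤ gap H j := by linarith
  exact_mod_cast h3

include hhalf

lemma log_next (j : ℕ) : -Real.log (H (j + gap H j)) ≤ 23 / 20 * (-Real.log (H j)) := by
  have h1 := hhalf j (gap H j)
  have h2 : Real.log (H j / 2 ^ gap H j) ≤ Real.log (H (j + gap H j)) :=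
    Real.log_le_log (div_pos (hpos j) (by positivity)) h1
  rw [Real.log_div (hpos j).ne' (by positivity), Real.log_pow] at h2
  have h3 := gap_le hpos hsmall j
  have h4 : Real.log 2 ≤ 1 := by
    have := Real.log_le_sub_one_of_pos (show (0 : ℝ) < 2 by norm_num)
    linarith
  have h5 : (gap H j : ℝ) * Real.log 2 ≤ gap H j * 1 :=
    mul_le_mul_of_nonneg_left h4 (Nat.cast_nonneg _)
  linarith

include hanti

/-- One block of the sum. -/
lemma block_sum (j : ℕ) :
    H (j + gap H j) ≤ 12 * ∑ k ∈ Finset.range (gap H j), aa (H (j + k)) := by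
  set d := gap H j with hd
  have hl := log_ge hpos hsmall j
  have hln := log_next hpos hsmall hhalf j
  have hge := gap_ge hpos hsmall j
  have hlt := H_lt_one hpos hsmall
  have h1 : ∀ k ∈ Finset.range d, H (j + d) / (23 / 20 * (-Real.log (H j))) ≤ aa (H (j + k)) := by
    intro k hk
    have hk' := Finset.mem_range.1 hk
    have h2 : aa (H (j + d)) ≤ aa (H (j + k)) :=
      aa_mono (hpos _) (hanti (by omega)) (hlt _)
    refine le_trans ?_ h2
    unfold aa
    have h3 := log_ge hpos hsmall (j + d)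
    exact div_le_div_of_nonneg_left (hpos _).le (by linarith) hln
  have h2 := Finset.sum_le_sum h1
  rw [Finset.sum_const, Finset.card_range, nsmul_eq_mul] at h2
  have hL : 0 < -Real.log (H j) := by linarith
  have h3 : H (j + d) * (2 / 23) ≤ (d : ℝ) * (H (j + d) / (23 / 20 * (-Real.log (H j)))) := by
    have h4 : (-Real.log (H j) / 10) * (H (j + d) / (23 / 20 * (-Real.log (H j)))) ≤
        (d : ℝ) * (H (j + d) / (23 / 20 * (-Real.log (H j)))) := by
      apply mul_le_mul_of_nonneg_right hge
      exact div_nonneg (hpos _).le (by linarith)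
    have h5 : (-Real.log (H j) / 10) * (H (j + d) / (23 / 20 * (-Real.log (H j)))) =
        H (j + d) * (2 / 23) := by
      have hgen : ∀ L x : ℝ, 0 < L → (L / 10) * (x / (23 / 20 * L)) = x * (2 / 23) := by
        intro L x hL
        field_simp
        ring
      exact hgen _ _ hL
    rw [h5] at h4
    exact h4
  have h6 := (hpos (j + d)).le
  linarith

/-- The subsequence is summable. -/
lemma summable_kap (hs : Summable fun k => aa (H k)) : Summable fun i => H (kap H i) := by
  rw [← summable_nat_add_iff 1]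
  have hlt := H_lt_one hpos hsmall
  have hnn : ∀ k, 0 ≤ aa (H k) := fun k => (aa_pos (hpos k) (hlt k)).le
  refine summable_of_sum_range_le (fun i => (hpos _).le) (c := 12 * ∑' k, aa (H k)) fun n => ?_
  have h1 : ∀ n, ∑ i ∈ Finset.range n, H (kap H (i + 1)) ≤
      12 * ∑ k ∈ Finset.range (kap H n), aa (H k) := by
    intro n
    induction n with
    | zero => simp [kap]
    | succ n ih =>
      rw [Finset.sum_range_succ]
      have h2 : kap H (n + 1) = kap H n + gap H (kap H n) := rfl
      have h3 := block_sum hanti hpos hsmall hhalf (kap H n)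
      rw [← h2] at h3
      rw [h2, Finset.sum_range_add, ← h2]
      linarith
  have h2 := hs.sum_le_tsum (Finset.range (kap H n)) (fun k _ => hnn k)
  linarith [h1 n]

omit hanti in
/-- The growth of the block lengths. -/
lemma growth (j : ℕ) (A : ℝ) (hA : 0 ≤ A) :
    H (j + gap H j) * (2 * (A * 2 ^ (j + gap H j) / H (j + gap H j) ^ 3)) ≤
      (2 * Real.exp (Real.log (H j) / 2)) * (A * 2 ^ j / H j ^ 3) := by
  set d := gap H j with hd
  have hx := hpos j
  have hy := hpos (j + d)
  have hxy : H j ≤ H (j + d) * 2 ^ d := by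
    have h1 := hhalf j d
    rw [div_le_iff₀ (by positivity)] at h1
    exact h1
  have hgl := gap_le hpos hsmall j
  have hl := log_ge hpos hsmall j
  -- 8^d * H j ≤ exp (log (H j) / 2)
  have h8 : (2 : ℝ) ^ (3 * d) * H j ≤ Real.exp (Real.log (H j) / 2) := by
    have h2 : (2 : ℝ) ≤ Real.exp 1 := by
      have := Real.add_one_le_exp (1 : ℝ)
      linarith
    have h3 : (2 : ℝ) ^ (3 * d) ≤ Real.exp (((3 * d : ℕ) : ℝ)) := by
      calc (2 : ℝ) ^ (3 * d) ≤ (Real.exp 1) ^ (3 * d) := pow_le_pow_left₀ (by norm_num) h2 _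
        _ = Real.exp (((3 * d : ℕ) : ℝ)) := by rw [← Real.exp_nat_mul]; simp
    calc (2 : ℝ) ^ (3 * d) * H j ≤ Real.exp (((3 * d : ℕ) : ℝ)) * H j :=
          mul_le_mul_of_nonneg_right h3 hx.le
      _ = Real.exp (((3 * d : ℕ) : ℝ)) * Real.exp (Real.log (H j)) := by rw [Real.exp_log hx]
      _ = Real.exp (((3 * d : ℕ) : ℝ) + Real.log (H j)) := by rw [Real.exp_add]
      _ ≤ Real.exp (Real.log (H j) / 2) := by
          apply Real.exp_le_exp.2
          push_cast
          linarith
  have h9 : H (j + d) * (2 * (A * 2 ^ (j + d) / H (j + d) ^ 3)) =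
      2 * (A * 2 ^ (j + d)) / H (j + d) ^ 2 := by
    field_simp
  have h10 : 2 * (A * 2 ^ (j + d)) / H (j + d) ^ 2 ≤ 2 * (A * 2 ^ j) * (2 ^ (3 * d)) / H j ^ 2 := by
    rw [div_le_div_iff₀ (by positivity) (by positivity)]
    have h11 : H j ^ 2 ≤ (H (j + d) * 2 ^ d) ^ 2 := pow_le_pow_left₀ hx.le hxy 2
    have h12 : 0 ≤ 2 * (A * 2 ^ (j + d)) := by positivity
    calc 2 * (A * 2 ^ (j + d)) * H j ^ 2 ≤ 2 * (A * 2 ^ (j + d)) * (H (j + d) * 2 ^ d) ^ 2 :=
          mul_le_mul_of_nonneg_left h11 h12
      _ = 2 * (A * 2 ^ j) * 2 ^ (3 * d) * H (j + d) ^ 2 := by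
          rw [pow_add, show 3 * d = d + d + d by ring, pow_add, pow_add]
          ring
  rw [h9]
  refine h10.trans ?_
  have h13 : 2 * (A * 2 ^ j) * (2 ^ (3 * d)) / H j ^ 2 =
      (2 * (2 ^ (3 * d) * H j)) * (A * 2 ^ j / H j ^ 3) := by
    field_simp
  rw [h13]
  apply mul_le_mul_of_nonneg_right _ (by positivity)
  linarith

end

end Pool.Agent.MP_ebfc19_pr
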