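import Mathlib

/-!
# MP_ebfc19_pr: deterministic one-player games with arbitrary states and actions (definitions)
-/

open Filter

namespace Pool.Agent.MP_ebfc19_pr

/-- A deterministic one-player game (dynamic programming problem): a set of states, a set of
actions, the next state and the stage payoff as functions of the current state and action. -/
structure DGame where
  /-- the states -/
  Ω : Type
  /-- the actions -/
  Act : Type
  /-- the next state -/
  next : Ω → Act → Ω
  /-- the stage payoff -/
  pay : Ω → Act → ℝ

namespace DGame

variable (G : DGame)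

/-- The state after `t` stages, from initial state `ω`, when the actions are `α 0, α 1, …`. -/
def st (ω : G.Ω) (α : ℕ → G.Act) : ℕ → G.Ω
  | 0 => ω
  | t + 1 => G.next (st ω α t) (α t)

/-- The payoff of the stage numbered `t` (stages are numbered from `0`). -/
noncomputable def g (ω : G.Ω) (α : ℕ → G.Act) (t : ℕ) : ℝ := G.pay (G.st ω α t) (α t)

/-- The average payoff of the first `T` stages. -/
noncomputable def avg (ω : G.Ω) (T : ℕ) (α : ℕ → G.Act) : ℝ :=
  (∑ t ∈ Finset.range T, G.g ω α t) / T

/-- The `l`-discounted payoff `∑ l (1 - l)^t g_t`. -/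
noncomputable def disc (l : ℝ) (ω : G.Ω) (α : ℕ → G.Act) : ℝ :=
  ∑' t : ℕ, l * (1 - l) ^ t * G.g ω α t

/-- The value of the `l`-discounted game. -/
noncomputable def vdisc (l : ℝ) (ω : G.Ω) : ℝ := ⨆ α : ℕ → G.Act, G.disc l ω α

end DGame

end Pool.Agent.MP_ebfc19_pr
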