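import Pool.Agent.Lib.MP_ebfc19_pr.DConcat
import Pool.Agent.Lib.MP_ebfc19_pr.DCrit

/-!
# MP_ebfc19_pr: the positive theorem
-/

open Filter Topology

namespace Pool.Agent.MP_ebfc19_pr

lemma aa_eq {x : ℝ} : x / Real.log (1 / x) = aa x := by
  unfold aa
  rw [one_div, Real.log_inv]

lemma sq_le_aa {x : ℝ} (hx : 0 < x) (hx1 : x < 1) : x ^ 2 ≤ aa x := by
  have h1 := Real.log_neg hx hx1
  have h2 : -Real.log x ≤ 1 / x := by
    have h3 := Real.log_le_sub_one_of_pos (show 0 < 1 / x by positivity)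
    rw [one_div, Real.log_inv] at h3
    rw [one_div]
    linarith
  unfold aa
  rw [le_div_iff₀ (by linarith)]
  calc x ^ 2 * (-Real.log x) ≤ x ^ 2 * (1 / x) := mul_le_mul_of_nonneg_left h2 (by positivity)
    _ = x := by field_simp

lemma tendsto_zero_of_summable {f : ℕ → ℝ} (hpos : ∀ k, 0 < f k) (hlt : ∀ k, f k < 1)
    (hs : Summable fun k => aa (f k)) : Tendsto f atTop (𝓝 0) := by
  have h1 := hs.tendsto_atTop_zero
  have h2 : Tendsto (fun k => f k ^ 2) atTop (𝓝 0) :=
    squeeze_zero (fun k => by positivity) (fun k => sq_le_aa (hpos k) (hlt k)) h1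
  have h3 : Tendsto (fun k => Real.sqrt (f k ^ 2)) atTop (𝓝 (Real.sqrt 0)) :=
    (Real.continuous_sqrt.tendsto 0).comp h2
  rw [Real.sqrt_zero] at h3
  refine h3.congr fun k => ?_
  exact Real.sqrt_sq (hpos k).le

lemma aa_scale {C x : ℝ} (hC : 1 ≤ C) (hx : 0 < x) (hx1 : x < 1) (hx2 : x * C ^ 2 ≤ 1) :
    aa (C * x) ≤ 2 * C * aa x := by
  have hC0 : 0 < C := by linarith
  have h1 := Real.log_neg hx hx1
  have h2 : Real.log x + 2 * Real.log C ≤ 0 := by
    have h3 : Real.log (x * C ^ 2) ≤ 0 := Real.log_nonpos (by positivity) hx2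
    rw [Real.log_mul hx.ne' (by positivity), Real.log_pow] at h3
    push_cast at h3
    exact h3
  unfold aa
  rw [Real.log_mul hC0.ne' hx.ne']
  have h4 : 0 < -Real.log x / 2 := by linarith
  calc C * x / (-(Real.log C + Real.log x)) ≤ C * x / (-Real.log x / 2) :=
        div_le_div_of_nonneg_left (by positivity) h4 (by linarith)
    _ = 2 * C * (x / (-Real.log x)) := by
        field_simp

namespace DGame

/-- **Positive theorem.** If the discounted values of a deterministic one-player game converge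
uniformly at a rate `C f(k)` (for discount factors `l ≤ 2^{-k}`) with
`∑ f(k) / log (1/f(k)) < ∞`, then `v` is the (uniform) value of the game. -/
theorem positive (G : DGame) [Nonempty G.Act] (hb : ∀ ω a, 0 ≤ G.pay ω a ∧ G.pay ω a ≤ 1)
    (v : G.Ω → ℝ) (f : ℕ → ℝ) (hanti : Antitone f) (hpos : ∀ k, 0 < f k) (hle : ∀ k, f k ≤ 1 / 2)
    (hs : Summable fun k => f k / Real.log (1 / f k)) (C : ℝ) (k₀ : ℕ)
    (hv : ∀ k, k₀ ≤ k → ∀ l : ℝ, 0 < l → l ≤ (1 / 2) ^ k → ∀ ω, |G.vdisc l ω - v ω| ≤ C * f k) :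
    ∀ ε : ℝ, 0 < ε → ∃ T₀ : ℕ, ∀ ω,
      (∃ α : ℕ → G.Act, ∀ T : ℕ, T₀ ≤ T → v ω - ε ≤ G.avg ω T α) ∧
      (∀ α : ℕ → G.Act, ∀ T : ℕ, T₀ ≤ T → G.avg ω T α ≤ v ω + ε) := by
  have hlt : ∀ k, f k < 1 := fun k => (hle k).trans_lt (by norm_num)
  simp_rw [aa_eq] at hs
  have hflim := tendsto_zero_of_summable hpos hlt hs
  set C' := max C 1 with hC'
  have hC'1 : 1 ≤ C' := le_max_right _ _
  have hC'0 : 0 < C' := by linarith
  -- the starting index
  have hev1 : ∀ᶠ k in atTop, f k < Real.exp (-20) / C' :=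
    hflim.eventually_lt_const (by positivity)
  have hev2 : ∀ᶠ k in atTop, f k < 1 / C' ^ 2 := hflim.eventually_lt_const (by positivity)
  obtain ⟨k₁, hk₁⟩ := eventually_atTop.1 (hev1.and (hev2.and (eventually_ge_atTop k₀)))
  set h : ℕ → ℝ := fun j => C' * f (k₁ + j) with hh
  have hhanti : Antitone h := fun a b hab =>
    mul_le_mul_of_nonneg_left (hanti (by omega)) hC'0.le
  have hhpos : ∀ k, 0 < h k := fun k => mul_pos hC'0 (hpos _)
  have hh0 : h 0 ≤ Real.exp (-20) := by
    have h1 := (hk₁ k₁ le_rfl).1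
    rw [lt_div_iff₀ hC'0] at h1
    have h2 : h 0 = C' * f k₁ := rfl
    rw [h2]
    linarith
  have hexp1 : Real.exp (-20) < 1 := by
    rw [Real.exp_lt_one_iff]
    norm_num
  have hexp8 : Real.exp (-20) ≤ 1 / 8 := by
    have h2 : (2 : ℝ) ≤ Real.exp 1 := by
      have := Real.add_one_le_exp (1 : ℝ)
      linarith
    have h3 : (8 : ℝ) ≤ Real.exp 20 := by
      calc (8 : ℝ) ≤ 2 ^ 20 := by norm_num
        _ ≤ (Real.exp 1) ^ 20 := pow_le_pow_left₀ (by norm_num) h2 _
        _ = Real.exp 20 := by rw [← Real.exp_nat_mul]; norm_num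
    rw [Real.exp_neg, one_div]
    exact inv_anti₀ (by norm_num) h3
  have hhsum : Summable fun k => aa (h k) := by
    have hs' : Summable fun j => 2 * C' * aa (f (k₁ + j)) := by
      have := (summable_nat_add_iff k₁).2 hs
      simp_rw [add_comm _ k₁] at this
      exact this.mul_left _
    refine Summable.of_nonneg_of_le (fun j => ?_) (fun j => ?_) hs'
    · exact (aa_pos (hhpos j) (((hhanti (Nat.zero_le j)).trans hh0).trans_lt hexp1)).le
    · apply aa_scale hC'1 (hpos _) (hlt _)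
      have h1 := (hk₁ (k₁ + j) (by omega)).2.1
      rw [lt_div_iff₀ (by positivity)] at h1
      exact h1.le
  set H := reg h with hH
  have hHanti : Antitone H := reg_anti hhanti hhpos
  have hHpos : ∀ k, 0 < H k := reg_pos hhpos
  have hHsmall : ∀ k, H k ≤ Real.exp (-20) := fun k => (reg_le_zero hhanti hhpos k).trans hh0
  have hHhalf : ∀ j d, H j / 2 ^ d ≤ H (j + d) := reg_half_pow h
  have hHlt : ∀ k, H k < 1 := fun k => (hHsmall k).trans_lt hexp1
  have hHsum : Summable fun k => aa (H k) :=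
    summable_reg hhanti hhpos (hh0.trans_lt hexp1) hhsum
  have hHlim : Tendsto H atTop (𝓝 0) := tendsto_zero_of_summable hHpos hHlt hHsum
  have hgood : ∀ k, k₁ ≤ k → ∀ l : ℝ, 0 < l → l ≤ (1 / 2) ^ k → ∀ ω,
      |G.vdisc l ω - v ω| ≤ H (k - k₁) := by
    intro k hk l hl0 hl ω
    have h1 := hv k ((hk₁ k₁ le_rfl).2.2.trans hk) l hl0 hl ω
    have h2 : C * f k ≤ C' * f k := mul_le_mul_of_nonneg_right (le_max_left _ _) (hpos k).le
    have h3 : h (k - k₁) = C' * f k := by
      simp only [hh]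
      rw [Nat.add_sub_cancel' hk]
    have h4 := le_reg h (k - k₁)
    rw [h3] at h4
    linarith
  -- the rate
  set F : ℕ → ℝ := fun k => if k < k₁ then 3 else H (k - k₁) with hF
  have hFge : ∀ j, F (k₁ + j) = H j := by
    intro j
    simp only [hF]
    rw [if_neg (by omega), Nat.add_sub_cancel_left]
  have hR : G.Rate v F := by
    refine ⟨?_, ?_, ?_, ?_⟩
    · intro a b hab
      simp only [hF]
      split_ifs with h1 h2 h2
      · exact le_rfl
      · omega
      · linarith [hHlt (b - k₁)]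
      · exact hHanti (by omega)
    · intro k
      simp only [hF]
      split_ifs
      · norm_num
      · exact hHpos _
    · have h1 : Tendsto (fun k => H (k - k₁)) atTop (𝓝 0) := hHlim.comp (tendsto_sub_atTop_nat k₁)
      refine h1.congr' ?_
      filter_upwards [eventually_ge_atTop k₁] with k hk
      simp only [hF]
      rw [if_neg (by omega)]
    · intro k l hl0 hl ω
      by_cases hk : k < k₁
      · simp only [hF]
        rw [if_pos hk]
        have hl1 : l ≤ 1 := hl.trans (half_pow_le k)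
        have h1 := vdisc_nonneg hb hl0 hl1 ω
        have h2 := vdisc_le_one hb hl0 hl1 ω
        have h3 := abs_le.1 (hgood k₁ le_rfl _ (half_pow_pos k₁) le_rfl ω)
        have h4 := vdisc_nonneg hb (half_pow_pos k₁) (half_pow_le k₁) ω
        have h5 := vdisc_le_one hb (half_pow_pos k₁) (half_pow_le k₁) ω
        have h6 := hHlt (k₁ - k₁)
        rw [abs_le]
        constructor <;> linarith [h3.1, h3.2]
      · simp only [hF]
        rw [if_neg hk]
        exact hgood k (by omega) l hl0 hl ω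
  -- the blocks
  set κ := kap H with hκ
  have hκsucc : ∀ i, κ (i + 1) = κ i + gap H (κ i) := fun i => rfl
  have hxsum : Summable fun i => H (κ i) := summable_kap hHanti hHpos hHsmall hHhalf hHsum
  set y : ℕ → ℝ := fun i => 2 ^ k₁ * 2 ^ κ i / H (κ i) ^ 3 with hy
  set n : ℕ → ℕ := fun i => ⌈y i⌉₊ with hn
  have hy1 : ∀ i, 1 ≤ y i := by
    intro i
    simp only [hy]
    rw [le_div_iff₀ (pow_pos (hHpos _) 3), one_mul]
    have h1 : H (κ i) ^ 3 ≤ 1 := pow_le_one₀ (hHpos _).le (hHlt _).le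
    have h2 : (1 : ℝ) ≤ 2 ^ k₁ * 2 ^ κ i := by
      rw [← pow_add]
      exact one_le_pow₀ (by norm_num)
    linarith
  have hny : ∀ i, y i ≤ n i := fun i => Nat.le_ceil _
  have hny2 : ∀ i, (n i : ℝ) ≤ 2 * y i := by
    intro i
    have h1 : (n i : ℝ) < y i + 1 := Nat.ceil_lt_add_one (by linarith [hy1 i])
    linarith [hy1 i]
  have hn1 : ∀ i, 1 ≤ n i := by
    intro i
    have h1 : (1 : ℝ) ≤ n i := (hy1 i).trans (hny i)
    exact_mod_cast h1
  have hnF : ∀ i, (2 : ℝ) ^ (k₁ + κ i) ≤ n i * F (k₁ + κ i) ^ 3 := by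
    intro i
    rw [hFge]
    have h1 := hny i
    simp only [hy] at h1
    rw [div_le_iff₀ (pow_pos (hHpos _) 3)] at h1
    rw [pow_add]
    exact h1
  have hF8 : ∀ i, F (k₁ + κ i) ≤ 1 / 8 := by
    intro i
    rw [hFge]
    exact (hHsmall _).trans hexp8
  have hblock : ∀ i (s : G.Ω), ∃ α : ℕ → G.Act,
      (∀ t, t ≤ n i → t * v s - (96 * H (κ i)) * n i ≤ G.tot s α t) ∧
        v s - 96 * H (κ i) ≤ v (G.st s α (n i)) := by
    intro i s
    obtain ⟨α, h1, h2⟩ := block hb hR (k₁ + κ i) (n i) (hF8 i) (hnF i) s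
    rw [hFge] at h1 h2
    refine ⟨α, h1, ?_⟩
    have := hHpos (κ i)
    linarith
  have hratio : ∀ i, (96 * H (κ (i + 1))) * n (i + 1) ≤
      (192 * Real.exp (Real.log (H (κ i)) / 2)) * n i := by
    intro i
    have h1 := growth hHpos hHsmall hHhalf (κ i) (2 ^ k₁) (by positivity)
    rw [← hκsucc] at h1
    have h2 : H (κ (i + 1)) * n (i + 1) ≤ H (κ (i + 1)) * (2 * y (i + 1)) :=
      mul_le_mul_of_nonneg_left (hny2 _) (hHpos _).le
    have h3 : 2 * Real.exp (Real.log (H (κ i)) / 2) * y i ≤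
        2 * Real.exp (Real.log (H (κ i)) / 2) * n i :=
      mul_le_mul_of_nonneg_left (hny i) (by positivity)
    simp only [hy] at h2 h3
    linarith
  intro ε hε
  set δ := ε / 3 with hδ
  have hδ0 : 0 < δ := by rw [hδ]; linarith
  -- lower bound
  have hesum : Summable fun i => 96 * H (κ i) := hxsum.mul_left 96
  have htail : Tendsto (fun i => ∑' k, 96 * H (κ (k + i))) atTop (𝓝 0) :=
    tendsto_sum_nat_add fun i => 96 * H (κ i)
  have hxlim : Tendsto (fun i => H (κ i)) atTop (𝓝 0) := hxsum.tendsto_atTop_zero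
  obtain ⟨i₀, hi₀⟩ := eventually_atTop.1 ((htail.eventually_lt_const hδ0).and
    ((hxlim.eventually_lt_const (show (0 : ℝ) < (δ / 192) ^ 2 by positivity)).and
      (hxlim.eventually_lt_const (show (0 : ℝ) < δ / 9 by positivity))))
  have hlow : ∀ ω : G.Ω, ∃ α : ℕ → G.Act, ∀ T : ℕ,
      T * (v ω - 2 * δ) - (96 * H (κ (0 + i₀))) * n (0 + i₀) ≤ G.tot ω α T := by
    intro ω
    refine concat (v := v) (fun j => n (j + i₀)) (fun j => 96 * H (κ (j + i₀)))
      (fun j => hn1 _) (fun j => by have := hHpos (κ (j + i₀)); positivity)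
      (fun j s => hblock (j + i₀) s) hδ0.le ?_ ?_ ω
    · intro J
      have h1 := (hi₀ i₀ le_rfl).1
      have h2 : Summable fun j => 96 * H (κ (j + i₀)) := (summable_nat_add_iff i₀).2 hesum
      have h3 := h2.sum_le_tsum (Finset.range J)
        (fun j _ => by have := hHpos (κ (j + i₀)); positivity)
      linarith
    · intro j
      have h1 := hratio (j + i₀)
      have h2 := (hi₀ (j + i₀) (by omega)).2.1
      have h3 : 192 * Real.exp (Real.log (H (κ (j + i₀))) / 2) ≤ δ := by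
        have hx := hHpos (κ (j + i₀))
        have h4 : Real.exp (Real.log (H (κ (j + i₀))) / 2) ^ 2 = H (κ (j + i₀)) := by
          rw [← Real.exp_nat_mul]
          rw [show ((2 : ℕ) : ℝ) * (Real.log (H (κ (j + i₀))) / 2) =
            Real.log (H (κ (j + i₀))) by push_cast; ring]
          exact Real.exp_log hx
        have h5 : Real.exp (Real.log (H (κ (j + i₀))) / 2) ≤ δ / 192 := by
          rw [← h4] at h2
          exact (pow_le_pow_iff_left₀ (Real.exp_pos _).le (by positivity) two_ne_zero).1 h2.le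
        linarith
      have h6 : (192 * Real.exp (Real.log (H (κ (j + i₀))) / 2)) * (n (j + i₀) : ℝ) ≤
          δ * n (j + i₀) := mul_le_mul_of_nonneg_right h3 (Nat.cast_nonneg _)
      have h7 : j + 1 + i₀ = j + i₀ + 1 := by ring
      simp only [h7]
      linarith
  obtain ⟨T₁, hT₁⟩ := exists_nat_ge ((96 * H (κ (0 + i₀))) * n (0 + i₀) / δ)
  refine ⟨max (max T₁ 1) (n i₀), fun ω => ⟨?_, ?_⟩⟩
  · obtain ⟨α, hα⟩ := hlow ω
    refine ⟨α, fun T hT => ?_⟩
    have hT1 : 1 ≤ T := (le_max_right T₁ 1).trans ((le_max_left _ _).trans hT)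
    have hT2 : T₁ ≤ T := (le_max_left T₁ 1).trans ((le_max_left _ _).trans hT)
    have hT0 : (0 : ℝ) < T := by exact_mod_cast hT1
    have h1 := hα T
    have h2 : (T₁ : ℝ) ≤ T := by exact_mod_cast hT2
    rw [div_le_iff₀ hδ0] at hT₁
    have h3 : (T₁ : ℝ) * δ ≤ T * δ := mul_le_mul_of_nonneg_right h2 hδ0.le
    have h4 : G.avg ω T α = G.tot ω α T / T := rfl
    rw [h4, le_div_iff₀ hT0]
    have h5 : ε = 3 * δ := by rw [hδ]; ring
    rw [h5]
    linarith
  · intro α T hT
    have hT1 : 1 ≤ T := (le_max_right T₁ 1).trans ((le_max_left _ _).trans hT)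
    have hT2 : n i₀ ≤ T := (le_max_right _ _).trans hT
    have hT0 : (0 : ℝ) < T := by exact_mod_cast hT1
    have h2 : (n i₀ : ℝ) ≤ T := by exact_mod_cast hT2
    have h3 : (2 : ℝ) ^ (k₁ + κ i₀) ≤ T * F (k₁ + κ i₀) ^ 3 := by
      refine (hnF i₀).trans ?_
      apply mul_le_mul_of_nonneg_right h2
      rw [hFge]
      exact pow_nonneg (hHpos _).le 3
    have h4 := tot_upper' hb hR (k₁ + κ i₀) T (hF8 i₀) h3 ω α T le_rfl
    rw [hFge] at h4
    have h5 := (hi₀ i₀ le_rfl).2.2
    have h6 : G.avg ω T α = G.tot ω α T / T := rfl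
    rw [h6, div_le_iff₀ hT0]
    have h7 : 9 * H (κ i₀) * (T : ℝ) ≤ δ * T := by
      apply mul_le_mul_of_nonneg_right _ hT0.le
      linarith
    have h8 : ε = 3 * δ := by rw [hδ]; ring
    rw [h8]
    have h9 : 0 ≤ δ * (T : ℝ) := mul_nonneg hδ0.le hT0.le
    linarith

end DGame

end Pool.Agent.MP_ebfc19_pr
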