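import Mathlib

/-!
# MP_ebfc19_pr: one-player deterministic games (definitions)

A one-player deterministic game is the special case of a two-person zero-sum stochastic game in
which player 2 has a single action and all transitions are deterministic.  The action set of
player 1 is `ℕ`.  A (behaviour) strategy of player 1 and an initial state induce a probability
measure on the sequences of actions `ℕ → ℕ`, and every probability measure on `ℕ → ℕ` arises in
this way; so strategies are represented by probability measures on `ℕ → ℕ`.
-/

open MeasureTheory Filter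

namespace Pool.Agent.MP_ebfc19_pr

/-- A one-player deterministic game with action set `ℕ`: a set of states, the next state and the
stage payoff as functions of the current state and action. -/
structure Game where
  /-- the states -/
  Ω : Type
  /-- the next state -/
  next : Ω → ℕ → Ω
  /-- the stage payoff -/
  pay : Ω → ℕ → ℝ

namespace Game

variable (G : Game)

/-- The state after `t` stages, from initial state `ω`, when the actions are `α 0, α 1, …`. -/
def st (ω : G.Ω) (α : ℕ → ℕ) : ℕ → G.Ω
  | 0 => ω
  | t + 1 => G.next (st ω α t) (α t)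

/-- The payoff of the stage numbered `t` (stages are numbered from `0`). -/
noncomputable def g (ω : G.Ω) (α : ℕ → ℕ) (t : ℕ) : ℝ := G.pay (G.st ω α t) (α t)

/-- The average payoff of the first `T` stages. -/
noncomputable def avg (ω : G.Ω) (T : ℕ) (α : ℕ → ℕ) : ℝ :=
  (∑ t ∈ Finset.range T, G.g ω α t) / T

/-- The `l`-discounted payoff `∑ l (1 - l)^t g_t`. -/
noncomputable def disc (l : ℝ) (ω : G.Ω) (α : ℕ → ℕ) : ℝ :=
  ∑' t : ℕ, l * (1 - l) ^ t * G.g ω α t

/-- The value of the `l`-discounted game: the supremum over all strategies of the expected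
discounted payoff. -/
noncomputable def vdisc (l : ℝ) (ω : G.Ω) : ℝ :=
  ⨆ μ : ProbabilityMeasure (ℕ → ℕ), ∫ α, G.disc l ω α ∂(μ : Measure (ℕ → ℕ))

/-- The (infinite) game starting at `ω` has the value `x`: for every `ε > 0`, player 1 has a
strategy and there is `T₀` such that the expected average payoff of the first `T` stages is at
least `x - ε` for all `T ≥ T₀` and the expectation of the lower limit of the averages is at least
`x - ε`; and player 2 (who has a single strategy) guarantees the same with `≤ x + ε` and the upper
limit, against every strategy of player 1. -/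
def HasValue (ω : G.Ω) (x : ℝ) : Prop :=
  ∀ ε : ℝ, 0 < ε →
    (∃ (μ : ProbabilityMeasure (ℕ → ℕ)) (T₀ : ℕ),
      (∀ T : ℕ, T₀ ≤ T → x - ε ≤ ∫ α, G.avg ω T α ∂(μ : Measure (ℕ → ℕ))) ∧
      x - ε ≤ ∫ α, liminf (fun T => G.avg ω T α) atTop ∂(μ : Measure (ℕ → ℕ))) ∧
    (∃ T₀ : ℕ, ∀ μ : ProbabilityMeasure (ℕ → ℕ),
      (∀ T : ℕ, T₀ ≤ T → ∫ α, G.avg ω T α ∂(μ : Measure (ℕ → ℕ)) ≤ x + ε) ∧
      ∫ α, limsup (fun T => G.avg ω T α) atTop ∂(μ : Measure (ℕ → ℕ)) ≤ x + ε)

end Game

end Pool.Agent.MP_ebfc19_pr
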