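import Pool.Agent.Lib.MP_ebfc19_pr.Ex

/-!
# MP_ebfc19_pr: bounds for the discounted payoffs
-/

open MeasureTheory Filter Topology

namespace Pool.Agent.MP_ebfc19_pr

open St

/-- Raw discounted payoff. -/
noncomputable def rdisc (l : ℝ) (s : St) (α : ℕ → ℕ) : ℝ :=
  ∑' t : ℕ, l * (1 - l) ^ t * py (rst s α t)

lemma disc_eq (l : ℝ) (ω : ex.Ω) (α : ℕ → ℕ) : ex.disc l ω α = rdisc l ω.1 α := by
  unfold Game.disc rdisc
  simp_rw [g_eq]

lemma term_nonneg {l : ℝ} (h0 : 0 < l) (h1 : l ≤ 1) {s : St} (hs : s.Valid) (α : ℕ → ℕ) (t : ℕ) :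
    0 ≤ l * (1 - l) ^ t * py (rst s α t) := by
  have : 0 ≤ (1 - l) ^ t := pow_nonneg (by linarith) _
  have := py_nonneg (rst_valid hs α t)
  positivity

lemma summ {l : ℝ} (h0 : 0 < l) (h1 : l ≤ 1) {s : St} (hs : s.Valid) (α : ℕ → ℕ) :
    Summable fun t : ℕ => l * (1 - l) ^ t * py (rst s α t) := by
  refine Summable.of_nonneg_of_le (term_nonneg h0 h1 hs α) (g := fun t => _)
    (f := fun t => l * (1 - l) ^ t) ?_ ?_
  · intro t
    have h2 : 0 ≤ l * (1 - l) ^ t := mul_nonneg h0.le (pow_nonneg (by linarith) _)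
    calc l * (1 - l) ^ t * py (rst s α t) ≤ l * (1 - l) ^ t * 1 :=
          mul_le_mul_of_nonneg_left (py_le_one (rst_valid hs α t)) h2
      _ = _ := mul_one _
  · exact (summable_geometric_of_lt_one (by linarith) (by linarith)).mul_left l

/-- Supersolutions bound the discounted payoff from above. -/
lemma rdisc_le {l : ℝ} (h0 : 0 < l) (h1 : l ≤ 1) (W : St → ℝ) (hW : ∀ s, s.Valid → 0 ≤ W s)
    (h : ∀ s, s.Valid → ∀ a, l * py s + (1 - l) * W (nx s a) ≤ W s) {s : St} (hs : s.Valid)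
    (α : ℕ → ℕ) : rdisc l s α ≤ W s := by
  have key : ∀ n, ∑ t ∈ Finset.range n, l * (1 - l) ^ t * py (rst s α t)
      + (1 - l) ^ n * W (rst s α n) ≤ W s := by
    intro n
    induction n with
    | zero => simp [rst]
    | succ n ih =>
      rw [Finset.sum_range_succ]
      have h2 := h _ (rst_valid hs α n) (α n)
      have h3 : 0 ≤ (1 - l) ^ n := pow_nonneg (by linarith) _
      have h4 := mul_le_mul_of_nonneg_left h2 h3
      have h5 : rst s α (n + 1) = nx (rst s α n) (α n) := rfl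
      rw [h5, pow_succ]
      linarith
  unfold rdisc
  apply Real.tsum_le_of_sum_range_le (term_nonneg h0 h1 hs α)
  intro n
  have h2 := key n
  have h3 : 0 ≤ (1 - l) ^ n * W (rst s α n) :=
    mul_nonneg (pow_nonneg (by linarith) _) (hW _ (rst_valid hs α n))
  linarith

/-- Subsolutions along a constant action bound the discounted payoff from below. -/
lemma le_rdisc {l : ℝ} (h0 : 0 < l) (h1 : l ≤ 1) (w : St → ℝ) (j : ℕ)
    (hw : ∀ s, s.Valid → w s ≤ 1)
    (h : ∀ s, s.Valid → w s ≤ l * py s + (1 - l) * w (nx s j)) {s : St} (hs : s.Valid) :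
    w s ≤ rdisc l s (fun _ => j) := by
  have key : ∀ n, w s ≤ ∑ t ∈ Finset.range n, l * (1 - l) ^ t * py (rst s (fun _ => j) t)
      + (1 - l) ^ n * w (rst s (fun _ => j) n) := by
    intro n
    induction n with
    | zero => simp [rst]
    | succ n ih =>
      rw [Finset.sum_range_succ]
      have h2 := h _ (rst_valid hs (fun _ => j) n)
      have h3 : 0 ≤ (1 - l) ^ n := pow_nonneg (by linarith) _
      have h4 := mul_le_mul_of_nonneg_left h2 h3
      have h5 : rst s (fun _ => j) (n + 1) = nx (rst s (fun _ => j) n) j := rfl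
      rw [h5, pow_succ]
      linarith
  have key2 : ∀ n, w s ≤ rdisc l s (fun _ => j) + (1 - l) ^ n := by
    intro n
    have h2 : ∑ t ∈ Finset.range n, l * (1 - l) ^ t * py (rst s (fun _ => j) t)
        ≤ rdisc l s (fun _ => j) :=
      (summ h0 h1 hs _).sum_le_tsum _ (fun t _ => term_nonneg h0 h1 hs _ t)
    have h3 : (1 - l) ^ n * w (rst s (fun _ => j) n) ≤ (1 - l) ^ n * 1 :=
      mul_le_mul_of_nonneg_left (hw _ (rst_valid hs _ n)) (pow_nonneg (by linarith) _)
    have := key n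
    linarith
  have hlim : Tendsto (fun n : ℕ => rdisc l s (fun _ => j) + (1 - l) ^ n) atTop
      (𝓝 (rdisc l s (fun _ => j) + 0)) :=
    tendsto_const_nhds.add (tendsto_pow_atTop_nhds_zero_of_lt_one (by linarith) (by linarith))
  rw [add_zero] at hlim
  exact ge_of_tendsto' hlim key2

/-- The supersolution. -/
noncomputable def Wup (l : ℝ) : St → ℝ
  | ch p _ => p
  | fl p j r => dn p j + (p - dn p j) * (1 - (1 - l) ^ r)

lemma one_sub_pow_nonneg {l : ℝ} (h0 : 0 < l) (h1 : l ≤ 1) (r : ℕ) : 0 ≤ 1 - (1 - l) ^ r := by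
  have : (1 - l) ^ r ≤ 1 := pow_le_one₀ (by linarith) (by linarith)
  linarith

lemma one_sub_pow_le {l : ℝ} (h1 : l ≤ 1) (r : ℕ) : 1 - (1 - l) ^ r ≤ r * l := by
  have h := one_add_mul_le_pow (a := -l) (by linarith) r
  have h2 : (1 + -l) = 1 - l := by ring
  rw [h2] at h
  linarith

lemma Wup_le_p {l : ℝ} (h0 : 0 < l) (h1 : l ≤ 1) {p : ℝ} (hp : 0 ≤ p) (j r : ℕ) :
    Wup l (fl p j r) ≤ p := by
  have h2 := dn_le hp j
  have h3 := one_sub_pow_nonneg h0 h1 r
  have h4 : 0 ≤ (1 - l) ^ r := pow_nonneg (by linarith) _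
  have h5 : (p - dn p j) * (1 - (1 - l) ^ r) ≤ (p - dn p j) * 1 :=
    mul_le_mul_of_nonneg_left (by linarith) (by linarith)
  simp only [Wup]
  linarith

lemma Wup_nonneg {l : ℝ} (h0 : 0 < l) (h1 : l ≤ 1) {s : St} (hs : s.Valid) : 0 ≤ Wup l s := by
  cases s with
  | ch p c => exact hs.1
  | fl p j r =>
    have h2 := dn_le hs.1.1 j
    have h3 := one_sub_pow_nonneg h0 h1 r
    have h4 := dn_nonneg p j
    have h5 : 0 ≤ (p - dn p j) * (1 - (1 - l) ^ r) := mul_nonneg (by linarith) h3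
    simp only [Wup]
    linarith

lemma Wup_super {l : ℝ} (h0 : 0 < l) (h1 : l ≤ 1) {s : St} (hs : s.Valid) (a : ℕ) :
    l * py s + (1 - l) * Wup l (nx s a) ≤ Wup l s := by
  cases s with
  | ch p c =>
    have hp : 0 ≤ p := hs.1
    have h2 : Wup l (nx (ch p c) a) ≤ p := by
      simp only [nx]
      split_ifs with h
      · exact Wup_le_p h0 h1 hp _ _
      · exact le_refl _
    have h3 : (1 - l) * Wup l (nx (ch p c) a) ≤ (1 - l) * p :=
      mul_le_mul_of_nonneg_left h2 (by linarith)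
    have h4 : 0 ≤ l * p := mul_nonneg h0.le hp
    simp only [py]
    have h5 : Wup l (ch p c) = p := rfl
    rw [h5]
    linarith
  | fl p j r =>
    simp only [nx]
    split_ifs with h
    · have hr : r = 1 := le_antisymm h hs.2.2.1
      subst hr
      simp only [Wup, py, pow_one]
      apply le_of_eq
      ring
    · obtain ⟨k, rfl⟩ : ∃ k, r = k + 1 := ⟨r - 1, by omega⟩
      simp only [Wup, py, Nat.add_sub_cancel, pow_succ]
      apply le_of_eq
      ring

/-- `min (1/j) (l 2^j) ≤ 2 / log (1/l)`. -/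
lemma min_bound {l : ℝ} (h0 : 0 < l) (h1 : l < 1) {j : ℕ} (hj : 1 ≤ j) {x : ℝ}
    (hx1 : x ≤ 1 / j) (hx2 : x ≤ l * 2 ^ j) : x ≤ 2 / Real.log (1 / l) := by
  have hL : 0 < Real.log (1 / l) := Real.log_pos (by rw [lt_div_iff₀ h0]; linarith)
  have hj0 : (0 : ℝ) < j := by exact_mod_cast hj
  rw [le_div_iff₀ hL]
  by_cases hc : Real.log (1 / l) ≤ 2 * j
  · calc x * Real.log (1 / l) ≤ (1 / j) * Real.log (1 / l) :=
          mul_le_mul_of_nonneg_right hx1 hL.le
      _ ≤ (1 / j) * (2 * j) := mul_le_mul_of_nonneg_left hc (by positivity)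
      _ = 2 := by field_simp
  · push Not at hc
    -- `j < log(1/l)/2`, so `2^j ≤ exp j ≤ l^{-1/2}`
    set L := Real.log (1 / l) with hLdef
    have h2 : (2 : ℝ) ^ j ≤ Real.exp (L / 2) := by
      have h3 : (2 : ℝ) ≤ Real.exp 1 := by
        have := Real.add_one_le_exp (1 : ℝ)
        linarith
      calc (2 : ℝ) ^ j ≤ (Real.exp 1) ^ j := pow_le_pow_left₀ (by norm_num) h3 j
        _ = Real.exp j := by rw [← Real.exp_nat_mul]; simp
        _ ≤ Real.exp (L / 2) := Real.exp_le_exp.2 (by linarith)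
    have hl : l = Real.exp (-L) := by
      rw [hLdef, Real.log_div one_ne_zero h0.ne', Real.log_one, zero_sub, neg_neg,
        Real.exp_log h0]
    have h4 : x ≤ Real.exp (-(L / 2)) := by
      calc x ≤ l * 2 ^ j := hx2
        _ ≤ l * Real.exp (L / 2) := mul_le_mul_of_nonneg_left h2 h0.le
        _ = Real.exp (-(L / 2)) := by
            rw [hl, ← Real.exp_add]
            congr 1
            ring
    have h5 : L / 2 ≤ Real.exp (L / 2) := by
      have := Real.add_one_le_exp (L / 2)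
      linarith
    calc x * L ≤ Real.exp (-(L / 2)) * L := mul_le_mul_of_nonneg_right h4 hL.le
      _ = 2 * (Real.exp (-(L / 2)) * (L / 2)) := by ring
      _ ≤ 2 * (Real.exp (-(L / 2)) * Real.exp (L / 2)) := by
          apply mul_le_mul_of_nonneg_left _ (by norm_num)
          exact mul_le_mul_of_nonneg_left h5 (Real.exp_pos _).le
      _ = 2 := by rw [← Real.exp_add]; simp

/-- Upper bound for the discounted payoffs. -/
lemma rdisc_upper {l : ℝ} (h0 : 0 < l) (h1 : l < 1) {s : St} (hs : s.Valid) (α : ℕ → ℕ) :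
    rdisc l s α ≤ vv s + 2 / Real.log (1 / l) := by
  have hL : 0 < Real.log (1 / l) := Real.log_pos (by rw [lt_div_iff₀ h0]; linarith)
  refine (rdisc_le h0 h1.le (Wup l) (fun s hs => Wup_nonneg h0 h1.le hs)
    (fun s hs a => Wup_super h0 h1.le hs a) hs α).trans ?_
  cases s with
  | ch p c =>
    simp only [Wup, vv]
    have : 0 ≤ 2 / Real.log (1 / l) := by positivity
    linarith
  | fl p j r =>
    obtain ⟨hp, hj, hr, hr2⟩ := hs
    simp only [Wup, vv]
    have hj0 : (0 : ℝ) < j := by exact_mod_cast hj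
    have h2 := dn_le hp.1 j
    have h3 := one_sub_pow_nonneg h0 h1.le r
    have h4 := le_dn p j
    have h5 := one_sub_pow_le h1.le r
    have h6 : 0 ≤ (1 - l) ^ r := pow_nonneg (by linarith) _
    have h7 : (p - dn p j) * (1 - (1 - l) ^ r) ≤ 2 / Real.log (1 / l) := by
      apply min_bound h0 h1 hj
      · calc (p - dn p j) * (1 - (1 - l) ^ r) ≤ (p - dn p j) * 1 :=
              mul_le_mul_of_nonneg_left (by linarith) (by linarith)
          _ ≤ 1 / j := by linarith
      · calc (p - dn p j) * (1 - (1 - l) ^ r) ≤ (1 / j) * (r * l) :=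
              mul_le_mul (by linarith) h5 h3 (by positivity)
          _ ≤ (1 / j) * ((j * 2 ^ j) * l) := by
              apply mul_le_mul_of_nonneg_left _ (by positivity)
              apply mul_le_mul_of_nonneg_right _ h0.le
              exact_mod_cast hr2
          _ = l * 2 ^ j := by field_simp
    linarith

end Pool.Agent.MP_ebfc19_pr
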