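import Pool.Agent.Lib.MP_ebfc19_pr.Defs

/-!
# MP_ebfc19_pr: the game

States: `ch p c` (charging, level `p`, charge `c`, payoff `0`) and `fl p j r` (flight with payoff
`p`, index `j`, `r` stages remaining). The action `j` in `ch p c` launches a flight with index `j`
if `1 ≤ j` and `2 ^ j ≤ c`, of `j * 2 ^ j` stages, and otherwise increases the charge by one.
After a flight with index `j` the level has decreased by `1 / j` and the charge is `0`.
-/

open MeasureTheory Filter

namespace Pool.Agent.MP_ebfc19_pr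

/-- Raw states. -/
inductive St : Type
  | ch (p : ℝ) (c : ℕ) : St
  | fl (p : ℝ) (j r : ℕ) : St

namespace St

/-- The level after a loss. -/
noncomputable def dn (p : ℝ) (j : ℕ) : ℝ := max (p - 1 / j) 0

/-- The valid states. -/
def Valid : St → Prop
  | ch p _ => 0 ≤ p ∧ p ≤ 1
  | fl p j r => (0 ≤ p ∧ p ≤ 1) ∧ 1 ≤ j ∧ 1 ≤ r ∧ r ≤ j * 2 ^ j

/-- The transition function. -/
noncomputable def nx : St → ℕ → St
  | ch p c, a => if 1 ≤ a ∧ 2 ^ a ≤ c then fl p a (a * 2 ^ a) else ch p (c + 1)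
  | fl p j r, _ => if r ≤ 1 then ch (dn p j) 0 else fl p j (r - 1)

/-- The payoff. -/
def py : St → ℝ
  | ch _ _ => 0
  | fl p _ _ => p

/-- The asymptotic discounted value. -/
noncomputable def vv : St → ℝ
  | ch p _ => p
  | fl p j _ => dn p j

end St

open St

lemma dn_nonneg (p : ℝ) (j : ℕ) : 0 ≤ dn p j := le_max_right _ _

lemma dn_le {p : ℝ} (hp : 0 ≤ p) (j : ℕ) : dn p j ≤ p := by
  apply max_le _ hp
  have : (0 : ℝ) ≤ 1 / j := by positivity
  linarith

lemma le_dn (p : ℝ) (j : ℕ) : p - 1 / j ≤ dn p j := le_max_left _ _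

lemma valid_nx {s : St} (hs : s.Valid) (a : ℕ) : (nx s a).Valid := by
  cases s with
  | ch p c =>
    simp only [nx]
    split_ifs with h
    · refine ⟨hs, h.1, ?_, le_refl _⟩
      have : 1 * 1 ≤ a * 2 ^ a := Nat.mul_le_mul h.1 Nat.one_le_two_pow
      simpa using this
    · exact hs
  | fl p j r =>
    obtain ⟨hp, hj, hr, hr2⟩ := hs
    simp only [nx]
    split_ifs with h
    · exact ⟨dn_nonneg _ _, (dn_le hp.1 j).trans hp.2⟩
    · refine ⟨hp, hj, by omega, by omega⟩

/-- The game. -/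
noncomputable def ex : Game where
  Ω := {s : St // s.Valid}
  next s a := ⟨nx s.1 a, valid_nx s.2 a⟩
  pay s _ := py s.1

/-- The raw states along a play. -/
noncomputable def rst (s : St) (α : ℕ → ℕ) : ℕ → St
  | 0 => s
  | t + 1 => nx (rst s α t) (α t)

lemma st_val (ω : ex.Ω) (α : ℕ → ℕ) (t : ℕ) : (ex.st ω α t).1 = rst ω.1 α t := by
  induction t with
  | zero => rfl
  | succ t ih =>
    show nx (ex.st ω α t).1 (α t) = nx (rst ω.1 α t) (α t)
    rw [ih]

lemma g_eq (ω : ex.Ω) (α : ℕ → ℕ) (t : ℕ) : ex.g ω α t = py (rst ω.1 α t) := by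
  show py (ex.st ω α t).1 = _
  rw [st_val]

lemma rst_valid {s : St} (hs : s.Valid) (α : ℕ → ℕ) (t : ℕ) : (rst s α t).Valid := by
  induction t with
  | zero => exact hs
  | succ t ih => exact valid_nx ih _

lemma rst_succ' (s : St) (α : ℕ → ℕ) (t : ℕ) :
    rst s α (t + 1) = rst (nx s (α 0)) (fun n => α (n + 1)) t := by
  induction t with
  | zero => rfl
  | succ t ih =>
    show nx (rst s α (t + 1)) (α (t + 1)) = nx (rst (nx s (α 0)) (fun n => α (n + 1)) t) (α (t + 1))
    rw [ih]

lemma py_nonneg {s : St} (hs : s.Valid) : 0 ≤ py s := by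
  cases s with
  | ch p c => exact le_refl _
  | fl p j r => exact hs.1.1

lemma py_le_one {s : St} (hs : s.Valid) : py s ≤ 1 := by
  cases s with
  | ch p c => exact zero_le_one
  | fl p j r => exact hs.1.2

lemma vv_nonneg {s : St} (hs : s.Valid) : 0 ≤ vv s := by
  cases s with
  | ch p c => exact hs.1
  | fl p j r => exact dn_nonneg _ _

lemma vv_le_one {s : St} (hs : s.Valid) : vv s ≤ 1 := by
  cases s with
  | ch p c => exact hs.2
  | fl p j r => exact (dn_le hs.1.1 j).trans hs.1.2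

end Pool.Agent.MP_ebfc19_pr
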