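import Pool.Agent.Lib.MP_ebfc19_pr.GEx

/-!
# MP_ebfc19_pr: the lower limit of the averages is `0` along every play (general rate)
-/

open MeasureTheory Filter Topology

namespace Pool.Agent.MP_ebfc19_pr

open St

namespace Gen

/-- Total payoff of the first `T` stages. -/
noncomputable def Gs (f : ℕ → ℝ) (s : St) (α : ℕ → ℕ) (T : ℕ) : ℝ :=
  ∑ t ∈ Finset.range T, py (rst f s α t)

variable {f : ℕ → ℝ} {D : ℝ}

lemma Gs_zero (s : St) (α : ℕ → ℕ) : Gs f s α 0 = 0 := by simp [Gs]

lemma Gs_succ (s : St) (α : ℕ → ℕ) (T : ℕ) :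
    Gs f s α (T + 1) = Gs f s α T + py (rst f s α T) := by
  unfold Gs
  rw [Finset.sum_range_succ]

/-- The charge. -/
def chg : St → ℕ
  | ch _ c => c
  | fl _ _ _ => 0

/-- The (virtual) landing time, shifted. -/
def Xf (k : ℕ) : St → ℕ → ℕ
  | ch _ c, t => t + k - c
  | fl _ _ r, t => t + r + k

/-- Remaining payoff of the current flight. -/
def rem : St → ℝ
  | ch _ _ => 0
  | fl p _ r => p * r

lemma rem_nonneg {s : St} (hs : Valid f s) : 0 ≤ rem s := by
  cases s with
  | ch p c => exact le_refl _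
  | fl p j r => exact mul_nonneg hs.1.1 (Nat.cast_nonneg r)

variable (hf : Good f D)

include hf

lemma Gs_nonneg {s : St} (hs : Valid f s) (α : ℕ → ℕ) (T : ℕ) : 0 ≤ Gs f s α T :=
  Finset.sum_nonneg fun t _ => py_nonneg (rst_valid hf hs α t)

lemma Gs_le {s : St} (hs : Valid f s) (α : ℕ → ℕ) (T : ℕ) : Gs f s α T ≤ T := by
  calc Gs f s α T ≤ ∑ t ∈ Finset.range T, (1 : ℝ) :=
        Finset.sum_le_sum fun t _ => py_le_one (rst_valid hf hs α t)
    _ = T := by simp

lemma inv_chg {s : St} (hs : Valid f s) (α : ℕ → ℕ) (t : ℕ) :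
    Gs f s α t + chg (rst f s α t) ≤ t + chg s := by
  induction t with
  | zero => simp [Gs_zero, rst]
  | succ t ih =>
    rw [Gs_succ]
    have h1 : rst f s α (t + 1) = nx f (rst f s α t) (α t) := rfl
    rw [h1]
    have hv := rst_valid hf hs α t
    rcases hS : rst f s α t with ⟨p, c⟩ | ⟨p, j, r⟩
    · rw [hS] at ih
      simp only [nx]
      split_ifs with h
      · simp only [chg, py] at ih ⊢
        push_cast
        have : (0 : ℝ) ≤ c := Nat.cast_nonneg c
        linarith
      · simp only [chg, py] at ih ⊢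
        push_cast
        linarith
    · rw [hS] at ih hv
      have hp : p ≤ 1 := hv.1.2
      simp only [nx]
      split_ifs with h
      · simp only [chg, py] at ih ⊢
        push_cast at ih ⊢
        linarith
      · simp only [chg, py] at ih ⊢
        push_cast at ih ⊢
        linarith

lemma chg_le {s : St} (hs : Valid f s) (α : ℕ → ℕ) (t : ℕ) :
    chg (rst f s α t) ≤ t + chg s := by
  have h1 := inv_chg hf hs α t
  have h2 := Gs_nonneg hf hs α t
  have h3 : ((chg (rst f s α t) : ℕ) : ℝ) ≤ ((t + chg s : ℕ) : ℝ) := by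
    push_cast
    linarith
  exact_mod_cast h3

lemma Gs_le_Xf {s : St} (hs : Valid f s) (α : ℕ → ℕ) (t : ℕ) :
    Gs f s α t ≤ Xf (chg s) (rst f s α t) t := by
  have h := inv_chg hf hs α t
  have h' := chg_le hf hs α t
  rcases hS : rst f s α t with ⟨p, c⟩ | ⟨p, j, r⟩
  · rw [hS] at h h'
    simp only [chg, Xf] at h h' ⊢
    rw [Nat.cast_sub h']
    push_cast
    linarith
  · rw [hS] at h
    simp only [chg, Xf] at h ⊢
    push_cast at h ⊢
    have : (0 : ℝ) ≤ r := Nat.cast_nonneg r
    linarith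

/-- Once the asymptotic value is `0`, the total payoff stays bounded. -/
lemma zero_bound {s : St} (hs : Valid f s) (α : ℕ → ℕ) {t : ℕ} (h0 : vv f (rst f s α t) = 0)
    (n : ℕ) : vv f (rst f s α (t + n)) = 0 ∧
      Gs f s α (t + n) + rem (rst f s α (t + n)) ≤ Gs f s α t + rem (rst f s α t) := by
  induction n with
  | zero => exact ⟨h0, le_refl _⟩
  | succ n ih =>
    obtain ⟨ih1, ih2⟩ := ih
    have h1 : rst f s α (t + (n + 1)) = nx f (rst f s α (t + n)) (α (t + n)) := rfl
    have h2 : Gs f s α (t + (n + 1)) = Gs f s α (t + n) + py (rst f s α (t + n)) :=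
      Gs_succ s α (t + n)
    rw [h1, h2]
    have hv := rst_valid hf hs α (t + n)
    rcases hS : rst f s α (t + n) with ⟨p, c⟩ | ⟨p, j, r⟩
    · rw [hS] at ih1 ih2
      have hp : p = 0 := ih1
      subst hp
      simp only [nx]
      split_ifs with h
      · refine ⟨?_, ?_⟩
        · simp only [vv, dg]
          apply max_eq_right
          have := hf.pos (α (t + n))
          linarith
        · simp only [rem, py] at ih2 ⊢
          linarith
      · refine ⟨rfl, ?_⟩
        simp only [rem, py] at ih2 ⊢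
        linarith
    · rw [hS] at ih1 ih2 hv
      simp only [nx]
      split_ifs with h
      · have hr : r = 1 := le_antisymm h hv.2.1
        subst hr
        refine ⟨ih1, ?_⟩
        simp only [rem, py] at ih2 ⊢
        push_cast at ih2
        linarith
      · obtain ⟨k, rfl⟩ : ∃ k, r = k + 1 := ⟨r - 1, by omega⟩
        refine ⟨ih1, ?_⟩
        simp only [rem, py, Nat.add_sub_cancel] at ih2 ⊢
        push_cast at ih2
        linarith

omit hf in
/-- The potential. -/
noncomputable def Pot (f : ℕ → ℝ) (n : ℕ) : ℝ := ∑ i ∈ Finset.range n, aa (f i)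

lemma f_lt_one (k : ℕ) : f k < 1 := (hf.half k).trans_lt (by norm_num)

lemma aaf_pos (k : ℕ) : 0 < aa (f k) := aa_pos (hf.pos k) (f_lt_one hf k)

lemma Pot_mono : Monotone (Pot f) := by
  apply monotone_nat_of_le_succ
  intro n
  unfold Pot
  rw [Finset.sum_range_succ]
  linarith [aaf_pos hf n]

lemma Pot_diff (m d : ℕ) : Pot f (m + d) ≤ Pot f m + d * aa (f m) := by
  induction d with
  | zero => simp
  | succ d ih =>
    have h1 : Pot f (m + (d + 1)) = Pot f (m + d) + aa (f (m + d)) := by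
      unfold Pot
      rw [← add_assoc, Finset.sum_range_succ]
    have h2 : aa (f (m + d)) ≤ aa (f m) :=
      aa_mono (hf.pos _) (hf.anti (by omega)) (f_lt_one hf m)
    rw [h1]
    push_cast
    linarith

lemma tendsto_Pot (hs : ¬ Summable fun k => aa (f k)) : Tendsto (Pot f) atTop atTop :=
  (not_summable_iff_tendsto_nat_atTop_of_nonneg fun k => (aaf_pos hf k).le).1 hs

/-- The core inequality. -/
lemma Pot_step {b X X' j : ℕ} {T : ℝ} (hT : (2 : ℝ) ^ j ≤ T) (hTX : T ≤ 2 ^ b * X)
    (hX' : (X' : ℝ) ≤ (1 + K f j) * T) :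
    Pot f (Nat.log 2 X') ≤ Pot f (Nat.log 2 X) +
      ((((b + 1) * Real.log 2 + Real.log (2 * D ^ b)) / Real.log 2 + 1) / Real.log 2 * D ^ b)
        * f j := by
  have hD := hf.one_le_D
  have hlog2 : 0 < Real.log 2 := Real.log_pos (by norm_num)
  set M := D ^ b with hM
  have hM1 : 1 ≤ M := one_le_pow₀ hD
  set ℓ := Nat.log 2 X with hℓ
  set ℓ' := Nat.log 2 X' with hℓ'
  have hfj := hf.pos j
  have hfl := hf.pos ℓ
  have hX2 : (X : ℝ) < 2 ^ (ℓ + 1) := by
    have : X < 2 ^ (ℓ + 1) := Nat.lt_pow_succ_log_self (by norm_num) X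
    exact_mod_cast this
  have hTpos : 0 < T := lt_of_lt_of_le (by positivity) hT
  have hTlt : T < 2 ^ (b + (ℓ + 1)) := by
    rw [pow_add]
    refine hTX.trans_lt ?_
    exact mul_lt_mul_of_pos_left hX2 (by positivity)
  have hjlt : j < b + (ℓ + 1) := by
    have h1 : (2 : ℝ) ^ j < 2 ^ (b + (ℓ + 1)) := hT.trans_lt hTlt
    exact (pow_lt_pow_iff_right₀ (by norm_num)).1 h1
  -- `f ℓ ≤ M f j`
  have hfM : f ℓ ≤ M * f j := by
    have h1 : f (ℓ + b) ≤ f j := hf.anti (by omega)
    have h2 := hf.steps ℓ b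
    have h3 : M * f (ℓ + b) ≤ M * f j := mul_le_mul_of_nonneg_left h1 (by linarith)
    linarith
  have hK : 1 + (K f j : ℝ) ≤ 2 * M / f ℓ := by
    refine (one_add_K_le hf j).trans ?_
    rw [div_le_div_iff₀ hfj hfl]
    linarith
  -- logarithms
  set lam := -Real.log (f ℓ) with hlam
  have hlam2 : Real.log 2 ≤ lam := by
    have h1 := Real.log_le_log hfl (hf.half ℓ)
    rw [one_div, Real.log_inv] at h1
    linarith
  have hlampos : 0 < lam := by linarith
  set A := (b + 1) * Real.log 2 + Real.log (2 * M) with hA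
  have hA0 : 0 ≤ A := by
    have h1 : 0 ≤ Real.log (2 * M) := Real.log_nonneg (by linarith)
    positivity
  set Γ := (A / Real.log 2 + 1) / Real.log 2 with hΓ
  have hΓ0 : 0 ≤ Γ := by positivity
  have hcoef : Γ * M * f j = Γ * (M * f j) := by ring
  rw [hcoef]
  have hgoal : Pot f ℓ' ≤ Pot f ℓ + Γ * f ℓ := by
    rcases Nat.lt_or_ge ℓ ℓ' with h | h
    · obtain ⟨d, hd⟩ : ∃ d, ℓ' = ℓ + d := ⟨ℓ' - ℓ, by omega⟩
      have hX'0 : X' ≠ 0 := by
        intro h0
        rw [h0] at hℓ'
        simp at hℓ'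
        omega
      have h1 : (2 : ℝ) ^ ℓ' ≤ X' := by
        have : 2 ^ ℓ' ≤ X' := Nat.pow_log_le_self 2 hX'0
        exact_mod_cast this
      have h2 : (2 : ℝ) ^ ℓ' ≤ (2 * M / f ℓ) * 2 ^ (b + (ℓ + 1)) := by
        refine (h1.trans hX').trans ?_
        exact mul_le_mul hK hTlt.le hTpos.le (by positivity)
      have h3 := Real.log_le_log (by positivity) h2
      rw [Real.log_pow, Real.log_mul (by positivity) (by positivity), Real.log_pow,
        Real.log_div (by positivity) hfl.ne', hd] at h3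
      push_cast at h3
      have h4 : (d : ℝ) * Real.log 2 ≤ A + lam := by
        rw [hA, hlam]
        linarith
      have h5 : A + lam ≤ (A / Real.log 2 + 1) * lam := by
        have h6 : A / Real.log 2 * Real.log 2 ≤ A / Real.log 2 * lam :=
          mul_le_mul_of_nonneg_left hlam2 (by positivity)
        rw [div_mul_cancel₀ _ hlog2.ne'] at h6
        linarith
      have h6 : (d : ℝ) ≤ Γ * lam := by
        rw [hΓ, div_mul_eq_mul_div, le_div_iff₀ hlog2]
        linarith
      have h7 := Pot_diff hf ℓ d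
      rw [← hd] at h7
      have h8 : (d : ℝ) * aa (f ℓ) ≤ Γ * lam * aa (f ℓ) :=
        mul_le_mul_of_nonneg_right h6 (aaf_pos hf ℓ).le
      have h9 : Γ * lam * aa (f ℓ) = Γ * f ℓ := by
        unfold aa
        rw [← hlam]
        field_simp
      linarith
    · have h1 := Pot_mono hf h
      have h2 : 0 ≤ Γ * f ℓ := by positivity
      linarith
  have h1 : Γ * f ℓ ≤ Γ * (M * f j) := mul_le_mul_of_nonneg_left hfM hΓ0
  linarith

/-- The potential decreases along plays. -/
lemma pot_step {s : St} (hs : Valid f s) (α : ℕ → ℕ) {a : ℝ} (ha : 0 < a) {b : ℕ}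
    (hb : 2 / a ≤ 2 ^ b) {t : ℕ} (hG : a * t ≤ Gs f s α t) (hK : chg s + 1 ≤ t)
    (hpos : 0 < vv f (rst f s α (t + 1))) :
    ((((b + 1) * Real.log 2 + Real.log (2 * D ^ b)) / Real.log 2 + 1) / Real.log 2 * D ^ b)
        * vv f (rst f s α (t + 1)) + Pot f (Nat.log 2 (Xf (chg s) (rst f s α (t + 1)) (t + 1))) ≤
      ((((b + 1) * Real.log 2 + Real.log (2 * D ^ b)) / Real.log 2 + 1) / Real.log 2 * D ^ b)
        * vv f (rst f s α t) + Pot f (Nat.log 2 (Xf (chg s) (rst f s α t) t)) := by
  have h1 : rst f s α (t + 1) = nx f (rst f s α t) (α t) := rfl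
  rw [h1] at hpos ⊢
  have hv := rst_valid hf hs α t
  have hinv := inv_chg hf hs α t
  have hX := Gs_le_Xf hf hs α t
  have hG0 := Gs_nonneg hf hs α t
  have hcl := chg_le hf hs α t
  have ht0 : (0 : ℝ) < t := by
    have : 0 < t := by omega
    exact_mod_cast this
  set Γ := ((((b + 1) * Real.log 2 + Real.log (2 * D ^ b)) / Real.log 2 + 1) / Real.log 2 * D ^ b)
    with hΓ
  rcases hS : rst f s α t with ⟨p, c⟩ | ⟨p, j, r⟩
  · rw [hS] at hpos hinv hv hX hcl
    simp only [nx] at hpos ⊢
    split_ifs at hpos ⊢ with h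
    · simp only [vv] at hpos ⊢
      have hdn : dg p (f (α t)) = p - f (α t) := by
        rcases max_choice (p - f (α t)) 0 with h | h
        · exact h
        · exfalso
          have : dg p (f (α t)) = 0 := h
          linarith
      rw [hdn]
      have hinv' : Gs f s α t + (c : ℝ) ≤ t + chg s := hinv
      have hcl' : c ≤ t + chg s := hcl
      have hc : (2 : ℝ) ^ (α t) ≤ c := by exact_mod_cast h
      have hK' : ((chg s : ℝ)) + 1 ≤ t := by exact_mod_cast hK
      have hXc : ((Xf (chg s) (ch p c) t : ℕ) : ℝ) = (t : ℝ) + chg s - c := by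
        simp only [Xf]
        rw [Nat.cast_sub hcl']
        push_cast
        ring
      have hX2 : a * t ≤ (Xf (chg s) (ch p c) t : ℕ) := hG.trans hX
      have hstep := Pot_step hf (b := b) (X := Xf (chg s) (ch p c) t)
        (X' := Xf (chg s) (fl p (α t) (K f (α t) * 2 ^ α t)) (t + 1)) (j := α t)
        (T := (t : ℝ) + chg s + 1) (by linarith) (by
          have h6 : (t : ℝ) ≤ (1 / a) * (Xf (chg s) (ch p c) t : ℕ) := by
            rw [one_div, ← div_eq_inv_mul, le_div_iff₀ ha]
            linarith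
          have h7 : (2 / a) * ((Xf (chg s) (ch p c) t : ℕ) : ℝ) =
              2 * ((1 / a) * (Xf (chg s) (ch p c) t : ℕ)) := by ring
          have h8 : (2 / a) * ((Xf (chg s) (ch p c) t : ℕ) : ℝ) ≤
              2 ^ b * (Xf (chg s) (ch p c) t : ℕ) :=
            mul_le_mul_of_nonneg_right hb (Nat.cast_nonneg _)
          linarith) (by
          simp only [Xf]
          push_cast
          have h8 : (K f (α t) : ℝ) * 2 ^ α t ≤ (K f (α t) : ℝ) * ((t : ℝ) + chg s + 1) := by
            apply mul_le_mul_of_nonneg_left _ (Nat.cast_nonneg _)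
            linarith
          linarith)
      rw [← hΓ] at hstep
      linarith
    · simp only [vv, Xf]
      have : t + 1 + chg s - (c + 1) = t + chg s - c := by omega
      rw [this]
  · rw [hS] at hpos hinv hv hX hcl
    simp only [nx] at hpos ⊢
    split_ifs at hpos ⊢ with h
    · have hr : r = 1 := le_antisymm h hv.2.1
      subst hr
      simp only [vv, Xf]
      have : t + 1 + chg s - 0 = t + 1 + chg s := by omega
      rw [this]
    · obtain ⟨k, rfl⟩ : ∃ k, r = k + 1 := ⟨r - 1, by omega⟩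
      simp only [vv, Xf, Nat.add_sub_cancel]
      have : t + 1 + k + chg s = t + (k + 1) + chg s := by ring
      rw [this]

/-- No play has averages eventually bounded below by a positive constant. -/
lemma no_linear (hsum : ¬ Summable fun k => aa (f k)) {s : St} (hs : Valid f s) (α : ℕ → ℕ)
    {a : ℝ} (ha : 0 < a) (t0 : ℕ) : ¬ ∀ t : ℕ, t0 ≤ t → a * t ≤ Gs f s α t := by
  intro hG
  have hat : Tendsto (fun t : ℕ => a * (t : ℝ)) atTop atTop :=
    tendsto_natCast_atTop_atTop.const_mul_atTop ha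
  by_cases hz : ∃ t, vv f (rst f s α t) = 0
  · obtain ⟨t, ht⟩ := hz
    obtain ⟨n, hn⟩ := ((hat.eventually_gt_atTop (Gs f s α t + rem (rst f s α t))).and
      (eventually_ge_atTop (max t0 t))).exists
    obtain ⟨m, rfl⟩ : ∃ m, n = t + m := ⟨n - t, by have := le_max_right t0 t; omega⟩
    have h1 := (zero_bound hf hs α ht m).2
    have h2 := hG (t + m) ((le_max_left t0 t).trans hn.2)
    have h3 : 0 ≤ rem (rst f s α (t + m)) := rem_nonneg (rst_valid hf hs α (t + m))
    have h4 := hn.1
    linarith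
  · push Not at hz
    have hpos : ∀ t, 0 < vv f (rst f s α t) := fun t =>
      lt_of_le_of_ne (vv_nonneg (rst_valid hf hs α t)) (Ne.symm (hz t))
    obtain ⟨b, hb⟩ := pow_unbounded_of_one_lt (2 / a) (one_lt_two (α := ℝ))
    set Γ := ((((b + 1) * Real.log 2 + Real.log (2 * D ^ b)) / Real.log 2 + 1) / Real.log 2 *
      D ^ b) with hΓ
    have hΓ0 : 0 ≤ Γ := by
      have hD := hf.one_le_D
      have hM1 : 1 ≤ D ^ b := one_le_pow₀ hD
      have hlog2 : 0 < Real.log 2 := Real.log_pos (by norm_num)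
      have h1 : 0 ≤ Real.log (2 * D ^ b) := Real.log_nonneg (by linarith)
      positivity
    set t1 := max t0 (chg s + 1) with ht1
    have hmono : ∀ n : ℕ, Γ * vv f (rst f s α (t1 + n)) +
        Pot f (Nat.log 2 (Xf (chg s) (rst f s α (t1 + n)) (t1 + n))) ≤
        Γ * vv f (rst f s α t1) + Pot f (Nat.log 2 (Xf (chg s) (rst f s α t1) t1)) := by
      intro n
      induction n with
      | zero => exact le_refl _
      | succ n ih =>
        have h3 : t1 ≤ t1 + n := Nat.le_add_right _ _
        exact (pot_step hf hs α ha hb.le (hG _ ((le_max_left _ _).trans h3))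
          ((le_max_right _ _).trans h3) (hpos _)).trans ih
    set M := Γ * vv f (rst f s α t1) + Pot f (Nat.log 2 (Xf (chg s) (rst f s α t1) t1))
    obtain ⟨N, hN⟩ := ((tendsto_Pot hf hsum).eventually_gt_atTop M).exists
    obtain ⟨n, hn⟩ := ((hat.eventually_ge_atTop (2 ^ N)).and (eventually_ge_atTop t1)).exists
    obtain ⟨m, rfl⟩ : ∃ m, n = t1 + m := ⟨n - t1, by omega⟩
    have h4 := hmono m
    have h5 := Gs_le_Xf hf hs α (t1 + m)
    have h6 := hG (t1 + m) ((le_max_left _ _).trans hn.2)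
    have h7 := vv_nonneg (rst_valid hf hs α (t1 + m))
    have h8 : (2 : ℝ) ^ N ≤ (Xf (chg s) (rst f s α (t1 + m)) (t1 + m) : ℕ) := by
      have := hn.1
      linarith
    have h9 : 2 ^ N ≤ Xf (chg s) (rst f s α (t1 + m)) (t1 + m) := by exact_mod_cast h8
    have h10 : N ≤ Nat.log 2 (Xf (chg s) (rst f s α (t1 + m)) (t1 + m)) := by
      calc N = Nat.log 2 (2 ^ N) := (Nat.log_pow (by norm_num) N).symm
        _ ≤ _ := Nat.log_mono_right h9
    have h11 := Pot_mono hf h10
    have h12 : 0 ≤ Γ * vv f (rst f s α (t1 + m)) := mul_nonneg hΓ0 h7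
    linarith

end Gen

end Pool.Agent.MP_ebfc19_pr
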