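import Pool.Agent.Lib.MP_ebfc19_pr.GDisc
import Pool.Agent.Lib.MP_ebfc19_pr.GLim

/-!
# MP_ebfc19_pr: large averages and the value (general rate)
-/

open MeasureTheory Filter Topology

namespace Pool.Agent.MP_ebfc19_pr

open St

namespace Gen

/-- Total payoff of the constant play. -/
noncomputable def Hs (f : ℕ → ℝ) (j : ℕ) (s : St) (T : ℕ) : ℝ := Gs f s (fun _ => j) T

variable {f : ℕ → ℝ} {D : ℝ}

lemma Hs_succ (j : ℕ) (s : St) (T : ℕ) : Hs f j s (T + 1) = py s + Hs f j (nx f s j) T := by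
  unfold Hs Gs
  rw [Finset.sum_range_succ']
  simp_rw [rst_succ']
  rw [add_comm]
  rfl

lemma Hs_fl (j : ℕ) (p : ℝ) (k T : ℕ) : ∀ r, 1 ≤ r →
    Hs f j (fl p k r) (r + T) = r * p + Hs f j (ch (dg p (f k)) 0) T := by
  intro r hr
  induction r, hr using Nat.le_induction with
  | base =>
    rw [add_comm 1 T, Hs_succ]
    simp [nx, py]
  | succ r hr ih =>
    rw [show r + 1 + T = (r + T) + 1 by ring, Hs_succ]
    have h2 : nx f (fl p k (r + 1)) j = fl p k r := by
      simp only [nx]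
      rw [if_neg (by omega)]
      rfl
    rw [h2, ih]
    simp only [py]
    push_cast
    ring

lemma Hs_fl_full (j : ℕ) (p : ℝ) (k r : ℕ) (hr : 1 ≤ r) : Hs f j (fl p k r) r = r * p := by
  have := Hs_fl (f := f) j p k 0 r hr
  simpa [Hs, Gs_zero] using this

lemma Hs_ch (j : ℕ) (p : ℝ) (T : ℕ) : ∀ m c, c + m = 2 ^ j →
    Hs f j (ch p c) (m + 1 + T) = Hs f j (fl p j (K f j * 2 ^ j)) T := by
  intro m
  induction m with
  | zero =>
    intro c hc
    rw [show 0 + 1 + T = T + 1 by ring, Hs_succ]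
    have h2 : nx f (ch p c) j = fl p j (K f j * 2 ^ j) := by
      simp only [nx]
      rw [if_pos (by omega)]
    rw [h2]
    simp [py]
  | succ m ih =>
    intro c hc
    rw [show m + 1 + 1 + T = (m + 1 + T) + 1 by ring, Hs_succ]
    have h2 : nx f (ch p c) j = ch p (c + 1) := by
      simp only [nx]
      rw [if_neg (by omega)]
    rw [h2, ih (c + 1) (by omega)]
    simp [py]

variable (hf : Good f D)

include hf

lemma eventually_K {C : ℝ} (hC : 0 < C) : ∀ᶠ j in atTop, C ≤ (K f j : ℝ) := by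
  filter_upwards [hf.lim.eventually_lt_const (show (0 : ℝ) < 1 / C by positivity)] with j hj
  refine le_trans ?_ (K_ge hf j)
  rw [le_div_iff₀ (hf.pos j)]
  rw [lt_div_iff₀ hC] at hj
  linarith

/-- From every state there are plays with averages close to `vv` at arbitrarily large times. -/
lemma exists_big {s : St} (hs : Valid f s) {ε : ℝ} (hε : 0 < ε) (T0 : ℕ) :
    ∃ T, T0 ≤ T ∧ 0 < T ∧ ∃ α, (vv f s - ε) * T ≤ Gs f s α T := by
  have main : ∀ (j m : ℕ), (m : ℝ) ≤ 3 * 2 ^ j → 3 / ε ≤ (K f j : ℝ) → ∀ x : ℝ, 0 ≤ x →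
      x ≤ 1 → (x - ε) * ((m + K f j * 2 ^ j : ℕ) : ℝ) ≤ ((K f j * 2 ^ j : ℕ) : ℝ) * x := by
    intro j m hm hjε x hx0 hx1
    push_cast
    rw [div_le_iff₀ hε] at hjε
    have h1 : (0 : ℝ) < 2 ^ j := by positivity
    have h2 : x * m ≤ 1 * (3 * 2 ^ j) := mul_le_mul hx1 hm (Nat.cast_nonneg m) zero_le_one
    have h3 : (3 : ℝ) * 2 ^ j ≤ (K f j * ε) * 2 ^ j := mul_le_mul_of_nonneg_right hjε h1.le
    have h4 : 0 ≤ ε * m := mul_nonneg hε.le (Nat.cast_nonneg m)
    nlinarith
  have hpow : Tendsto (fun j : ℕ => 2 ^ j) atTop atTop :=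
    tendsto_pow_atTop_atTop_of_one_lt one_lt_two
  cases s with
  | ch p c =>
    obtain ⟨j, h2, h3⟩ := ((hpow.eventually_ge_atTop (c + T0)).and
      (eventually_K hf (show 0 < 3 / ε by positivity))).exists
    have h1 : 1 ≤ K f j := by have := K_ge_two hf j; omega
    have h2' : c + T0 ≤ 2 ^ j := h2
    refine ⟨(2 ^ j - c) + 1 + K f j * 2 ^ j, ?_, by omega, fun _ => j, ?_⟩
    · have : 1 * 2 ^ j ≤ K f j * 2 ^ j := Nat.mul_le_mul_right _ h1
      omega
    · have h5 : Gs f (ch p c) (fun _ => j) ((2 ^ j - c) + 1 + K f j * 2 ^ j) =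
          ((K f j * 2 ^ j : ℕ) : ℝ) * p := by
        have h6 := Hs_ch (f := f) j p (K f j * 2 ^ j) (2 ^ j - c) c (by omega)
        have h7 : 1 ≤ K f j * 2 ^ j := by
          have : 1 * 1 ≤ K f j * 2 ^ j := Nat.mul_le_mul h1 Nat.one_le_two_pow
          omega
        rw [Hs_fl_full j p j _ h7] at h6
        exact h6
      rw [h5]
      simp only [vv]
      apply main j ((2 ^ j - c) + 1) _ h3 p hs.1 hs.2
      have h8 : (2 ^ j - c) + 1 ≤ 3 * 2 ^ j := by
        have := Nat.one_le_two_pow (n := j)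
        omega
      exact_mod_cast h8
  | fl p k r =>
    obtain ⟨hp, hr, -⟩ := hs
    obtain ⟨j, h2, h3⟩ := ((hpow.eventually_ge_atTop (r + T0)).and
      (eventually_K hf (show 0 < 3 / ε by positivity))).exists
    have h1 : 1 ≤ K f j := by have := K_ge_two hf j; omega
    have h2' : r + T0 ≤ 2 ^ j := h2
    refine ⟨(r + (2 ^ j + 1)) + K f j * 2 ^ j, ?_, by omega, fun _ => j, ?_⟩
    · have : 1 * 2 ^ j ≤ K f j * 2 ^ j := Nat.mul_le_mul_right _ h1
      omega
    · have h5 : Gs f (fl p k r) (fun _ => j) ((r + (2 ^ j + 1)) + K f j * 2 ^ j) =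
          r * p + ((K f j * 2 ^ j : ℕ) : ℝ) * dg p (f k) := by
        have h6 := Hs_fl (f := f) j p k ((2 ^ j + 1) + K f j * 2 ^ j) r hr
        have h7 : 1 ≤ K f j * 2 ^ j := by
          have : 1 * 1 ≤ K f j * 2 ^ j := Nat.mul_le_mul h1 Nat.one_le_two_pow
          omega
        have h8 := Hs_ch (f := f) j (dg p (f k)) (K f j * 2 ^ j) (2 ^ j) 0 (by omega)
        rw [Hs_fl_full j _ j _ h7] at h8
        rw [h8, ← add_assoc] at h6
        exact h6
      rw [h5]
      simp only [vv]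
      have h9 := main j (r + (2 ^ j + 1)) (by
        have h8 : r + (2 ^ j + 1) ≤ 3 * 2 ^ j := by
          have := Nat.one_le_two_pow (n := j)
          omega
        exact_mod_cast h8) h3 (dg p (f k)) (dg_nonneg _ _)
          ((dg_le hp.1 (hf.pos k).le).trans hp.2)
      have h10 : 0 ≤ (r : ℝ) * p := mul_nonneg (Nat.cast_nonneg r) hp.1
      linarith

lemma avg_eq (ω : (gex f D hf).Ω) (T : ℕ) (α : ℕ → ℕ) :
    (gex f D hf).avg ω T α = Gs f ω.1 α T / T := by
  unfold Game.avg Gs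
  simp_rw [g_eq]

lemma avg_nonneg (ω : (gex f D hf).Ω) (T : ℕ) (α : ℕ → ℕ) : 0 ≤ (gex f D hf).avg ω T α := by
  rw [avg_eq]
  exact div_nonneg (Gs_nonneg hf ω.2 α T) (Nat.cast_nonneg T)

lemma avg_le_one (ω : (gex f D hf).Ω) (T : ℕ) (α : ℕ → ℕ) : (gex f D hf).avg ω T α ≤ 1 := by
  rw [avg_eq]
  exact div_le_one_of_le₀ (Gs_le hf ω.2 α T) (Nat.cast_nonneg T)

lemma bddAbove (ω : (gex f D hf).Ω) (α : ℕ → ℕ) :
    IsBoundedUnder (· ≤ ·) atTop (fun T => (gex f D hf).avg ω T α) :=
  isBoundedUnder_of ⟨1, fun T => avg_le_one hf ω T α⟩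

lemma bddBelow (ω : (gex f D hf).Ω) (α : ℕ → ℕ) :
    IsBoundedUnder (· ≥ ·) atTop (fun T => (gex f D hf).avg ω T α) :=
  isBoundedUnder_of ⟨0, fun T => avg_nonneg hf ω T α⟩

/-- Along every play the lower limit of the averages is `0`. -/
lemma liminf_eq (hsum : ¬ Summable fun k => aa (f k)) (ω : (gex f D hf).Ω) (α : ℕ → ℕ) :
    liminf (fun T => (gex f D hf).avg ω T α) atTop = 0 := by
  apply le_antisymm
  · by_contra hc
    push Not at hc
    set x := liminf (fun T => (gex f D hf).avg ω T α) atTop with hx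
    have h1 : ∀ᶠ T in atTop, x / 2 < (gex f D hf).avg ω T α :=
      eventually_lt_of_lt_liminf (by rw [← hx]; linarith) (bddBelow hf ω α)
    obtain ⟨t0, ht0⟩ := eventually_atTop.1 (h1.and (eventually_gt_atTop 0))
    apply no_linear hf hsum ω.2 α (show 0 < x / 2 by linarith) t0
    intro t ht
    obtain ⟨h2, h3⟩ := ht0 t ht
    rw [avg_eq, lt_div_iff₀ (by exact_mod_cast h3)] at h2
    exact h2.le
  · exact le_liminf_of_le (bddAbove hf ω α).isCoboundedUnder_ge
      (Eventually.of_forall fun T => avg_nonneg hf ω T α)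

omit hf in
/-- The asymptotic discounted value, as a function on the states of the game. -/
noncomputable def vex (hf : Good f D) (ω : (gex f D hf).Ω) : ℝ := vv f ω.1

lemma exists_big' (ω : (gex f D hf).Ω) {ε : ℝ} (hε : 0 < ε) (T0 : ℕ) :
    ∃ T, T0 ≤ T ∧ ∃ α, vex hf ω - ε ≤ (gex f D hf).avg ω T α := by
  obtain ⟨T, h1, h2, α, h3⟩ := exists_big hf ω.2 hε T0
  refine ⟨T, h1, α, ?_⟩
  rw [avg_eq, le_div_iff₀ (by exact_mod_cast h2)]
  exact h3

/-- If the asymptotic discounted value is `0`, the game has the value `0`. -/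
lemma hasValue_zero (hsum : ¬ Summable fun k => aa (f k)) (ω : (gex f D hf).Ω)
    (h : vex hf ω = 0) : (gex f D hf).HasValue ω 0 := by
  intro ε hε
  have hb : ∀ α T, Gs f ω.1 α T ≤ rem ω.1 := by
    intro α T
    have h1 := (zero_bound hf ω.2 α (t := 0) h T).2
    have h2 : (0 : ℕ) + T = T := Nat.zero_add T
    rw [h2] at h1
    have h3 := rem_nonneg (rst_valid hf ω.2 α T)
    have h4 : rst f ω.1 α 0 = ω.1 := rfl
    rw [Gs_zero, h4] at h1
    linarith
  constructor
  · refine ⟨⟨Measure.dirac (fun _ => 0), inferInstance⟩, 0, ?_, ?_⟩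
    · intro T _
      have : 0 ≤ ∫ α, (gex f D hf).avg ω T α ∂(Measure.dirac (fun _ => 0)) :=
        integral_nonneg fun α => avg_nonneg hf ω T α
      exact le_trans (by linarith) this
    · simp_rw [liminf_eq hf hsum]
      simp only [integral_zero]
      linarith
  · obtain ⟨N, hN⟩ := exists_nat_ge (rem ω.1 / ε)
    refine ⟨N + 1, fun μ => ⟨?_, ?_⟩⟩
    · intro T hT
      have h1 : ∀ α, (gex f D hf).avg ω T α ≤ ε := by
        intro α
        have hT0 : (0 : ℝ) < T := by
          have : 0 < T := by omega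
          exact_mod_cast this
        rw [avg_eq, div_le_iff₀ hT0]
        rw [div_le_iff₀ hε] at hN
        have h2 : (N : ℝ) ≤ T := by
          have : N ≤ T := by omega
          exact_mod_cast this
        have h3 : (N : ℝ) * ε ≤ T * ε := mul_le_mul_of_nonneg_right h2 hε.le
        have := hb α T
        linarith
      rw [zero_add]
      by_cases hi : Integrable (fun α => (gex f D hf).avg ω T α) (μ : Measure (ℕ → ℕ))
      · calc ∫ α, (gex f D hf).avg ω T α ∂(μ : Measure (ℕ → ℕ))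
            ≤ ∫ _, ε ∂(μ : Measure (ℕ → ℕ)) := integral_mono hi (integrable_const ε) h1
          _ = ε := by simp
      · rw [integral_undef hi]
        exact hε.le
    · have h1 : ∀ α, limsup (fun T => (gex f D hf).avg ω T α) atTop = 0 := by
        intro α
        apply Tendsto.limsup_eq
        have h2 : Tendsto (fun T : ℕ => rem ω.1 / (T : ℝ)) atTop (𝓝 0) :=
          tendsto_const_nhds.div_atTop tendsto_natCast_atTop_atTop
        refine squeeze_zero (fun T => avg_nonneg hf ω T α) (fun T => ?_) h2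
        rw [avg_eq]
        exact div_le_div_of_nonneg_right (hb α T) (Nat.cast_nonneg T)
      simp_rw [h1]
      simp only [integral_zero]
      linarith

/-- If the asymptotic discounted value is positive, the game has no value. -/
lemma no_value (hsum : ¬ Summable fun k => aa (f k)) (ω : (gex f D hf).Ω) (h : 0 < vex hf ω)
    (x : ℝ) : ¬ (gex f D hf).HasValue ω x := by
  intro hx
  obtain ⟨⟨μ, T1, -, h1⟩, -⟩ := hx (vex hf ω / 4) (by linarith)
  obtain ⟨-, T0, h2⟩ := hx (vex hf ω / 4) (by linarith)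
  simp_rw [liminf_eq hf hsum] at h1
  simp only [integral_zero] at h1
  obtain ⟨T, hT, α, h3⟩ := exists_big' hf ω (show 0 < vex hf ω / 4 by linarith) T0
  have h4 := (h2 ⟨Measure.dirac α, inferInstance⟩).1 T hT
  have h5 : ∫ β, (gex f D hf).avg ω T β ∂(Measure.dirac α) = (gex f D hf).avg ω T α :=
    integral_dirac _ _
  have h6 : (gex f D hf).avg ω T α ≤ x + vex hf ω / 4 := by
    rw [← h5]
    exact h4
  linarith

/-- The discounted values converge uniformly at the rate `C f(k)`. -/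
lemma vdisc_bound (ω : (gex f D hf).Ω) {k : ℕ} {l : ℝ} (h0 : 0 < l) (hk : l ≤ (1 / 2) ^ k) :
    |(gex f D hf).vdisc l ω - vex hf ω| ≤ (18 * D ^ 2 + 2 * D / f 0) * f k := by
  have h1 : l ≤ 1 := hk.trans (pow_le_one₀ (by norm_num) (by norm_num))
  have hD := hf.one_le_D
  have hfk := hf.pos k
  have hf0 := hf.pos 0
  have hupper : ∀ μ : ProbabilityMeasure (ℕ → ℕ),
      ∫ α, (gex f D hf).disc l ω α ∂(μ : Measure (ℕ → ℕ)) ≤ vex hf ω + 2 * D * f k := by
    intro μ
    have h2 : ∀ α, (gex f D hf).disc l ω α ≤ vex hf ω + 2 * D * f k := by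
      intro α
      rw [disc_eq]
      exact rdisc_upper hf h0 hk ω.2 α
    by_cases hi : Integrable (fun α => (gex f D hf).disc l ω α) (μ : Measure (ℕ → ℕ))
    · calc ∫ α, (gex f D hf).disc l ω α ∂(μ : Measure (ℕ → ℕ))
          ≤ ∫ _, (vex hf ω + 2 * D * f k) ∂(μ : Measure (ℕ → ℕ)) :=
            integral_mono hi (integrable_const _) h2
        _ = _ := by simp
    · rw [integral_undef hi]
      have h3 : 0 ≤ vex hf ω := vv_nonneg ω.2
      have h4 : 0 ≤ 2 * D * f k := by positivity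
      linarith
  obtain ⟨j, hj⟩ := exists_good' hf h0 hk
  have hlower : vex hf ω - (18 * D ^ 2 + 2 * D / f 0) * f k ≤ (gex f D hf).vdisc l ω := by
    have h2 := hj ω.1 ω.2
    rw [← disc_eq] at h2
    refine h2.trans ?_
    have h3 : ∫ β, (gex f D hf).disc l ω β ∂(Measure.dirac (fun _ => j)) =
        (gex f D hf).disc l ω (fun _ => j) := integral_dirac _ _
    rw [← h3]
    exact le_ciSup (f := fun μ : ProbabilityMeasure (ℕ → ℕ) =>
      ∫ α, (gex f D hf).disc l ω α ∂(μ : Measure (ℕ → ℕ)))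
      ⟨_, by rintro _ ⟨μ, rfl⟩; exact hupper μ⟩ ⟨Measure.dirac (fun _ => j), inferInstance⟩
  have hup : (gex f D hf).vdisc l ω ≤ vex hf ω + 2 * D * f k := by
    have : Nonempty (ProbabilityMeasure (ℕ → ℕ)) :=
      ⟨⟨Measure.dirac (fun _ => 0), inferInstance⟩⟩
    exact ciSup_le hupper
  have h5 : 2 * D * f k ≤ (18 * D ^ 2 + 2 * D / f 0) * f k := by
    apply mul_le_mul_of_nonneg_right _ hfk.le
    have h6 : 0 ≤ 2 * D / f 0 := by positivity
    nlinarith
  rw [abs_le]
  constructor <;> linarith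

end Gen

end Pool.Agent.MP_ebfc19_pr
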