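import Pool.Agent.Lib.MP_ebfc19_pr.Disc

/-!
# MP_ebfc19_pr: lower bound for the discounted values
-/

open MeasureTheory Filter Topology

set_option linter.unusedSectionVars false
set_option linter.unusedVariables false

namespace Pool.Agent.MP_ebfc19_pr

open St

/-- The value of launching index `j` forever (continuation value reduced by `B`). -/
noncomputable def Yv (l B : ℝ) (j : ℕ) (p : ℝ) : ℝ :=
  p * (1 - (1 - l) ^ (j * 2 ^ j)) + (1 - l) ^ (j * 2 ^ j) * (dn p j - B)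

/-- The subsolution. -/
noncomputable def Wlo (l B : ℝ) (j : ℕ) : St → ℝ
  | ch p c => (1 - l) ^ ((2 ^ j - c) + 1) * Yv l B j p
  | fl p i r => p * (1 - (1 - l) ^ r) + (1 - l) ^ r * (dn p i - B)

section

variable {l B : ℝ} {j : ℕ} (h0 : 0 < l) (h1 : l ≤ 1) (hB : 0 ≤ B) (hj : 1 ≤ j)
  (hB2 : l * (2 ^ j + 1) + (1 - l) ^ (j * 2 ^ j) / j ≤ B * (1 - (1 - l) ^ (j * 2 ^ j)))

include h0 h1 hB

lemma Yv_le {p : ℝ} (hp : 0 ≤ p) : Yv l B j p ≤ p := by
  have h2 := dn_le hp j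
  have h3 : 0 ≤ (1 - l) ^ (j * 2 ^ j) := pow_nonneg (by linarith) _
  have h4 : (1 - l) ^ (j * 2 ^ j) * (dn p j - B) ≤ (1 - l) ^ (j * 2 ^ j) * p :=
    mul_le_mul_of_nonneg_left (by linarith) h3
  unfold Yv
  linarith

include hj hB2

lemma Yv_ge {p : ℝ} (hp1 : p ≤ 1) (hp : 0 ≤ p) :
    p - B + l * (2 ^ j + 1) ≤ Yv l B j p := by
  have h2 := le_dn p j
  have h3 : 0 ≤ (1 - l) ^ (j * 2 ^ j) := pow_nonneg (by linarith) _
  have h4 : (1 - l) ^ (j * 2 ^ j) * (p - 1 / j - B) ≤ (1 - l) ^ (j * 2 ^ j) * (dn p j - B) :=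
    mul_le_mul_of_nonneg_left (by linarith) h3
  have h5 : (1 - l) ^ (j * 2 ^ j) / j = (1 - l) ^ (j * 2 ^ j) * (1 / j) := by ring
  unfold Yv
  rw [h5] at hB2
  nlinarith

lemma pow_Yv_ge {p : ℝ} (hp1 : p ≤ 1) (hp : 0 ≤ p) {k : ℕ} (hk : k ≤ 2 ^ j + 1) :
    p - B ≤ (1 - l) ^ k * Yv l B j p := by
  have h2 := Yv_ge h0 h1 hB hj hB2 hp1 hp
  have h3 := Yv_le (j := j) h0 h1 hB hp
  have h4 : 0 ≤ (1 - l) ^ k := pow_nonneg (by linarith) _
  have h5 : (1 - l) ^ k ≤ 1 := pow_le_one₀ (by linarith) (by linarith)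
  have h6 : 1 - (1 - l) ^ k ≤ k * l := one_sub_pow_le h1 k
  have h7 : (k : ℝ) ≤ 2 ^ j + 1 := by exact_mod_cast hk
  have h8 : (k : ℝ) * l ≤ (2 ^ j + 1) * l := mul_le_mul_of_nonneg_right h7 h0.le
  rcases le_total 0 (Yv l B j p) with hY | hY
  · have h9 : (1 - (1 - l) ^ k) * Yv l B j p ≤ (1 - (1 - l) ^ k) * 1 :=
      mul_le_mul_of_nonneg_left (h3.trans hp1) (by linarith)
    nlinarith
  · have h9 : 0 ≤ l * (2 ^ j + 1) := by positivity
    have h10 : 1 * Yv l B j p ≤ (1 - l) ^ k * Yv l B j p :=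
      mul_le_mul_of_nonpos_right h5 hY
    linarith

lemma Wlo_le_one {s : St} (hs : s.Valid) : Wlo l B j s ≤ 1 := by
  cases s with
  | ch p c =>
    have h3 := Yv_le (j := j) h0 h1 hB hs.1
    have h4 : 0 ≤ (1 - l) ^ ((2 ^ j - c) + 1) := pow_nonneg (by linarith) _
    have h5 : (1 - l) ^ ((2 ^ j - c) + 1) ≤ 1 := pow_le_one₀ (by linarith) (by linarith)
    have hp1 : p ≤ 1 := hs.2
    simp only [Wlo]
    calc (1 - l) ^ ((2 ^ j - c) + 1) * Yv l B j p ≤ (1 - l) ^ ((2 ^ j - c) + 1) * 1 :=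
          mul_le_mul_of_nonneg_left (h3.trans hp1) h4
      _ ≤ 1 := by linarith
  | fl p i r =>
    obtain ⟨hp, -⟩ := hs
    have h2 := dn_le hp.1 i
    have h3 : 0 ≤ (1 - l) ^ r := pow_nonneg (by linarith) _
    have h4 : (1 - l) ^ r * (dn p i - B) ≤ (1 - l) ^ r * p :=
      mul_le_mul_of_nonneg_left (by linarith) h3
    have hp1 : p ≤ 1 := hp.2
    simp only [Wlo]
    linarith

lemma Wlo_sub {s : St} (hs : s.Valid) :
    Wlo l B j s ≤ l * py s + (1 - l) * Wlo l B j (nx s j) := by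
  cases s with
  | ch p c =>
    simp only [nx]
    split_ifs with h
    · have h2 : 2 ^ j - c = 0 := by omega
      simp only [Wlo, py, Yv, h2]
      apply le_of_eq
      ring
    · have h2 : c < 2 ^ j := by
        by_contra hc
        exact h ⟨hj, by omega⟩
      have h3 : 2 ^ j - c = (2 ^ j - (c + 1)) + 1 := by omega
      simp only [Wlo, py]
      rw [h3]
      apply le_of_eq
      ring
  | fl p i r =>
    obtain ⟨hp, hi, hr, hr2⟩ := hs
    simp only [nx]
    split_ifs with h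
    · have hr' : r = 1 := le_antisymm h hr
      subst hr'
      have h2 := pow_Yv_ge h0 h1 hB hj hB2 ((dn_le hp.1 i).trans hp.2) (dn_nonneg p i)
        (k := (2 ^ j - 0) + 1) (Nat.succ_le_succ (Nat.sub_le _ _))
      have h3 := mul_le_mul_of_nonneg_left h2 (show (0 : ℝ) ≤ 1 - l by linarith)
      simp only [Wlo, py, pow_one]
      linarith
    · obtain ⟨k, rfl⟩ : ∃ k, r = k + 1 := ⟨r - 1, by omega⟩
      simp only [Wlo, py, Nat.add_sub_cancel, pow_succ]
      apply le_of_eq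
      ring

lemma le_Wlo {s : St} (hs : s.Valid) : vv s - B ≤ Wlo l B j s := by
  cases s with
  | ch p c =>
    simp only [Wlo, vv]
    exact pow_Yv_ge h0 h1 hB hj hB2 hs.2 hs.1 (Nat.succ_le_succ (Nat.sub_le _ _))
  | fl p i r =>
    obtain ⟨hp, -⟩ := hs
    have h2 := dn_le hp.1 i
    have h3 : 0 ≤ (1 - l) ^ r := pow_nonneg (by linarith) _
    have h5 : (1 - l) ^ r ≤ 1 := pow_le_one₀ (by linarith) (by linarith)
    have h6 : dn p i * (1 - (1 - l) ^ r) ≤ p * (1 - (1 - l) ^ r) :=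
      mul_le_mul_of_nonneg_right h2 (by linarith)
    have h7 : (1 - l) ^ r * B ≤ 1 * B := mul_le_mul_of_nonneg_right h5 hB
    simp only [Wlo, vv]
    linarith

lemma rdisc_lower {s : St} (hs : s.Valid) : vv s - B ≤ rdisc l s (fun _ => j) :=
  (le_Wlo h0 h1 hB hj hB2 hs).trans
    (le_rdisc h0 h1 (Wlo l B j) j (fun _ h => Wlo_le_one h0 h1 hB hj hB2 h)
      (fun _ h => Wlo_sub h0 h1 hB hj hB2 h) hs)

end

lemma exists_index {l : ℝ} (h0 : 0 < l) : ∃ j : ℕ, 1 ≤ l * (j * 2 ^ j) := by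
  obtain ⟨n, hn⟩ := exists_nat_ge (1 / l)
  refine ⟨n, ?_⟩
  rw [div_le_iff₀ h0] at hn
  have h2 : (1 : ℝ) ≤ 2 ^ n := one_le_pow₀ (by norm_num)
  have h3 : (n : ℝ) * 1 ≤ n * 2 ^ n := mul_le_mul_of_nonneg_left h2 (Nat.cast_nonneg n)
  have h4 : l * n ≤ l * (n * 2 ^ n) := by
    apply mul_le_mul_of_nonneg_left _ h0.le
    linarith
  linarith

lemma exp_neg_one_le : Real.exp (-1) ≤ 1 / 2 := by
  have h := Real.add_one_le_exp (1 : ℝ)
  have h2 : Real.exp (-1) * Real.exp 1 = 1 := by rw [← Real.exp_add]; simp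
  nlinarith [Real.exp_pos (-1)]

/-- For every `l ≤ 1/2` there is a constant play with discounted payoff at least
`v - 34 / log (1/l)` from every state. -/
lemma exists_good {l : ℝ} (h0 : 0 < l) (h1 : l ≤ 1 / 2) :
    ∃ j : ℕ, ∀ s : St, s.Valid → vv s - 34 / Real.log (1 / l) ≤ rdisc l s (fun _ => j) := by
  classical
  set j := Nat.find (exists_index h0) with hjdef
  have hj1 : 1 ≤ l * (j * 2 ^ j) := Nat.find_spec (exists_index h0)
  have hjpos : 1 ≤ j := by
    rcases Nat.eq_zero_or_pos j with h | h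
    · rw [h] at hj1
      norm_num at hj1
    · exact h
  have hj0 : (0 : ℝ) < j := by exact_mod_cast hjpos
  have hN : l * 2 ^ j * j ≤ 4 := by
    obtain ⟨i, hi⟩ : ∃ i, j = i + 1 := ⟨j - 1, by omega⟩
    rcases Nat.eq_zero_or_pos i with h | h
    · rw [hi, h]
      norm_num
      linarith
    · have h2 : ¬ 1 ≤ l * (i * 2 ^ i) := Nat.find_min (exists_index h0) (by omega)
      push Not at h2
      rw [hi]
      have h3 : (1 : ℝ) ≤ i := by exact_mod_cast h
      have h4 : 0 < l * 2 ^ i := by positivity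
      rw [pow_succ]
      push_cast
      nlinarith
  set γ := (1 - l) ^ (j * 2 ^ j) with hγ
  have hγ2 : γ ≤ 1 / 2 := by
    have h2 : 1 - l ≤ Real.exp (-l) := Real.one_sub_le_exp_neg l
    calc γ ≤ (Real.exp (-l)) ^ (j * 2 ^ j) := pow_le_pow_left₀ (by linarith) h2 _
      _ = Real.exp (-(l * (j * 2 ^ j))) := by
          rw [← Real.exp_nat_mul]
          congr 1
          push_cast
          ring
      _ ≤ Real.exp (-1) := Real.exp_le_exp.2 (by linarith)
      _ ≤ 1 / 2 := exp_neg_one_le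
  have hγ0 : 0 ≤ γ := pow_nonneg (by linarith) _
  set B : ℝ := 2 * (l * (2 ^ j + 1)) + 1 / j with hBdef
  have hB0 : 0 ≤ B := by positivity
  have hB2 : l * (2 ^ j + 1) + γ / j ≤ B * (1 - γ) := by
    have h2 : B * (1 / 2) ≤ B * (1 - γ) := mul_le_mul_of_nonneg_left (by linarith) hB0
    have h3 : γ / j ≤ (1 / 2) / j := div_le_div_of_nonneg_right hγ2 hj0.le
    have h4 : B * (1 / 2) = l * (2 ^ j + 1) + (1 / 2) / j := by
      rw [hBdef]; ring
    linarith
  have hB3 : B ≤ 34 / Real.log (1 / l) := by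
    have hL : 0 < Real.log (1 / l) := Real.log_pos (by rw [lt_div_iff₀ h0]; linarith)
    have hLj : Real.log (1 / l) ≤ 2 * j := by
      have h2 : 1 / l ≤ j * 2 ^ j := by rw [div_le_iff₀ h0]; linarith
      calc Real.log (1 / l) ≤ Real.log (j * 2 ^ j) := Real.log_le_log (by positivity) h2
        _ = Real.log j + j * Real.log 2 := by
            rw [Real.log_mul hj0.ne' (by positivity), Real.log_pow]
        _ ≤ j + j * 1 := by
            have h3 : Real.log j ≤ j - 1 := Real.log_le_sub_one_of_pos hj0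
            have h4 : Real.log 2 ≤ 1 := by
              have := Real.log_le_sub_one_of_pos (show (0 : ℝ) < 2 by norm_num)
              linarith
            have h5 : (j : ℝ) * Real.log 2 ≤ j * 1 := mul_le_mul_of_nonneg_left h4 hj0.le
            linarith
        _ = 2 * j := by ring
    rw [le_div_iff₀ hL]
    have h2 : B * j ≤ 17 := by
      have h3 : B * j = 2 * (l * 2 ^ j * j) + 2 * (l * j) + 1 := by
        rw [hBdef]
        field_simp
      have h4 : l * j ≤ l * 2 ^ j * j := by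
        have h5 : (1 : ℝ) ≤ 2 ^ j := one_le_pow₀ (by norm_num)
        have h6 : l * 1 ≤ l * 2 ^ j := mul_le_mul_of_nonneg_left h5 h0.le
        apply mul_le_mul_of_nonneg_right _ hj0.le
        linarith
      rw [h3]
      linarith
    calc B * Real.log (1 / l) ≤ B * (2 * j) := mul_le_mul_of_nonneg_left hLj hB0
      _ = 2 * (B * j) := by ring
      _ ≤ 34 := by linarith
  refine ⟨j, fun s hs => ?_⟩
  have h2 := rdisc_lower h0 (by linarith) hB0 hjpos hB2 hs
  linarith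

end Pool.Agent.MP_ebfc19_pr
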