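import Pool.Agent.Lib.MP_ebfc19_pr.GEx
import Pool.Agent.Lib.MP_ebfc19_pr.Low

/-!
# MP_ebfc19_pr: bounds for the discounted payoffs of the general game
-/

set_option linter.unusedSectionVars false
set_option linter.unusedVariables false

open MeasureTheory Filter Topology

namespace Pool.Agent.MP_ebfc19_pr

open St

namespace Gen

/-- Raw discounted payoff. -/
noncomputable def rdisc (f : ℕ → ℝ) (l : ℝ) (s : St) (α : ℕ → ℕ) : ℝ :=
  ∑' t : ℕ, l * (1 - l) ^ t * py (rst f s α t)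

variable {f : ℕ → ℝ} {D : ℝ} (hf : Good f D)

include hf

lemma disc_eq (l : ℝ) (ω : (gex f D hf).Ω) (α : ℕ → ℕ) :
    (gex f D hf).disc l ω α = rdisc f l ω.1 α := by
  unfold Game.disc rdisc
  simp_rw [g_eq]

lemma term_nonneg {l : ℝ} (h0 : 0 < l) (h1 : l ≤ 1) {s : St} (hs : Valid f s) (α : ℕ → ℕ)
    (t : ℕ) : 0 ≤ l * (1 - l) ^ t * py (rst f s α t) := by
  have : 0 ≤ (1 - l) ^ t := pow_nonneg (by linarith) _
  have := py_nonneg (rst_valid hf hs α t)
  positivity

lemma summ {l : ℝ} (h0 : 0 < l) (h1 : l ≤ 1) {s : St} (hs : Valid f s) (α : ℕ → ℕ) :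
    Summable fun t : ℕ => l * (1 - l) ^ t * py (rst f s α t) := by
  refine Summable.of_nonneg_of_le (term_nonneg hf h0 h1 hs α)
    (f := fun t => l * (1 - l) ^ t) ?_ ?_
  · intro t
    have h2 : 0 ≤ l * (1 - l) ^ t := mul_nonneg h0.le (pow_nonneg (by linarith) _)
    calc l * (1 - l) ^ t * py (rst f s α t) ≤ l * (1 - l) ^ t * 1 :=
          mul_le_mul_of_nonneg_left (py_le_one (rst_valid hf hs α t)) h2
      _ = _ := mul_one _
  · exact (summable_geometric_of_lt_one (by linarith) (by linarith)).mul_left l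

/-- Supersolutions bound the discounted payoff from above. -/
lemma rdisc_le {l : ℝ} (h0 : 0 < l) (h1 : l ≤ 1) (W : St → ℝ) (hW : ∀ s, Valid f s → 0 ≤ W s)
    (h : ∀ s, Valid f s → ∀ a, l * py s + (1 - l) * W (nx f s a) ≤ W s) {s : St}
    (hs : Valid f s) (α : ℕ → ℕ) : rdisc f l s α ≤ W s := by
  have key : ∀ n, ∑ t ∈ Finset.range n, l * (1 - l) ^ t * py (rst f s α t)
      + (1 - l) ^ n * W (rst f s α n) ≤ W s := by
    intro n
    induction n with
    | zero => simp [rst]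
    | succ n ih =>
      rw [Finset.sum_range_succ]
      have h2 := h _ (rst_valid hf hs α n) (α n)
      have h3 : 0 ≤ (1 - l) ^ n := pow_nonneg (by linarith) _
      have h4 := mul_le_mul_of_nonneg_left h2 h3
      have h5 : rst f s α (n + 1) = nx f (rst f s α n) (α n) := rfl
      rw [h5, pow_succ]
      linarith
  unfold rdisc
  apply Real.tsum_le_of_sum_range_le (term_nonneg hf h0 h1 hs α)
  intro n
  have h2 := key n
  have h3 : 0 ≤ (1 - l) ^ n * W (rst f s α n) :=
    mul_nonneg (pow_nonneg (by linarith) _) (hW _ (rst_valid hf hs α n))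
  linarith

/-- Subsolutions along a constant action bound the discounted payoff from below. -/
lemma le_rdisc {l : ℝ} (h0 : 0 < l) (h1 : l ≤ 1) (w : St → ℝ) (j : ℕ)
    (hw : ∀ s, Valid f s → w s ≤ 1)
    (h : ∀ s, Valid f s → w s ≤ l * py s + (1 - l) * w (nx f s j)) {s : St} (hs : Valid f s) :
    w s ≤ rdisc f l s (fun _ => j) := by
  have key : ∀ n, w s ≤ ∑ t ∈ Finset.range n, l * (1 - l) ^ t * py (rst f s (fun _ => j) t)
      + (1 - l) ^ n * w (rst f s (fun _ => j) n) := by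
    intro n
    induction n with
    | zero => simp [rst]
    | succ n ih =>
      rw [Finset.sum_range_succ]
      have h2 := h _ (rst_valid hf hs (fun _ => j) n)
      have h3 : 0 ≤ (1 - l) ^ n := pow_nonneg (by linarith) _
      have h4 := mul_le_mul_of_nonneg_left h2 h3
      have h5 : rst f s (fun _ => j) (n + 1) = nx f (rst f s (fun _ => j) n) j := rfl
      rw [h5, pow_succ]
      linarith
  have key2 : ∀ n, w s ≤ rdisc f l s (fun _ => j) + (1 - l) ^ n := by
    intro n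
    have h2 : ∑ t ∈ Finset.range n, l * (1 - l) ^ t * py (rst f s (fun _ => j) t)
        ≤ rdisc f l s (fun _ => j) :=
      (summ hf h0 h1 hs _).sum_le_tsum _ (fun t _ => term_nonneg hf h0 h1 hs _ t)
    have h3 : (1 - l) ^ n * w (rst f s (fun _ => j) n) ≤ (1 - l) ^ n * 1 :=
      mul_le_mul_of_nonneg_left (hw _ (rst_valid hf hs _ n)) (pow_nonneg (by linarith) _)
    have := key n
    linarith
  have hlim : Tendsto (fun n : ℕ => rdisc f l s (fun _ => j) + (1 - l) ^ n) atTop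
      (𝓝 (rdisc f l s (fun _ => j) + 0)) :=
    tendsto_const_nhds.add (tendsto_pow_atTop_nhds_zero_of_lt_one (by linarith) (by linarith))
  rw [add_zero] at hlim
  exact ge_of_tendsto' hlim key2

/-- The discounted payoff lies in `[0, 1]`. -/
lemma rdisc_nonneg {l : ℝ} (h0 : 0 < l) (h1 : l ≤ 1) {s : St} (hs : Valid f s) (α : ℕ → ℕ) :
    0 ≤ rdisc f l s α := tsum_nonneg (term_nonneg hf h0 h1 hs α)

lemma rdisc_le_one {l : ℝ} (h0 : 0 < l) (h1 : l ≤ 1) {s : St} (hs : Valid f s) (α : ℕ → ℕ) :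
    rdisc f l s α ≤ 1 :=
  rdisc_le hf h0 h1 (fun _ => 1) (fun _ _ => zero_le_one)
    (fun s hs _ => by
      have h2 := py_le_one hs
      have h3 : l * py s ≤ l * 1 := mul_le_mul_of_nonneg_left h2 h0.le
      linarith) hs α

/-- The supersolution. -/
noncomputable def Wup (f : ℕ → ℝ) (l : ℝ) : St → ℝ
  | ch p _ => p
  | fl p j r => dg p (f j) + (p - dg p (f j)) * (1 - (1 - l) ^ r)

lemma Wup_le_p {l : ℝ} (h0 : 0 < l) (h1 : l ≤ 1) {p : ℝ} (hp : 0 ≤ p) (j r : ℕ) :
    Wup f l (fl p j r) ≤ p := by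
  have h2 := dg_le hp (hf.pos j).le
  have h3 := one_sub_pow_nonneg h0 h1 r
  have h4 : 0 ≤ (1 - l) ^ r := pow_nonneg (by linarith) _
  have h5 : (p - dg p (f j)) * (1 - (1 - l) ^ r) ≤ (p - dg p (f j)) * 1 :=
    mul_le_mul_of_nonneg_left (by linarith) (by linarith)
  simp only [Wup]
  linarith

lemma Wup_nonneg {l : ℝ} (h0 : 0 < l) (h1 : l ≤ 1) {s : St} (hs : Valid f s) :
    0 ≤ Wup f l s := by
  cases s with
  | ch p c => exact hs.1
  | fl p j r =>
    have h2 := dg_le hs.1.1 (hf.pos j).le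
    have h3 := one_sub_pow_nonneg h0 h1 r
    have h4 := dg_nonneg p (f j)
    have h5 : 0 ≤ (p - dg p (f j)) * (1 - (1 - l) ^ r) := mul_nonneg (by linarith) h3
    simp only [Wup]
    linarith

lemma Wup_super {l : ℝ} (h0 : 0 < l) (h1 : l ≤ 1) {s : St} (hs : Valid f s) (a : ℕ) :
    l * py s + (1 - l) * Wup f l (nx f s a) ≤ Wup f l s := by
  cases s with
  | ch p c =>
    have hp : 0 ≤ p := hs.1
    have h2 : Wup f l (nx f (ch p c) a) ≤ p := by
      simp only [nx]
      split_ifs with h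
      · exact Wup_le_p hf h0 h1 hp _ _
      · exact le_refl _
    have h3 : (1 - l) * Wup f l (nx f (ch p c) a) ≤ (1 - l) * p :=
      mul_le_mul_of_nonneg_left h2 (by linarith)
    have h4 : 0 ≤ l * p := mul_nonneg h0.le hp
    simp only [py]
    have h5 : Wup f l (ch p c) = p := rfl
    rw [h5]
    linarith
  | fl p j r =>
    simp only [nx]
    split_ifs with h
    · have hr : r = 1 := le_antisymm h hs.2.1
      subst hr
      simp only [Wup, py, pow_one]
      apply le_of_eq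
      ring
    · obtain ⟨k, rfl⟩ : ∃ k, r = k + 1 := ⟨r - 1, by omega⟩
      simp only [Wup, py, Nat.add_sub_cancel, pow_succ]
      apply le_of_eq
      ring

/-- Upper bound for the discounted payoffs. -/
lemma rdisc_upper {k : ℕ} {l : ℝ} (h0 : 0 < l) (hk : l ≤ (1 / 2) ^ k) {s : St}
    (hs : Valid f s) (α : ℕ → ℕ) : rdisc f l s α ≤ vv f s + 2 * D * f k := by
  have h1 : l ≤ 1 := hk.trans (pow_le_one₀ (by norm_num) (by norm_num))
  have hD := hf.one_le_D
  have hfk := hf.pos k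
  refine (rdisc_le hf h0 h1 (Wup f l) (fun s hs => Wup_nonneg hf h0 h1 hs)
    (fun s hs a => Wup_super hf h0 h1 hs a) hs α).trans ?_
  cases s with
  | ch p c =>
    simp only [Wup, vv]
    have : 0 ≤ 2 * D * f k := by positivity
    linarith
  | fl p j r =>
    obtain ⟨hp, hr, hr2⟩ := hs
    simp only [Wup, vv]
    have hfj := hf.pos j
    have h2 := dg_le hp.1 hfj.le
    have h3 := one_sub_pow_nonneg h0 h1 r
    have h4 := le_dg p (f j)
    have h5 := one_sub_pow_le h1 r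
    have h6 : 0 ≤ (1 - l) ^ r := pow_nonneg (by linarith) _
    have hx1 : (p - dg p (f j)) * (1 - (1 - l) ^ r) ≤ f j := by
      calc (p - dg p (f j)) * (1 - (1 - l) ^ r) ≤ (p - dg p (f j)) * 1 :=
              mul_le_mul_of_nonneg_left (by linarith) (by linarith)
        _ ≤ f j := by linarith
    have hx2 : (p - dg p (f j)) * (1 - (1 - l) ^ r) ≤ 2 * (2 ^ j * l) := by
      calc (p - dg p (f j)) * (1 - (1 - l) ^ r) ≤ f j * (r * l) :=
              mul_le_mul (by linarith) h5 h3 hfj.le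
        _ ≤ f j * ((K f j * 2 ^ j) * l) := by
            apply mul_le_mul_of_nonneg_left _ hfj.le
            apply mul_le_mul_of_nonneg_right _ h0.le
            exact_mod_cast hr2
        _ = (K f j * f j) * (2 ^ j * l) := by ring
        _ ≤ 2 * (2 ^ j * l) :=
            mul_le_mul_of_nonneg_right (K_mul_le hf j) (by positivity)
    have h7 : (p - dg p (f j)) * (1 - (1 - l) ^ r) ≤ 2 * D * f k := by
      rcases Nat.lt_or_ge k j with h | h
      · have h8 : f j ≤ f k := hf.anti h.le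
        have h9 : 1 * f k ≤ D * f k := mul_le_mul_of_nonneg_right hD hfk.le
        linarith
      · have h8 := hf.reg j k h
        have h9 : (2 : ℝ) ^ j * l ≤ (1 / 2) ^ (k - j) := by
          have h10 : (2 : ℝ) ^ j * l ≤ 2 ^ j * (1 / 2) ^ k :=
            mul_le_mul_of_nonneg_left hk (by positivity)
          have h11 : (2 : ℝ) ^ j * (1 / 2) ^ k = (1 / 2) ^ (k - j) := by
            obtain ⟨d, rfl⟩ : ∃ d, k = j + d := ⟨k - j, by omega⟩
            rw [Nat.add_sub_cancel_left, pow_add, ← mul_assoc, ← mul_pow]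
            norm_num
          linarith
        rcases le_total (f j) ((1 / 2) ^ (k - j)) with h10 | h10
        · rw [min_eq_left h10] at h8
          linarith
        · rw [min_eq_right h10] at h8
          linarith
    linarith

/-- The value of launching index `j` forever (continuation value reduced by `B`). -/
noncomputable def Yv (f : ℕ → ℝ) (l B : ℝ) (j : ℕ) (p : ℝ) : ℝ :=
  p * (1 - (1 - l) ^ (K f j * 2 ^ j)) + (1 - l) ^ (K f j * 2 ^ j) * (dg p (f j) - B)

/-- The subsolution. -/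
noncomputable def Wlo (f : ℕ → ℝ) (l B : ℝ) (j : ℕ) : St → ℝ
  | ch p c => (1 - l) ^ ((2 ^ j - c) + 1) * Yv f l B j p
  | fl p i r => p * (1 - (1 - l) ^ r) + (1 - l) ^ r * (dg p (f i) - B)

section

variable {l B : ℝ} {j : ℕ} (h0 : 0 < l) (h1 : l ≤ 1) (hB : 0 ≤ B)
  (hB2 : l * (2 ^ j + 1) + (1 - l) ^ (K f j * 2 ^ j) * f j ≤ B * (1 - (1 - l) ^ (K f j * 2 ^ j)))

include h0 h1 hB

lemma Yv_le {p : ℝ} (hp : 0 ≤ p) : Yv f l B j p ≤ p := by
  have h2 := dg_le hp (hf.pos j).le
  have h3 : 0 ≤ (1 - l) ^ (K f j * 2 ^ j) := pow_nonneg (by linarith) _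
  have h4 : (1 - l) ^ (K f j * 2 ^ j) * (dg p (f j) - B) ≤ (1 - l) ^ (K f j * 2 ^ j) * p :=
    mul_le_mul_of_nonneg_left (by linarith) h3
  unfold Yv
  linarith

include hB2

lemma Yv_ge {p : ℝ} (hp1 : p ≤ 1) (hp : 0 ≤ p) :
    p - B + l * (2 ^ j + 1) ≤ Yv f l B j p := by
  have h2 := le_dg p (f j)
  have h3 : 0 ≤ (1 - l) ^ (K f j * 2 ^ j) := pow_nonneg (by linarith) _
  have h4 : (1 - l) ^ (K f j * 2 ^ j) * (p - f j - B) ≤
      (1 - l) ^ (K f j * 2 ^ j) * (dg p (f j) - B) :=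
    mul_le_mul_of_nonneg_left (by linarith) h3
  unfold Yv
  linarith

lemma pow_Yv_ge {p : ℝ} (hp1 : p ≤ 1) (hp : 0 ≤ p) {k : ℕ} (hk : k ≤ 2 ^ j + 1) :
    p - B ≤ (1 - l) ^ k * Yv f l B j p := by
  have h2 := Yv_ge hf h0 h1 hB hB2 hp1 hp
  have h3 := Yv_le hf (j := j) h0 h1 hB hp
  have h4 : 0 ≤ (1 - l) ^ k := pow_nonneg (by linarith) _
  have h5 : (1 - l) ^ k ≤ 1 := pow_le_one₀ (by linarith) (by linarith)
  have h6 : 1 - (1 - l) ^ k ≤ k * l := one_sub_pow_le h1 k
  have h7 : (k : ℝ) ≤ 2 ^ j + 1 := by exact_mod_cast hk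
  have h8 : (k : ℝ) * l ≤ (2 ^ j + 1) * l := mul_le_mul_of_nonneg_right h7 h0.le
  rcases le_total 0 (Yv f l B j p) with hY | hY
  · have h9 : (1 - (1 - l) ^ k) * Yv f l B j p ≤ (1 - (1 - l) ^ k) * 1 :=
      mul_le_mul_of_nonneg_left (h3.trans hp1) (by linarith)
    nlinarith
  · have h9 : 0 ≤ l * (2 ^ j + 1) := by positivity
    have h10 : 1 * Yv f l B j p ≤ (1 - l) ^ k * Yv f l B j p :=
      mul_le_mul_of_nonpos_right h5 hY
    linarith

lemma Wlo_le_one {s : St} (hs : Valid f s) : Wlo f l B j s ≤ 1 := by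
  cases s with
  | ch p c =>
    have h3 := Yv_le hf (j := j) h0 h1 hB hs.1
    have h4 : 0 ≤ (1 - l) ^ ((2 ^ j - c) + 1) := pow_nonneg (by linarith) _
    have h5 : (1 - l) ^ ((2 ^ j - c) + 1) ≤ 1 := pow_le_one₀ (by linarith) (by linarith)
    have hp1 : p ≤ 1 := hs.2
    simp only [Wlo]
    calc (1 - l) ^ ((2 ^ j - c) + 1) * Yv f l B j p ≤ (1 - l) ^ ((2 ^ j - c) + 1) * 1 :=
          mul_le_mul_of_nonneg_left (h3.trans hp1) h4
      _ ≤ 1 := by linarith
  | fl p i r =>
    obtain ⟨hp, -⟩ := hs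
    have h2 := dg_le hp.1 (hf.pos i).le
    have h3 : 0 ≤ (1 - l) ^ r := pow_nonneg (by linarith) _
    have h4 : (1 - l) ^ r * (dg p (f i) - B) ≤ (1 - l) ^ r * p :=
      mul_le_mul_of_nonneg_left (by linarith) h3
    have hp1 : p ≤ 1 := hp.2
    simp only [Wlo]
    linarith

lemma Wlo_sub {s : St} (hs : Valid f s) :
    Wlo f l B j s ≤ l * py s + (1 - l) * Wlo f l B j (nx f s j) := by
  cases s with
  | ch p c =>
    simp only [nx]
    split_ifs with h
    · have h2 : 2 ^ j - c = 0 := by omega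
      simp only [Wlo, py, Yv, h2]
      apply le_of_eq
      ring
    · have h2 : c < 2 ^ j := by omega
      have h3 : 2 ^ j - c = (2 ^ j - (c + 1)) + 1 := by omega
      simp only [Wlo, py]
      rw [h3]
      apply le_of_eq
      ring
  | fl p i r =>
    obtain ⟨hp, hr, hr2⟩ := hs
    simp only [nx]
    split_ifs with h
    · have hr' : r = 1 := le_antisymm h hr
      subst hr'
      have h2 := pow_Yv_ge hf h0 h1 hB hB2 ((dg_le hp.1 (hf.pos i).le).trans hp.2)
        (dg_nonneg p (f i)) (k := (2 ^ j - 0) + 1) (Nat.succ_le_succ (Nat.sub_le _ _))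
      have h3 := mul_le_mul_of_nonneg_left h2 (show (0 : ℝ) ≤ 1 - l by linarith)
      simp only [Wlo, py, pow_one]
      linarith
    · obtain ⟨k, rfl⟩ : ∃ k, r = k + 1 := ⟨r - 1, by omega⟩
      simp only [Wlo, py, Nat.add_sub_cancel, pow_succ]
      apply le_of_eq
      ring

lemma le_Wlo {s : St} (hs : Valid f s) : vv f s - B ≤ Wlo f l B j s := by
  cases s with
  | ch p c =>
    simp only [Wlo, vv]
    exact pow_Yv_ge hf h0 h1 hB hB2 hs.2 hs.1 (Nat.succ_le_succ (Nat.sub_le _ _))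
  | fl p i r =>
    obtain ⟨hp, -⟩ := hs
    have h2 := dg_le hp.1 (hf.pos i).le
    have h3 : 0 ≤ (1 - l) ^ r := pow_nonneg (by linarith) _
    have h5 : (1 - l) ^ r ≤ 1 := pow_le_one₀ (by linarith) (by linarith)
    have h6 : dg p (f i) * (1 - (1 - l) ^ r) ≤ p * (1 - (1 - l) ^ r) :=
      mul_le_mul_of_nonneg_right h2 (by linarith)
    have h7 : (1 - l) ^ r * B ≤ 1 * B := mul_le_mul_of_nonneg_right h5 hB
    simp only [Wlo, vv]
    linarith

lemma rdisc_lower {s : St} (hs : Valid f s) : vv f s - B ≤ rdisc f l s (fun _ => j) :=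
  (le_Wlo hf h0 h1 hB hB2 hs).trans
    (le_rdisc hf h0 h1 (Wlo f l B j) j (fun _ h => Wlo_le_one hf h0 h1 hB hB2 h)
      (fun _ h => Wlo_sub hf h0 h1 hB hB2 h) hs)

end

lemma exists_index' {l : ℝ} (h0 : 0 < l) : ∃ j : ℕ, 1 ≤ l * (K f j * 2 ^ j) := by
  obtain ⟨j, hj⟩ := pow_unbounded_of_one_lt (1 / l) (one_lt_two (α := ℝ))
  refine ⟨j, ?_⟩
  rw [div_lt_iff₀ h0] at hj
  have h1 : (2 : ℝ) ≤ K f j := by exact_mod_cast K_ge_two hf j
  have h2 : (1 : ℝ) * 2 ^ j ≤ K f j * 2 ^ j :=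
    mul_le_mul_of_nonneg_right (by linarith) (by positivity)
  have h3 : l * 2 ^ j ≤ l * (K f j * 2 ^ j) := by
    apply mul_le_mul_of_nonneg_left _ h0.le
    linarith
  linarith

/-- There is a constant play with discounted payoff at least `v - C f(k)` from every state. -/
lemma exists_good' {k : ℕ} {l : ℝ} (h0 : 0 < l) (hk : l ≤ (1 / 2) ^ k) :
    ∃ j : ℕ, ∀ s : St, Valid f s →
      vv f s - (18 * D ^ 2 + 2 * D / f 0) * f k ≤ rdisc f l s (fun _ => j) := by
  classical
  have h1 : l ≤ 1 := hk.trans (pow_le_one₀ (by norm_num) (by norm_num))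
  have hD := hf.one_le_D
  have hfk := hf.pos k
  have hf0 := hf.pos 0
  set j := Nat.find (exists_index' hf h0) with hjdef
  have hj1 : 1 ≤ l * (K f j * 2 ^ j) := Nat.find_spec (exists_index' hf h0)
  have hfj := hf.pos j
  -- `f j ≤ 2 D f k`
  have hfjk : f j ≤ 2 * D * f k := by
    rcases Nat.lt_or_ge k j with h | h
    · have h8 : f j ≤ f k := hf.anti h.le
      have h9 : 1 * f k ≤ D * f k := mul_le_mul_of_nonneg_right hD hfk.le
      linarith
    · have h8 := hf.reg j k h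
      have h9 : (2 : ℝ) ^ j * l ≤ (1 / 2) ^ (k - j) := by
        have h10 : (2 : ℝ) ^ j * l ≤ 2 ^ j * (1 / 2) ^ k :=
          mul_le_mul_of_nonneg_left hk (by positivity)
        have h11 : (2 : ℝ) ^ j * (1 / 2) ^ k = (1 / 2) ^ (k - j) := by
          obtain ⟨d, hd⟩ : ∃ d, k = j + d := ⟨k - j, by omega⟩
          rw [hd, Nat.add_sub_cancel_left, pow_add, ← mul_assoc, ← mul_pow]
          norm_num
        linarith
      have h10 : f j ≤ 2 * (1 / 2) ^ (k - j) := by
        have h11 : 1 * f j ≤ l * (K f j * 2 ^ j) * f j := mul_le_mul_of_nonneg_right hj1 hfj.le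
        have h12 : l * (K f j * 2 ^ j) * f j = (K f j * f j) * (2 ^ j * l) := by ring
        have h13 : (K f j * f j) * (2 ^ j * l) ≤ 2 * (2 ^ j * l) :=
          mul_le_mul_of_nonneg_right (K_mul_le hf j) (by positivity)
        linarith
      have h11 : f j / 2 ≤ min (f j) ((1 / 2) ^ (k - j)) := le_min (by linarith) (by linarith)
      linarith
  by_cases hj0 : j = 0
  · -- trivial case
    refine ⟨0, fun s hs => ?_⟩
    have h2 := rdisc_nonneg hf h0 h1 hs (fun _ => 0)
    have h3 := vv_le_one hf hs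
    rw [hj0] at hfjk
    have h4 : 1 ≤ 2 * D / f 0 * f k := by
      rw [div_mul_eq_mul_div, le_div_iff₀ hf0]
      linarith
    have h5 : 0 ≤ 18 * D ^ 2 * f k := by positivity
    have h6 : (18 * D ^ 2 + 2 * D / f 0) * f k = 18 * D ^ 2 * f k + 2 * D / f 0 * f k := by ring
    linarith
  obtain ⟨i, hi⟩ : ∃ i, j = i + 1 := ⟨j - 1, by omega⟩
  have hN : l * 2 ^ j ≤ 2 * (D * f j) := by
    have h2 : ¬ 1 ≤ l * (K f i * 2 ^ i) := Nat.find_min (exists_index' hf h0) (by omega)
    push Not at h2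
    have hfi := hf.pos i
    have h3 : f i ≤ D * f j := by rw [hi]; exact hf.step i
    have h4 : l * 2 ^ i ≤ f i := by
      have h5 : l * 2 ^ i * (1 / f i) ≤ l * 2 ^ i * K f i :=
        mul_le_mul_of_nonneg_left (K_ge hf i) (by positivity)
      have h6 : l * 2 ^ i * (1 / f i) ≤ 1 := by linarith
      rw [mul_one_div, div_le_one hfi] at h6
      exact h6
    rw [hi, pow_succ]
    rw [hi] at h3
    linarith
  set γ := (1 - l) ^ (K f j * 2 ^ j) with hγ
  have hγ2 : γ ≤ 1 / 2 := by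
    have h2 : 1 - l ≤ Real.exp (-l) := Real.one_sub_le_exp_neg l
    calc γ ≤ (Real.exp (-l)) ^ (K f j * 2 ^ j) := pow_le_pow_left₀ (by linarith) h2 _
      _ = Real.exp (-(l * (K f j * 2 ^ j))) := by
          rw [← Real.exp_nat_mul]
          congr 1
          push_cast
          ring
      _ ≤ Real.exp (-1) := Real.exp_le_exp.2 (by linarith)
      _ ≤ 1 / 2 := exp_neg_one_le
  have hγ0 : 0 ≤ γ := pow_nonneg (by linarith) _
  set B : ℝ := 2 * (l * (2 ^ j + 1)) + f j with hBdef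
  have hB0 : 0 ≤ B := by positivity
  have hB2 : l * (2 ^ j + 1) + γ * f j ≤ B * (1 - γ) := by
    have h2 : B * (1 / 2) ≤ B * (1 - γ) := mul_le_mul_of_nonneg_left (by linarith) hB0
    have h3 : γ * f j ≤ (1 / 2) * f j := mul_le_mul_of_nonneg_right hγ2 hfj.le
    have h4 : B * (1 / 2) = l * (2 ^ j + 1) + (1 / 2) * f j := by
      rw [hBdef]; ring
    linarith
  have hB3 : B ≤ (18 * D ^ 2 + 2 * D / f 0) * f k := by
    have h2 : l ≤ l * 2 ^ j := by
      have h5 : (1 : ℝ) ≤ 2 ^ j := one_le_pow₀ (by norm_num)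
      have h6 : l * 1 ≤ l * 2 ^ j := mul_le_mul_of_nonneg_left h5 h0.le
      linarith
    have h3 : B ≤ 9 * (D * f j) := by
      have h4 : 1 * f j ≤ D * f j := mul_le_mul_of_nonneg_right hD hfj.le
      rw [hBdef]
      linarith
    have h5 : D * f j ≤ D * (2 * D * f k) := mul_le_mul_of_nonneg_left hfjk (by linarith)
    have h6 : 0 ≤ 2 * D / f 0 * f k := by positivity
    have h7 : (18 * D ^ 2 + 2 * D / f 0) * f k = 9 * (D * (2 * D * f k)) + 2 * D / f 0 * f k := by
      ring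
    linarith
  refine ⟨j, fun s hs => ?_⟩
  have h2 := rdisc_lower hf h0 h1 hB0 hB2 hs
  linarith

end Gen

end Pool.Agent.MP_ebfc19_pr
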