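import Pool.Agent.Lib.MP_ebfc19_pr.Ex
import Pool.Agent.Lib.MP_ebfc19_pr.DCrit

/-!
# MP_ebfc19_pr: the game for a general rate `f`

As in `Ex.lean`, but a flight with index `j` lasts `K j * 2 ^ j` stages, `K j = ⌈1 / f j⌉`, and
costs `f j`.
-/

open MeasureTheory Filter Topology

namespace Pool.Agent.MP_ebfc19_pr

open St

namespace Gen

/-- The level after a loss. -/
noncomputable def dg (p x : ℝ) : ℝ := max (p - x) 0

/-- The relative length of a flight. -/
noncomputable def K (f : ℕ → ℝ) (j : ℕ) : ℕ := ⌈1 / f j⌉₊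

/-- The valid states. -/
def Valid (f : ℕ → ℝ) : St → Prop
  | ch p _ => 0 ≤ p ∧ p ≤ 1
  | fl p j r => (0 ≤ p ∧ p ≤ 1) ∧ 1 ≤ r ∧ r ≤ K f j * 2 ^ j

/-- The transition function. -/
noncomputable def nx (f : ℕ → ℝ) : St → ℕ → St
  | ch p c, a => if 2 ^ a ≤ c then fl p a (K f a * 2 ^ a) else ch p (c + 1)
  | fl p j r, _ => if r ≤ 1 then ch (dg p (f j)) 0 else fl p j (r - 1)

/-- The asymptotic discounted value. -/
noncomputable def vv (f : ℕ → ℝ) : St → ℝ
  | ch p _ => p
  | fl p j _ => dg p (f j)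

/-- Assumptions on the rate. -/
structure Good (f : ℕ → ℝ) (D : ℝ) : Prop where
  anti : Antitone f
  pos : ∀ k, 0 < f k
  half : ∀ k, f k ≤ 1 / 2
  lim : Tendsto f atTop (𝓝 0)
  reg : ∀ j k, j ≤ k → min (f j) ((1 / 2) ^ (k - j)) ≤ D * f k

lemma dg_nonneg (p x : ℝ) : 0 ≤ dg p x := le_max_right _ _

lemma dg_le {p x : ℝ} (hp : 0 ≤ p) (hx : 0 ≤ x) : dg p x ≤ p := by
  apply max_le _ hp
  linarith

lemma le_dg (p x : ℝ) : p - x ≤ dg p x := le_max_left _ _

variable {f : ℕ → ℝ} {D : ℝ} (hf : Good f D)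

include hf

lemma Good.one_le_D : 1 ≤ D := by
  have h := hf.reg 0 0 le_rfl
  have h1 := hf.pos 0
  have h2 := hf.half 0
  simp only [Nat.sub_self, pow_zero] at h
  rw [min_eq_left (by linarith)] at h
  by_contra hc
  push Not at hc
  have : D * f 0 < 1 * f 0 := mul_lt_mul_of_pos_right hc h1
  linarith

lemma Good.step (k : ℕ) : f k ≤ D * f (k + 1) := by
  have h := hf.reg k (k + 1) (Nat.le_succ k)
  have h2 := hf.half k
  rw [Nat.add_sub_cancel_left, pow_one, min_eq_left h2] at h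
  exact h

lemma Good.steps (k b : ℕ) : f k ≤ D ^ b * f (k + b) := by
  induction b with
  | zero => simp
  | succ b ih =>
    have h1 := hf.step (k + b)
    have h2 := hf.one_le_D
    have h3 : D ^ b * f (k + b) ≤ D ^ b * (D * f (k + b + 1)) :=
      mul_le_mul_of_nonneg_left h1 (by positivity)
    rw [pow_succ]
    have h4 : D ^ b * (D * f (k + b + 1)) = D ^ b * D * f (k + (b + 1)) := by
      rw [← add_assoc]; ring
    linarith

lemma K_ge (j : ℕ) : 1 / f j ≤ K f j := Nat.le_ceil _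

lemma K_le (j : ℕ) : (K f j : ℝ) ≤ 1 / f j + 1 :=
  (Nat.ceil_lt_add_one (by have := hf.pos j; positivity)).le

lemma inv_ge_two (j : ℕ) : 2 ≤ 1 / f j := by
  have h1 := hf.pos j
  have h2 := hf.half j
  rw [le_div_iff₀ h1]
  linarith

lemma K_ge_two (j : ℕ) : 2 ≤ K f j := by
  have h1 := K_ge hf j
  have h2 := inv_ge_two hf j
  have h3 : (2 : ℝ) ≤ K f j := h2.trans h1
  exact_mod_cast h3

lemma K_mul_le (j : ℕ) : (K f j : ℝ) * f j ≤ 2 := by
  have h1 := hf.pos j
  have h2 := hf.half j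
  have h3 := mul_le_mul_of_nonneg_right (K_le hf j) h1.le
  have h4 : (1 / f j + 1) * f j = 1 + f j := by field_simp
  linarith

lemma one_add_K_le (j : ℕ) : 1 + (K f j : ℝ) ≤ 2 / f j := by
  have h1 := K_le hf j
  have h2 := inv_ge_two hf j
  have h3 : 2 / f j = 1 / f j + 1 / f j := by ring
  linarith

lemma valid_nx {s : St} (hs : Valid f s) (a : ℕ) : Valid f (nx f s a) := by
  cases s with
  | ch p c =>
    simp only [nx]
    split_ifs with h
    · refine ⟨hs, ?_, le_refl _⟩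
      have h1 : 1 * 1 ≤ K f a * 2 ^ a :=
        Nat.mul_le_mul (by have := K_ge_two hf a; omega) Nat.one_le_two_pow
      simpa using h1
    · exact hs
  | fl p j r =>
    obtain ⟨hp, hr, hr2⟩ := hs
    simp only [nx]
    split_ifs with h
    · exact ⟨dg_nonneg _ _, (dg_le hp.1 (hf.pos j).le).trans hp.2⟩
    · exact ⟨hp, by omega, by omega⟩

/-- The game. -/
noncomputable def gex (f : ℕ → ℝ) (D : ℝ) (hf : Good f D) : Game where
  Ω := {s : St // Valid f s}
  next s a := ⟨nx f s.1 a, valid_nx hf s.2 a⟩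
  pay s _ := py s.1

omit hf in
/-- The raw states along a play. -/
noncomputable def rst (f : ℕ → ℝ) (s : St) (α : ℕ → ℕ) : ℕ → St
  | 0 => s
  | t + 1 => nx f (rst f s α t) (α t)

lemma st_val (ω : (gex f D hf).Ω) (α : ℕ → ℕ) (t : ℕ) :
    ((gex f D hf).st ω α t).1 = rst f ω.1 α t := by
  induction t with
  | zero => rfl
  | succ t ih =>
    show nx f ((gex f D hf).st ω α t).1 (α t) = nx f (rst f ω.1 α t) (α t)
    rw [ih]

lemma g_eq (ω : (gex f D hf).Ω) (α : ℕ → ℕ) (t : ℕ) :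
    (gex f D hf).g ω α t = py (rst f ω.1 α t) := by
  show py ((gex f D hf).st ω α t).1 = _
  rw [st_val]

lemma rst_valid {s : St} (hs : Valid f s) (α : ℕ → ℕ) (t : ℕ) : Valid f (rst f s α t) := by
  induction t with
  | zero => exact hs
  | succ t ih => exact valid_nx hf ih _

omit hf in
lemma rst_succ' (s : St) (α : ℕ → ℕ) (t : ℕ) :
    rst f s α (t + 1) = rst f (nx f s (α 0)) (fun n => α (n + 1)) t := by
  induction t with
  | zero => rfl
  | succ t ih =>
    show nx f (rst f s α (t + 1)) (α (t + 1)) =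
      nx f (rst f (nx f s (α 0)) (fun n => α (n + 1)) t) (α (t + 1))
    rw [ih]

omit hf in
lemma py_nonneg {s : St} (hs : Valid f s) : 0 ≤ py s := by
  cases s with
  | ch p c => exact le_refl _
  | fl p j r => exact hs.1.1

omit hf in
lemma py_le_one {s : St} (hs : Valid f s) : py s ≤ 1 := by
  cases s with
  | ch p c => exact zero_le_one
  | fl p j r => exact hs.1.2

omit hf in
lemma vv_nonneg {s : St} (hs : Valid f s) : 0 ≤ vv f s := by
  cases s with
  | ch p c => exact hs.1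
  | fl p j r => exact dg_nonneg _ _

lemma vv_le_one {s : St} (hs : Valid f s) : vv f s ≤ 1 := by
  cases s with
  | ch p c => exact hs.2
  | fl p j r => exact (dg_le hs.1.1 (hf.pos j).le).trans hs.1.2

end Gen

end Pool.Agent.MP_ebfc19_pr
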